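import Pool.Agent.H25.VO.V9

/-!
# Arbitrary finite groups acting on a curve, linear characters: the vanishing theorems
-/

set_option autoImplicit false
set_option linter.overlappingInstances false
set_option linter.unusedSectionVars false

namespace Pool.Agent.H25.VN

open FF IntermediateField Module Pool.Agent.W603.LV Pool.Agent.W619.PQ Pool.Agent.Q70.CH
open Pool.Agent.H25.VO hiding act act_ord act_one act_mul vl_act IsQuot over_act exists_act dvd_of_trivial test_curve   vanish_fixed vanish_branch vanish_aux vanish_ramified vanish_trivial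

section action

variable {k K : Type} [Field k] [Field K] [Algebra k K] {G : Type} [Group G]
  (a : G →* (K ≃ₐ[k] K))

/-- the action of the group on the points of the curve -/
noncomputable def act (s : G) (P : Place k K) : Place k K := P.comp (a s)

lemma act_ord (s : G) (P : Place k K) (f : K) : (act a s P).ord f = P.ord (a s f) := rfl

lemma act_one (P : Place k K) : act a 1 P = P := by
  apply Place.ext; ext f
  rw [act_ord, map_one]; rfl

lemma act_mul (s t : G) (P : Place k K) : act a (s * t) P = act a t (act a s P) := by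
  apply Place.ext; ext f
  rw [act_ord, act_ord, act_ord, map_mul]; rfl

lemma vl_act {s : G} {P : Place k K} {f : K} {c : k} : Vl (act a s P) f c ↔ Vl P (a s f) c :=
  vl_comp

/-- `F` is the field of invariants, the function field of the quotient curve -/
def IsQuot (F : Type) [Field F] [Algebra F K] : Prop :=
  (∀ s f, a s (algebraMap F K f) = algebraMap F K f) ∧
    ∀ f : K, (∀ s, a s f = f) → ∃ g : F, algebraMap F K g = f

variable {F : Type} [Field F] [Algebra k F] [Algebra F K] [IsScalarTower k F K]
variable {a}

lemma over_act (hq : IsQuot a F) {P : Place k K} {p : Place k F} {e : ℕ} (h : Over P p e) (s : G) :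
    Over (act a s P) p e := by
  refine ⟨h.1, fun f => ?_⟩
  rw [act_ord, hq.1]
  exact h.2 f

variable [Fintype G]

/-- the group acts transitively on the places over a place of the quotient -/
theorem exists_act (hq : IsQuot a F) {P P' : Place k K} {p : Place k F} {e e' : ℕ}
    (h : Over P p e) (h' : Over P' p e') : ∃ s, P' = act a s P := by
  classical
  by_contra hc
  push Not at hc
  let S : Finset (Place k K) := Finset.univ.image (fun s : G => act a s P)
  let S' : Finset (Place k K) := Finset.univ.image (fun s : G => act a s P')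
  obtain ⟨z, hz⟩ := exists_values (S ∪ S') (fun Q => if Q ∈ S then (1 : k) else 0)
  have h1 : ∀ s : G, Vl P (a s z) 1 := by
    intro s
    rw [← vl_act]
    have hm : act a s P ∈ S := Finset.mem_image_of_mem _ (Finset.mem_univ s)
    have := hz _ (Finset.mem_union_left _ hm)
    rwa [if_pos hm] at this
  have h2 : ∀ s : G, Vl P' (a s z) 0 := by
    intro s
    rw [← vl_act]
    have hm : act a s P' ∈ S' := Finset.mem_image_of_mem _ (Finset.mem_univ s)
    have hn : act a s P' ∉ S := by
      intro hmem
      obtain ⟨u, -, hu⟩ := Finset.mem_image.1 hmem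
      apply hc (u * s⁻¹)
      rw [act_mul, hu, ← act_mul, mul_inv_cancel, act_one]
    have := hz _ (Finset.mem_union_right _ hm)
    rwa [if_neg hn] at this
  obtain ⟨n₀, hn₀⟩ := hq.2 (∏ s : G, a s z) (by
    intro u
    rw [map_prod]
    refine Fintype.prod_equiv (Equiv.mulLeft u) _ _ fun s => ?_
    rw [Equiv.coe_mulLeft, map_mul]; rfl)
  have h3 : Vl P (∏ s : G, a s z) 1 := by
    have := Vl.prod (P := P) Finset.univ (f := fun s : G => a s z) (c := fun _ => (1 : k))
      fun s _ => h1 s
    simpa using this
  have h4 : Vl P' (∏ s : G, a s z) 0 := by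
    have := Vl.prod (P := P') Finset.univ (f := fun s : G => a s z) (c := fun _ => (0 : k))
      fun s _ => h2 s
    simpa using this
  obtain ⟨h5, h6⟩ := h3.ne_zero one_ne_zero
  rw [vl_zero_iff] at h4
  have h7 := h4.resolve_left h5
  rw [← hn₀] at h6 h7
  rw [h.2] at h6
  rw [h'.2] at h7
  have h8 := h.1
  have h9 : p.ord n₀ = 0 := by
    rcases mul_eq_zero.1 h6 with h10 | h10
    · omega
    · exact h10
  rw [h9] at h7
  omega

/-- if `y` is an eigenfunction for the character `χ` and `y ^ d = b`, then the order of `b` is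
divisible by `d` at the points with `χ` trivial on the inertia group -/
theorem dvd_of_trivial (hq : IsQuot a F) {χ : G →* kˣ} {y : K} (hy : y ≠ 0)
    (hya : ∀ s, a s y = algebraMap k K (χ s : k) * y) {d : ℕ} {b : F}
    (hb : y ^ d = algebraMap F K b) {P : Place k K} {p : Place k F} {e : ℕ} (h : Over P p e)
    [CharZero k] (hs : ∀ s, act a s P = P → χ s = 1) : (d : ℤ) ∣ p.ord b := by
  classical
  let S : Finset (Place k K) := Finset.univ.image (fun s : G => act a s P)
  obtain ⟨z, hz⟩ := exists_values S (fun Q => if Q = P then (1 : k) else 0)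
  let v : K := ∑ s : G, algebraMap k K ((χ s)⁻¹ : kˣ) * a s z
  have hv : ∀ u, a u v = algebraMap k K (χ u : k) * v := by
    intro u
    change a u (∑ s : G, _) = _ * ∑ s : G, _
    rw [map_sum, Finset.mul_sum]
    refine Fintype.sum_equiv (Equiv.mulLeft u) _ _ fun s => ?_
    rw [Equiv.coe_mulLeft, map_mul, (a u).commutes, ← mul_assoc, ← map_mul, map_mul χ, mul_inv]
    have : ((χ u : kˣ) : k) * (((χ u)⁻¹ * (χ s)⁻¹ : kˣ) : k) = ((χ s)⁻¹ : kˣ) := by
      rw [← Units.val_mul, mul_inv_cancel_left]
    rw [this, map_mul]; rfl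
  have h1 : ∀ s : G, Vl P (algebraMap k K ((χ s)⁻¹ : kˣ) * a s z)
      (if act a s P = P then (1 : k) else 0) := by
    intro s
    have hm : act a s P ∈ S := Finset.mem_image_of_mem _ (Finset.mem_univ s)
    have h2 := (vl_act a).1 (hz _ hm)
    have h3 := h2.smul (((χ s)⁻¹ : kˣ) : k)
    by_cases hP : act a s P = P
    · simp only [if_pos hP, hs s hP, inv_one, Units.val_one, mul_one] at h3 ⊢
      exact h3
    · simp only [if_neg hP, mul_zero] at h3 ⊢
      exact h3
  have h4 : Vl P v (∑ s : G, if act a s P = P then (1 : k) else 0) := Vl.sum _ fun s _ => h1 s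
  have h5 : (∑ s : G, if act a s P = P then (1 : k) else 0) ≠ 0 := by
    rw [Finset.sum_boole]
    have : 0 < (Finset.univ.filter fun s : G => act a s P = P).card := by
      rw [Finset.card_pos]
      exact ⟨1, by simp [act_one]⟩
    exact_mod_cast this.ne'
  obtain ⟨h6, h7⟩ := h4.ne_zero h5
  obtain ⟨f, hf⟩ := hq.2 (v / y) (by
    intro s
    have hχ : algebraMap k K (χ s : k) ≠ 0 := by simp
    rw [map_div₀, hv, hya]
    field_simp)
  have h8 : v = y * algebraMap F K f := by rw [hf]; field_simp
  have hf0 : algebraMap F K f ≠ 0 := by rw [hf]; exact div_ne_zero h6 hy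
  rw [h8, P.ord_mul hy hf0, h.2] at h7
  have h9 : (d : ℤ) * P.ord y = e * p.ord b := by
    rw [← P.ord_pow, hb, h.2]
  refine ⟨- p.ord f, ?_⟩
  have he : (e : ℤ) ≠ 0 := by have := h.1; omega
  apply mul_left_cancel₀ he
  rw [← h9]
  have h10 : P.ord y = - (e * p.ord f) := by omega
  rw [h10]; ring

end action

end Pool.Agent.H25.VN
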