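import Pool.Agent.H25.VN.N9

/-!
# Induced characters
-/

set_option autoImplicit false
set_option linter.overlappingInstances false
set_option linter.unusedSectionVars false

namespace Pool.Agent.H25.VN

section ind

variable {k : Type} [Field k] {G : Type} [Group G] [Fintype G]

open Classical in
/-- The value at `s` of the character of `G` which is induced by the linear character `χ` of the
subgroup `H`: `(1 / |H|) ∑ χ(g⁻¹ s g)`, the sum over all `g` in `G` with `g⁻¹ s g` in `H`. -/
noncomputable def indChar {H : Subgroup G} (χ : H →* kˣ) (s : G) : k :=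
  (Nat.card H : k)⁻¹ * ∑ g : G, if h : g⁻¹ * s * g ∈ H then (χ ⟨g⁻¹ * s * g, h⟩ : k) else 0

variable [CharZero k] {J : Type} [Fintype J] {H : J → Subgroup G} (χ : ∀ j, H j →* kˣ)

lemma indChar_eq (j : J) (s : G) :
    indChar (χ j) s = (Nat.card (H j) : k)⁻¹ * ∑ g : G, wt χ j (g⁻¹ * s * g) := rfl

lemma indChar_coeff (s : G) :
    ∑ j, ∑ γ : G, (indChar (χ j) 1 * (Nat.card (H j) : k)⁻¹) * wt χ j (γ⁻¹ * s * γ) =
      ∑ j, indChar (χ j) 1 * indChar (χ j) s := by
  apply Finset.sum_congr rfl
  intro j _
  rw [← Finset.mul_sum, mul_assoc, indChar_eq χ j s]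

lemma sum_wt (j : J) [Decidable (χ j = 1)] :
    ∑ s : G, wt χ j s = if χ j = 1 then (Nat.card (H j) : k) else 0 := by
  classical
  have : Fintype (H j) := Fintype.ofFinite _
  have h1 : ∑ s : G, wt χ j s = ∑ h : H j, (χ j h : k) := by
    calc ∑ s : G, wt χ j s = ∑ s ∈ Finset.univ.filter (fun s : G => s ∈ H j), wt χ j s := by
          symm
          apply Finset.sum_filter_of_ne
          intro s _ hs
          by_contra hc
          apply hs
          unfold wt
          rw [dif_neg hc]
      _ = ∑ h : H j, wt χ j (h : G) :=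
          Finset.sum_subtype _ (fun s => by simp) (fun s => wt χ j s)
      _ = ∑ h : H j, (χ j h : k) := by
          apply Finset.sum_congr rfl
          intro h _
          unfold wt
          rw [dif_pos h.2]
  rw [h1]
  split_ifs with h2
  · rw [h2]
    simp
  · have h3 := sum_hom_units_eq_zero ((Units.coeHom k).comp (χ j)) (by
      intro hc
      apply h2
      refine MonoidHom.ext fun s => Units.ext ?_
      exact DFunLike.congr_fun hc s)
    exact h3

lemma indChar_one (j : J) : indChar (χ j) 1 = ((H j).index : k) := by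
  classical
  have h1 : ∀ g : G, wt χ j (g⁻¹ * 1 * g) = 1 := by
    intro g
    rw [mul_one, inv_mul_cancel]
    unfold wt
    rw [dif_pos (H j).one_mem]
    have : (⟨1, (H j).one_mem⟩ : H j) = 1 := rfl
    rw [this, map_one, Units.val_one]
  rw [indChar_eq, Finset.sum_congr rfl fun g _ => h1 g, Finset.sum_const, Finset.card_univ,
    nsmul_eq_mul, mul_one, ← Nat.card_eq_fintype_card, ← (H j).card_mul_index, Nat.cast_mul,
    inv_mul_cancel_left₀]
  exact_mod_cast Nat.card_pos.ne'

lemma sum_indChar (j : J) [Decidable (χ j = 1)] :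
    ∑ s : G, indChar (χ j) s = if χ j = 1 then (Fintype.card G : k) else 0 := by
  classical
  have h1 : ∀ g : G, ∑ s : G, wt χ j (g⁻¹ * s * g) = ∑ s : G, wt χ j s := by
    intro g
    refine Fintype.sum_equiv (MulAut.conj g⁻¹).toEquiv _ _ fun s => ?_
    have h2 : (MulAut.conj g⁻¹).toEquiv s = g⁻¹ * s * g⁻¹⁻¹ := rfl
    rw [h2, inv_inv]
  simp only [indChar_eq]
  rw [← Finset.mul_sum, Finset.sum_comm, Finset.sum_congr rfl fun g _ => h1 g, Finset.sum_const,
    Finset.card_univ, sum_wt, nsmul_eq_mul]
  split_ifs with h2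
  · have h3 : (Nat.card (H j) : k) ≠ 0 := by exact_mod_cast Nat.card_pos.ne'
    field_simp
  · simp

/-- the trivial character occurs only for the whole group -/
lemma top_of_trivial [DecidableEq G]
    (hreg : ∀ s : G, ∑ j, indChar (χ j) 1 * indChar (χ j) s =
      if s = 1 then (Fintype.card G : k) else 0) (j₀ : J) (h₀ : χ j₀ = 1) : H j₀ = ⊤ := by
  classical
  have h1 : ∑ s : G, ∑ j, indChar (χ j) 1 * indChar (χ j) s = (Fintype.card G : k) := by
    simp only [hreg]
    rw [Finset.sum_ite_eq' Finset.univ (1 : G), if_pos (Finset.mem_univ _)]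
  rw [Finset.sum_comm] at h1
  have h2 : ∀ j, ∑ s : G, indChar (χ j) 1 * indChar (χ j) s =
      if χ j = 1 then ((H j).index : k) * (Fintype.card G : k) else 0 := by
    intro j
    rw [← Finset.mul_sum, sum_indChar, indChar_one]
    split_ifs
    · rfl
    · rw [mul_zero]
  rw [Finset.sum_congr rfl fun j _ => h2 j, ← Finset.sum_filter, ← Finset.sum_mul] at h1
  have h3 : (Fintype.card G : k) ≠ 0 := by exact_mod_cast Fintype.card_ne_zero
  have h4 : ((∑ j ∈ Finset.univ.filter (fun j => χ j = 1), (H j).index : ℕ) : k) = 1 := by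
    apply mul_right_cancel₀ h3
    rw [one_mul]
    push_cast
    exact h1
  have h5 : ∑ j ∈ Finset.univ.filter (fun j => χ j = 1), (H j).index = 1 := by exact_mod_cast h4
  have h6 : (H j₀).index ≤ 1 := by
    rw [← h5]
    exact Finset.single_le_sum (f := fun j => (H j).index) (fun _ _ => Nat.zero_le _)
      (Finset.mem_filter.2 ⟨Finset.mem_univ _, h₀⟩)
  have h7 : (H j₀).index ≠ 0 := Subgroup.index_ne_zero_of_finite
  exact Subgroup.index_eq_one.1 (by omega)

end ind

end Pool.Agent.H25.VN
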