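import Pool.Agent.H25.VN.N10

/-!
# Balanced characters
-/

set_option autoImplicit false
set_option linter.overlappingInstances false
set_option linter.unusedSectionVars false

namespace Pool.Agent.H25.VN

open FF IntermediateField Module Pool.Agent.W603.LV Pool.Agent.W619.PQ Pool.Agent.Q70.CH
open Pool.Agent.H25.VO hiding act act_ord act_one act_mul vl_act IsQuot over_act exists_act dvd_of_trivial test_curve vanish_fixed vanish_branch vanish_aux vanish_ramified vanish_trivial Eigenforms exists_pr rank_eigenforms Van Paired paired_number trivial_number one_var block Eig tw tw_tw tw_isMap act_mor sum_coord cf cf_mul_left cf_mul_right PhiK phiK_eig sum_cf sum_phiK prod_mulSingle rep rep_isMap voisin_core voisin_quotient act₂ orb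

section balanced

variable {k : Type} [Field k] {K : Type} [Field K] [Algebra k K] {G : Type} [Group G]

/-- The linear character `χ` of the subgroup `H` of `G` is *balanced* on the curve `X` with the
function field `K`: either `χ` is not trivial on the elements of `H` which act trivially on `X`; or
`χ` is inverted in `G` and an element of `H` on which `χ` is not trivial has a fixed point on `X`;
or the `χ`-part of the covering `X → X / H` is paired. (The field `F` is the field of the invariants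
of `H`.) -/
def Balanced (a : G →* (K ≃ₐ[k] K)) {H : Subgroup G} (χ : H →* kˣ) : Prop :=
  (∃ u : H, χ u ≠ 1 ∧ a (u : G) = 1) ∨
  (Inverted H χ ∧ ∃ (u : H) (P : Place k K), χ u ≠ 1 ∧ act a (u : G) P = P) ∨
  ∃ (F : Type) (_ : Field F) (_ : Algebra k F) (_ : IsFF k F) (_ : Algebra F K)
    (_ : IsScalarTower k F K), IsQuot (a.comp H.subtype) F ∧ Paired (a.comp H.subtype) F χ

variable {a : G →* (K ≃ₐ[k] K)} {H : Subgroup G} {χ : H →* kˣ}

lemma inverted_inv (h : Inverted H χ) : Inverted H χ⁻¹ := by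
  obtain ⟨t, h1, h2⟩ := h
  refine ⟨t, h1, fun s hs => ?_⟩
  obtain ⟨h3, h4⟩ := h2 s hs
  exact ⟨h3, by rw [MonoidHom.inv_apply, MonoidHom.inv_apply, h4]⟩

lemma paired_inv {G' : Type} [Group G'] {a : G' →* (K ≃ₐ[k] K)} {F : Type} [Field F] [Algebra k F]
    [Algebra F K] {χ : G' →* kˣ} (h : Paired a F χ) : Paired a F χ⁻¹ := by
  obtain ⟨y, d, b, τ, hy, hd, hb, hya, ⟨P₀, hP₀⟩, hτ⟩ := h
  have h1 : ∀ P : Place k F, ¬ (d : ℤ) ∣ P.ord b⁻¹ ↔ ¬ (d : ℤ) ∣ P.ord b := by
    intro P
    rw [P.ord_inv, Int.dvd_neg]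
  refine ⟨y⁻¹, d, b⁻¹, τ, inv_ne_zero hy, hd, ?_, ?_, ⟨P₀, (h1 P₀).2 hP₀⟩, ?_⟩
  · rw [inv_pow, hb, map_inv₀]
  · intro s
    rw [map_inv₀, hya, Algebra.smul_def, Algebra.smul_def, mul_inv, MonoidHom.inv_apply,
      Units.val_inv_eq_inv_val, map_inv₀]
  · intro P hP
    obtain ⟨h2, h3, h4⟩ := hτ P ((h1 P).1 hP)
    refine ⟨h2, h3, ?_⟩
    rw [P.ord_inv, (τ P).ord_inv]
    have h5 : -P.ord b + -(τ P).ord b = -(P.ord b + (τ P).ord b) := by ring
    rw [h5, Int.dvd_neg]
    exact h4

lemma inv_apply_ne {u : H} (h : χ u ≠ 1) : χ⁻¹ u ≠ 1 := by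
  rw [MonoidHom.inv_apply]
  exact fun hc => h (inv_eq_one.1 hc)

lemma balanced_inv (h : Balanced a χ) : Balanced a χ⁻¹ := by
  rcases h with ⟨u, h1, h2⟩ | ⟨h1, u, P, h2, h3⟩ | ⟨F, _, _, _, _, _, h1, h2⟩
  · exact Or.inl ⟨u, inv_apply_ne h1, h2⟩
  · exact Or.inr (Or.inl ⟨inverted_inv h1, u, P, inv_apply_ne h2, h3⟩)
  · exact Or.inr (Or.inr ⟨F, _, _, ‹_›, _, ‹_›, h1, paired_inv h2⟩)

/-- the vanishing and the number of forms for a character which is trivial or balanced -/
theorem number' [CharZero k] [IsAlgClosed k] [IsFF k K] [Fintype G]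
    (hr : χ ≠ 1 → Balanced a χ) (p : Place k K) :
    ∃ c : ℕ, VanT (rules (a.comp H.subtype) χ) (zeros a χ p) c ∧
      (c : Cardinal) ≤ Module.rank k (Eigenforms (a.comp H.subtype) χ) := by
  classical
  by_cases h1 : χ = 1
  · exact number (fun h => absurd h1 h) p
  · rcases hr h1 with ⟨v, hv, hv1⟩ | h2 | ⟨F, _, _, _, _, _, hq, hp⟩
    · refine ⟨0, ?_, by simp⟩
      intro ι _ _ W _ _ Ψ hι P1 P2 P3 P4 x
      obtain ⟨i⟩ := Fintype.card_pos_iff.1 hι
      have h3 : Ψ (Function.update x i (act (a.comp H.subtype) v (x i))) =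
          (((χ v)⁻¹ : kˣ) : k) • Ψ x := P2 (act (a.comp H.subtype) v, (χ v)⁻¹) ⟨v, rfl⟩ i x
      have h4 : act (a.comp H.subtype) v (x i) = x i := by
        apply Place.ext
        ext f
        change (x i).ord (a (v : G) f) = (x i).ord f
        rw [hv1]; rfl
      rw [h4, Function.update_eq_self] at h3
      have h5 : (1 - (((χ v)⁻¹ : kˣ) : k)) • Ψ x = 0 := by
        rw [sub_smul, one_smul, ← h3, sub_self]
      refine (smul_eq_zero.1 h5).resolve_left ?_
      intro h6
      apply hv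
      have h7 : (χ v)⁻¹ = 1 := by
        apply Units.ext
        rw [Units.val_one]
        exact (sub_eq_zero.1 h6).symm
      exact inv_eq_one.1 h7
    · exact number (fun _ => h2) p
    · have : Fintype H := Fintype.ofFinite _
      obtain ⟨c, h3, h4⟩ := paired_number hq hp
      obtain ⟨o, e, he, ho⟩ := exists_below (IsScalarTower.toAlgHom k F K) p
      refine ⟨c, ((h3 o).toT).mono ?_, h4⟩
      rintro Q ⟨hc, -⟩
      exact absurd hc h1

end balanced

end Pool.Agent.H25.VN
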