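import Pool.Agent.H25.VN.N11

/-!
# Mackey's criterion for a table of monomial characters
-/

set_option autoImplicit false
set_option linter.overlappingInstances false
set_option linter.unusedSectionVars false

namespace Pool.Agent.H25.VN

section mackey

variable {k : Type} [Field k] [CharZero k] {G : Type} [Group G] [Fintype G] {J : Type}
  {H : J → Subgroup G} (χ : ∀ j, H j →* kˣ)

/-- `χ i` and the conjugate of `χ j` by `γ` agree where both are defined -/
def Agree (i j : J) (γ : G) : Prop :=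
  ∀ h (h1 : h ∈ H i) (h2 : γ⁻¹ * h * γ ∈ H j), χ i ⟨h, h1⟩ = χ j ⟨γ⁻¹ * h * γ, h2⟩

open Classical in
lemma mackey_sum (i j : J) (γ : G) :
    ∑ h : G, wt (fun j => (χ j)⁻¹) i h * wt χ j (γ⁻¹ * h * γ) =
      if Agree χ i j γ then
        ((Finset.univ.filter fun h : G => h ∈ H i ∧ γ⁻¹ * h * γ ∈ H j).card : k) else 0 := by
  split_ifs with hA
  · rw [← Finset.sum_boole]
    apply Finset.sum_congr rfl
    intro h _
    unfold wt
    by_cases h1 : h ∈ H i
    · by_cases h2 : γ⁻¹ * h * γ ∈ H j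
      · rw [dif_pos h1, dif_pos h2, if_pos ⟨h1, h2⟩, ← hA h h1 h2, MonoidHom.inv_apply,
          Units.inv_mul]
      · rw [dif_neg h2, mul_zero, if_neg (fun hc => h2 hc.2)]
    · rw [dif_neg h1, zero_mul, if_neg (fun hc => h1 hc.1)]
  · unfold Agree at hA
    push Not at hA
    obtain ⟨h₀, h1, h2, h3⟩ := hA
    set S := ∑ h : G, wt (fun j => (χ j)⁻¹) i h * wt χ j (γ⁻¹ * h * γ) with hS
    have h4 : S = ∑ h : G, wt (fun j => (χ j)⁻¹) i (h₀ * h) * wt χ j (γ⁻¹ * (h₀ * h) * γ) :=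
      (Fintype.sum_equiv (Equiv.mulLeft h₀) _ _ fun h => rfl).symm
    have h5 : ∀ h : G, wt (fun j => (χ j)⁻¹) i (h₀ * h) * wt χ j (γ⁻¹ * (h₀ * h) * γ) =
        ((((χ i ⟨h₀, h1⟩)⁻¹ : kˣ) : k) * (χ j ⟨γ⁻¹ * h₀ * γ, h2⟩ : k)) *
          (wt (fun j => (χ j)⁻¹) i h * wt χ j (γ⁻¹ * h * γ)) := by
      intro h
      have h6 := wt_mul_left (χ := fun j => (χ j)⁻¹) (j := i) ⟨h₀, h1⟩ h
      have h7 := wt_mul_left (χ := χ) (j := j) ⟨γ⁻¹ * h₀ * γ, h2⟩ (γ⁻¹ * h * γ)
      have h8 : γ⁻¹ * (h₀ * h) * γ = (γ⁻¹ * h₀ * γ) * (γ⁻¹ * h * γ) := by group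
      rw [h8]
      simp only at h6 h7
      rw [h6, h7, MonoidHom.inv_apply]
      ring
    rw [Finset.sum_congr rfl fun h _ => h5 h, ← Finset.mul_sum, ← hS] at h4
    have h9 : ((((χ i ⟨h₀, h1⟩)⁻¹ : kˣ) : k) * (χ j ⟨γ⁻¹ * h₀ * γ, h2⟩ : k) - 1) * S = 0 := by
      rw [sub_mul, one_mul, ← h4, sub_self]
    refine (mul_eq_zero.1 h9).resolve_left ?_
    intro h10
    apply h3
    have h11 : (χ i ⟨h₀, h1⟩)⁻¹ * χ j ⟨γ⁻¹ * h₀ * γ, h2⟩ = 1 := by
      apply Units.ext
      rw [Units.val_mul, Units.val_one]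
      exact sub_eq_zero.1 h10
    exact (inv_mul_eq_one.1 h11)

variable [Fintype J]

/-- the induced characters are irreducible and pairwise different -/
lemma mackey [DecidableEq G]
    (hreg : ∀ s : G, ∑ j, indChar (χ j) 1 * indChar (χ j) s =
      if s = 1 then (Fintype.card G : k) else 0) {i j₀ : J} {γ₀ : G} (h : j₀ ≠ i ∨ γ₀ ∉ H i) :
    ¬ Agree χ i j₀ γ₀ := by
  classical
  intro hA
  let ν : J × G → ℕ := fun p => if Agree χ i p.1 p.2 then
    (Finset.univ.filter fun h : G => h ∈ H i ∧ p.2⁻¹ * h * p.2 ∈ H p.1).card else 0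
  let T : J × G → ℚ := fun p => ((H p.1).index : ℚ) * (Nat.card (H p.1) : ℚ)⁻¹ * (ν p : ℚ)
  have hT0 : ∀ p, 0 ≤ T p := fun p => by positivity
  have h1 : ∑ h : G, wt (fun j => (χ j)⁻¹) i h *
      (∑ j, ∑ γ : G, (indChar (χ j) 1 * (Nat.card (H j) : k)⁻¹) * wt χ j (γ⁻¹ * h * γ)) =
      (Fintype.card G : k) := by
    have h2 : ∀ h : G, wt (fun j => (χ j)⁻¹) i h *
        (∑ j, ∑ γ : G, (indChar (χ j) 1 * (Nat.card (H j) : k)⁻¹) * wt χ j (γ⁻¹ * h * γ)) =
        if h = 1 then (Fintype.card G : k) else 0 := by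
      intro h
      rw [indChar_coeff, hreg]
      split_ifs with h3
      · subst h3
        have h4 : wt (fun j => (χ j)⁻¹) i (1 : G) = 1 := by
          unfold wt
          rw [dif_pos (H i).one_mem]
          have : (⟨1, (H i).one_mem⟩ : H i) = 1 := rfl
          rw [this, map_one, Units.val_one]
        rw [h4, one_mul]
      · rw [mul_zero]
    rw [Finset.sum_congr rfl fun h _ => h2 h, Finset.sum_ite_eq' Finset.univ (1 : G),
      if_pos (Finset.mem_univ _)]
  have h2 : ((∑ p : J × G, T p : ℚ) : k) = ((Fintype.card G : ℚ) : k) := by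
    rw [Rat.cast_natCast, ← h1, Rat.cast_sum, Fintype.sum_prod_type]
    have h3 : ∀ j, ∀ γ : G, ((T (j, γ) : ℚ) : k) = ∑ h : G, wt (fun j => (χ j)⁻¹) i h *
        ((indChar (χ j) 1 * (Nat.card (H j) : k)⁻¹) * wt χ j (γ⁻¹ * h * γ)) := by
      intro j γ
      have h4 : ∀ h : G, wt (fun j => (χ j)⁻¹) i h *
          ((indChar (χ j) 1 * (Nat.card (H j) : k)⁻¹) * wt χ j (γ⁻¹ * h * γ)) =
          (indChar (χ j) 1 * (Nat.card (H j) : k)⁻¹) *
            (wt (fun j => (χ j)⁻¹) i h * wt χ j (γ⁻¹ * h * γ)) := fun h => by ring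
      rw [Finset.sum_congr rfl fun h _ => h4 h, ← Finset.mul_sum, mackey_sum, indChar_one]
      change ((((H j).index : ℚ) * (Nat.card (H j) : ℚ)⁻¹ * (ν (j, γ) : ℚ) : ℚ) : k) = _
      simp only [ν]
      split_ifs <;> push_cast <;> ring
    simp only [h3, Finset.mul_sum]
    rw [Finset.sum_comm]
    rw [Finset.sum_comm]
    symm
    rw [Finset.sum_comm]
    apply Finset.sum_congr rfl
    intro j _
    rw [Finset.sum_comm]
  have h3 : ∑ p : J × G, T p = (Fintype.card G : ℚ) := by exact_mod_cast h2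
  -- the contribution of `i` and the elements of `H i`
  let B : Finset (J × G) := ({i} : Finset J) ×ˢ (Finset.univ.filter fun γ : G => γ ∈ H i)
  have hcard : (Finset.univ.filter fun γ : G => γ ∈ H i).card = Nat.card (H i) := by
    rw [Nat.card_eq_fintype_card, Fintype.card_subtype]
  have hTB : ∀ p ∈ B, T p = ((H i).index : ℚ) := by
    rintro ⟨j, γ⟩ hp
    rw [Finset.mem_product, Finset.mem_singleton, Finset.mem_filter] at hp
    obtain ⟨rfl, -, hγ⟩ := hp
    simp only at hγ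
    have h4 : Agree χ j j γ := by
      intro h h1 h2
      have h5 : (⟨γ⁻¹ * h * γ, h2⟩ : H j) = (⟨γ, hγ⟩ : H j)⁻¹ * ⟨h, h1⟩ * ⟨γ, hγ⟩ := rfl
      rw [h5, map_mul, map_mul, map_inv, mul_comm, mul_inv_cancel_left]
    have h5 : (Finset.univ.filter fun h : G => h ∈ H j ∧ γ⁻¹ * h * γ ∈ H j) =
        Finset.univ.filter fun h : G => h ∈ H j := by
      apply Finset.filter_congr
      intro h _
      constructor
      · exact fun h => h.1
      · exact fun h6 => ⟨h6, (H j).mul_mem ((H j).mul_mem ((H j).inv_mem hγ) h6) hγ⟩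
    change ((H j).index : ℚ) * (Nat.card (H j) : ℚ)⁻¹ * (ν (j, γ) : ℚ) = _
    simp only [ν]
    rw [if_pos h4, h5, hcard, mul_assoc, inv_mul_cancel₀, mul_one]
    exact_mod_cast Nat.card_pos.ne'
  have hB : ∑ p ∈ B, T p = (Fintype.card G : ℚ) := by
    rw [Finset.sum_congr rfl hTB, Finset.sum_const, Finset.card_product, Finset.card_singleton,
      one_mul, hcard, nsmul_eq_mul, ← Nat.card_eq_fintype_card, ← (H i).card_mul_index]
    push_cast
    ring
  have hnot : (j₀, γ₀) ∉ B := by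
    rw [Finset.mem_product, Finset.mem_singleton, Finset.mem_filter]
    rintro ⟨h4, -, h5⟩
    rcases h with h | h
    · exact h h4
    · exact h h5
  have hpos : 0 < T (j₀, γ₀) := by
    change 0 < ((H j₀).index : ℚ) * (Nat.card (H j₀) : ℚ)⁻¹ * (ν (j₀, γ₀) : ℚ)
    have h4 : 0 < ν (j₀, γ₀) := by
      simp only [ν]
      rw [if_pos hA, Finset.card_pos]
      exact ⟨1, by simp [(H i).one_mem, (H j₀).one_mem]⟩
    have h5 : 0 < (H j₀).index := Nat.pos_of_ne_zero Subgroup.index_ne_zero_of_finite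
    have h6 : 0 < Nat.card (H j₀) := Nat.card_pos
    positivity
  have hle : ∑ p ∈ insert (j₀, γ₀) B, T p ≤ ∑ p : J × G, T p :=
    Finset.sum_le_sum_of_subset_of_nonneg (Finset.subset_univ _) fun p _ _ => hT0 p
  rw [Finset.sum_insert hnot, hB, h3] at hle
  linarith

end mackey

end Pool.Agent.H25.VN
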