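import Pool.Agent.H25.VN.N12

/-!
# The invariant two-forms on the product of two curves
-/

set_option autoImplicit false
set_option linter.overlappingInstances false
set_option linter.unusedSectionVars false

namespace Pool.Agent.H25.VN

open FF IntermediateField Module Pool.Agent.W603.LV Pool.Agent.W619.PQ Pool.Agent.Q70.CH
open KaehlerDifferential TensorProduct
open Pool.Agent.H25.VO hiding act act_ord act_one act_mul vl_act IsQuot over_act exists_act dvd_of_trivial test_curve vanish_fixed vanish_branch vanish_aux vanish_ramified vanish_trivial Eigenforms exists_pr rank_eigenforms Van Paired paired_number trivial_number one_var block Eig tw tw_tw tw_isMap act_mor sum_coord cf cf_mul_left cf_mul_right PhiK phiK_eig sum_cf sum_phiK prod_mulSingle rep rep_isMap voisin_core voisin_quotient act₂ orb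

section pull

variable {k K : Type} [Field k] [Field K] [Algebra k K]

/-- The `k`-linear map `φ` is the pull-back of the differentials of the function field `K` by the
automorphism `σ`: `φ (f dx) = σ(f) d(σ x)`. -/
def IsPull (σ : K ≃ₐ[k] K) (φ : Ω[K⁄k] →ₗ[k] Ω[K⁄k]) : Prop :=
  ∀ f x : K, φ (f • D k K x) = σ f • D k K (σ x)

variable (k K) in
/-- The space `H⁰(X, K_X)` of the everywhere regular differentials. -/
noncomputable def regForms : Submodule k Ω[K⁄k] :=
  Submodule.span k {ω | ∀ P : Place k K, RegularAt P ω}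

lemma pull_regular {σ : K ≃ₐ[k] K} {φ : Ω[K⁄k] →ₗ[k] Ω[K⁄k]} (h : IsPull σ φ) {ω : Ω[K⁄k]}
    (hω : ω ∈ regForms k K) : φ ω ∈ regForms k K := by
  unfold regForms at hω ⊢
  induction hω using Submodule.span_induction with
  | mem ω hω =>
    apply Submodule.subset_span
    intro P
    obtain ⟨f, t, ht, hf, rfl⟩ := hω (P.comp σ)
    exact ⟨σ f, σ t, ht, hf, h f t⟩
  | zero => rw [map_zero]; exact Submodule.zero_mem _
  | add x y _ _ hx hy => rw [map_add]; exact Submodule.add_mem _ hx hy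
  | smul c x _ hx => rw [map_smul]; exact Submodule.smul_mem _ _ hx

lemma eigen_regular {G' : Type} [Group G'] (a : G' →* (K ≃ₐ[k] K)) (χ : G' →* kˣ) :
    Eigenforms a χ ≤ regForms k K :=
  Submodule.span_mono fun _ h => h.1

lemma pull_eigen {G' : Type} [Group G'] {a : G' →* (K ≃ₐ[k] K)} {χ : G' →* kˣ} {s : G'}
    {φ : Ω[K⁄k] →ₗ[k] Ω[K⁄k]} (h : IsPull (a s) φ) {ω : Ω[K⁄k]} (hω : ω ∈ Eigenforms a χ) :
    φ ω = (χ s : k) • ω := by
  unfold Eigenforms at hω
  induction hω using Submodule.span_induction with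
  | mem ω hω =>
    obtain ⟨-, f, x, hx, hf, rfl⟩ := hω
    rw [h, hx, hf, smul_assoc]
  | zero => rw [map_zero, smul_zero]
  | add x y _ _ hx hy => rw [map_add, hx, hy, smul_add]
  | smul c x _ hx => rw [map_smul, hx, smul_comm]

variable [CharZero k] [IsAlgClosed k] [IsFF k K]

lemma exists_coef {x₀ : K} (hx₀ : Transcendental k x₀) (ω : Ω[K⁄k]) :
    ∃ c : K, ω = c • D k K x₀ := by
  have h1 : ω ∈ Submodule.span K (Set.range (D k K)) := by
    rw [KaehlerDifferential.span_range_derivation]; trivial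
  induction h1 using Submodule.span_induction with
  | mem ω hω =>
    obtain ⟨x, rfl⟩ := hω
    exact D_ratio hx₀ x
  | zero => exact ⟨0, by rw [zero_smul]⟩
  | add x y _ _ hx hy =>
    obtain ⟨c, rfl⟩ := hx
    obtain ⟨c', rfl⟩ := hy
    exact ⟨c + c', by rw [add_smul]⟩
  | smul c x _ hx =>
    obtain ⟨c', rfl⟩ := hx
    exact ⟨c * c', by rw [mul_smul]⟩

/-- the pull-back is determined by its values on the forms `f dx` -/
lemma pull_unique {σ : K ≃ₐ[k] K} {φ φ' : Ω[K⁄k] →ₗ[k] Ω[K⁄k]} (h : IsPull σ φ)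
    (h' : IsPull σ φ') : φ = φ' := by
  obtain ⟨x₀, hx₀⟩ := IsFF.exists_transcendental (k := k) (K := K)
  refine LinearMap.ext fun ω => ?_
  obtain ⟨c, rfl⟩ := exists_coef hx₀ ω
  rw [h, h']

/-- a nonconstant invariant function -/
lemma exists_invariant {G : Type} [Group G] [Finite G] (a : G →* (K ≃ₐ[k] K)) :
    ∃ x₀ : K, Transcendental k x₀ ∧ ∀ g, a g x₀ = x₀ := by
  obtain ⟨F, _, _, _, _, _, hq⟩ := exists_field a
  obtain ⟨t, ht⟩ := IsFF.exists_transcendental (k := k) (K := F)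
  refine ⟨algebraMap F K t, ?_, fun g => hq.1 g t⟩
  intro hc
  exact ht ((isAlgebraic_algHom_iff (IsScalarTower.toAlgHom k F K)
    (algebraMap F K).injective).1 hc)

lemma der_comm {x₀ : K} (hx₀ : Transcendental k x₀) {dd : Derivation k K K} (hdd : dd x₀ = 1)
    {σ : K ≃ₐ[k] K} (hσ : σ x₀ = x₀) (x : K) : σ (dd x) = dd (σ x) := by
  let d' : Derivation k K K := Derivation.mk'
    ((σ.toLinearMap ∘ₗ dd.toLinearMap) ∘ₗ σ.symm.toLinearMap) (by
      intro x y
      change σ (dd (σ.symm (x * y))) = x • σ (dd (σ.symm y)) + y • σ (dd (σ.symm x))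
      rw [map_mul, Derivation.leibniz, map_add, smul_eq_mul, smul_eq_mul, map_mul, map_mul,
        AlgEquiv.apply_symm_apply, AlgEquiv.apply_symm_apply, smul_eq_mul, smul_eq_mul])
  have h1 : ∀ y, d' y = σ (dd (σ.symm y)) := fun y => rfl
  have hσ' : σ.symm x₀ = x₀ := by rw [AlgEquiv.symm_apply_eq, hσ]
  have h2 : d' x₀ = 1 := by rw [h1, hσ', hdd, map_one]
  obtain ⟨c, hc⟩ := D_ratio hx₀ (σ x)
  have h3 := congrArg dd.liftKaehlerDifferential hc
  have h4 := congrArg d'.liftKaehlerDifferential hc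
  rw [map_smul, lift_D, lift_D, hdd, smul_eq_mul, mul_one] at h3
  rw [map_smul, lift_D, lift_D, h2, smul_eq_mul, mul_one] at h4
  rw [h3, ← h4, h1, AlgEquiv.symm_apply_apply]

/-- the action of the group on the differentials -/
theorem exists_action {G : Type} [Group G] [Finite G] (a : G →* (K ≃ₐ[k] K)) :
    ∃ φ : G → (Ω[K⁄k] →ₗ[k] Ω[K⁄k]), (∀ g, IsPull (a g) (φ g)) ∧
      ∀ g h ω, φ (g * h) ω = φ g (φ h ω) := by
  obtain ⟨x₀, hx₀, hinv⟩ := exists_invariant a
  obtain ⟨dd, hdd⟩ := exists_der_one hx₀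
  let cf : Ω[K⁄k] → K := fun ω => dd.liftKaehlerDifferential ω
  let φ : G → (Ω[K⁄k] →ₗ[k] Ω[K⁄k]) := fun g =>
    { toFun := fun ω => a g (cf ω) • D k K x₀
      map_add' := fun x y => by
        change a g (dd.liftKaehlerDifferential (x + y)) • D k K x₀ = _
        rw [map_add, map_add, add_smul]
      map_smul' := fun c x => by
        change a g (dd.liftKaehlerDifferential (c • x)) • D k K x₀ = c • (_ • D k K x₀)
        have h1 : dd.liftKaehlerDifferential (c • x) = c • dd.liftKaehlerDifferential x := by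
          rw [← algebraMap_smul K c x, map_smul, algebraMap_smul]
        rw [h1, map_smul, smul_assoc] }
  have hφ : ∀ g ω, φ g ω = a g (dd.liftKaehlerDifferential ω) • D k K x₀ := fun g ω => rfl
  refine ⟨φ, ?_, ?_⟩
  · intro g f x
    obtain ⟨c, hc⟩ := D_ratio hx₀ (a g x)
    have h3 := congrArg dd.liftKaehlerDifferential hc
    rw [map_smul, lift_D, lift_D, hdd, smul_eq_mul, mul_one] at h3
    rw [hφ, map_smul, lift_D, smul_eq_mul, map_mul, der_comm hx₀ hdd (hinv g), h3, mul_smul, ← hc]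
  · intro g h ω
    rw [hφ, hφ, hφ, map_smul, lift_D, hdd, smul_eq_mul, mul_one, map_mul]
    rfl

end pull

section inv

variable {k K₁ K₂ : Type} [Field k] [Field K₁] [Algebra k K₁] [Field K₂] [Algebra k K₂]
  {G : Type} [Group G]

/-- The space of the `G`-invariants in `H⁰(X, K_X) ⊗ H⁰(Y, K_Y)`, that is, of the regular
`G`-invariant two-forms on `X × Y`. -/
noncomputable def invForms (a₁ : G →* (K₁ ≃ₐ[k] K₁)) (a₂ : G →* (K₂ ≃ₐ[k] K₂)) :
    Submodule k (Ω[K₁⁄k] ⊗[k] Ω[K₂⁄k]) where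
  carrier := {w | w ∈ LinearMap.range
      (TensorProduct.map (regForms k K₁).subtype (regForms k K₂).subtype) ∧
    ∀ (g : G) (φ₁ : Ω[K₁⁄k] →ₗ[k] Ω[K₁⁄k]) (φ₂ : Ω[K₂⁄k] →ₗ[k] Ω[K₂⁄k]), IsPull (a₁ g) φ₁ →
      IsPull (a₂ g) φ₂ → TensorProduct.map φ₁ φ₂ w = w}
  add_mem' := fun {x y} hx hy => ⟨Submodule.add_mem _ hx.1 hy.1, fun g φ₁ φ₂ h₁ h₂ => by
    rw [map_add, hx.2 g φ₁ φ₂ h₁ h₂, hy.2 g φ₁ φ₂ h₁ h₂]⟩
  zero_mem' := ⟨Submodule.zero_mem _, fun _ _ _ _ _ => map_zero _⟩
  smul_mem' := fun c x hx => ⟨Submodule.smul_mem _ c hx.1, fun g φ₁ φ₂ h₁ h₂ => by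
    rw [map_smul, hx.2 g φ₁ φ₂ h₁ h₂]⟩

end inv

end Pool.Agent.H25.VN
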