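import Pool.Agent.H25.VN.N13

/-!
# The geometric genus: Frobenius reciprocity
-/

set_option autoImplicit false
set_option linter.overlappingInstances false
set_option linter.unusedSectionVars false

namespace Pool.Agent.H25.VN

open FF IntermediateField Module Pool.Agent.W603.LV Pool.Agent.W619.PQ Pool.Agent.Q70.CH
open KaehlerDifferential TensorProduct

section proj

variable {k : Type} [Field k] [CharZero k] {G : Type} [Group G] [Fintype G] {J : Type}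
  {H : J → Subgroup G} (χ : ∀ j, H j →* kˣ) {V : Type} [AddCommGroup V] [Module k V]
  (φ : G → (V →ₗ[k] V))

/-- the projection on the eigenspace, times the order of the group -/
noncomputable def prj (i : J) : V →ₗ[k] V := ∑ h : G, wt (fun j => (χ j)⁻¹) i h • φ h

variable {χ φ} (hφ : ∀ g h ω, φ (g * h) ω = φ g (φ h ω))

lemma prj_apply (i : J) (ω : V) : prj χ φ i ω = ∑ h : G, wt (fun j => (χ j)⁻¹) i h • φ h ω := by
  unfold prj
  rw [LinearMap.sum_apply]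
  rfl

include hφ in
lemma prj_mul (i : J) (u : H i) (ω : V) :
    prj χ φ i (φ (u : G) ω) = (χ i u : k) • prj χ φ i ω := by
  rw [prj_apply, prj_apply, Finset.smul_sum]
  refine Fintype.sum_equiv (Equiv.mulRight (u : G)) _ _ fun h => ?_
  have h1 := wt_mul_right (χ := fun j => (χ j)⁻¹) (j := i) u h
  simp only [MonoidHom.inv_apply] at h1
  rw [Equiv.coe_mulRight, h1, hφ, smul_smul, mul_comm (wt (fun j => (χ j)⁻¹) i h), ← mul_assoc,
    Units.mul_inv, one_mul]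

include hφ in
lemma prj_zero {i j : J} {γ : G} (hA : ¬ Agree χ i j γ) {ω : V}
    (hω : ∀ s : H j, φ (s : G) ω = (χ j s : k) • ω) : prj χ φ i (φ γ ω) = 0 := by
  unfold Agree at hA
  push Not at hA
  obtain ⟨h, h1, h2, h3⟩ := hA
  have h4 : φ h (φ γ ω) = (χ j ⟨γ⁻¹ * h * γ, h2⟩ : k) • φ γ ω := by
    have h5 : h * γ = γ * (γ⁻¹ * h * γ) := by group
    have h6 := hω ⟨γ⁻¹ * h * γ, h2⟩
    rw [← hφ, h5, hφ]
    simp only at h6
    rw [h6, map_smul]
  have h5 := prj_mul (χ := χ) hφ i ⟨h, h1⟩ (φ γ ω)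
  simp only at h5
  rw [h4, map_smul] at h5
  have h6 : ((χ j ⟨γ⁻¹ * h * γ, h2⟩ : k) - (χ i ⟨h, h1⟩ : k)) • prj χ φ i (φ γ ω) = 0 := by
    rw [sub_smul, h5, sub_self]
  refine (smul_eq_zero.1 h6).resolve_left ?_
  intro h7
  apply h3
  apply Units.ext
  exact (sub_eq_zero.1 h7).symm

lemma prj_self {i : J} {ω : V} (hω : ∀ s : H i, φ (s : G) ω = (χ i s : k) • ω) :
    prj χ φ i ω = (Nat.card (H i) : k) • ω := by
  classical
  rw [prj_apply]
  have h1 : ∀ h : G, wt (fun j => (χ j)⁻¹) i h • φ h ω = (if h ∈ H i then (1 : k) else 0) • ω := by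
    intro h
    by_cases hh : h ∈ H i
    · have h2 := hω ⟨h, hh⟩
      simp only at h2
      unfold wt
      rw [dif_pos hh, if_pos hh, h2, smul_smul, MonoidHom.inv_apply, Units.inv_mul]
    · unfold wt
      rw [dif_neg hh, if_neg hh, zero_smul, zero_smul]
  rw [Finset.sum_congr rfl fun h _ => h1 h, ← Finset.sum_smul, Finset.sum_boole]
  congr 2
  rw [Nat.card_eq_fintype_card, Fintype.card_subtype]

end proj

section indep

variable {k : Type} [Field k] [CharZero k] {G : Type} [Group G] [Fintype G] {J : Type} [Fintype J]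
  {H : J → Subgroup G} {χ : ∀ j, H j →* kˣ} {V W : Type} [AddCommGroup V] [Module k V]
  [AddCommGroup W] [Module k W] {φ : G → (V →ₗ[k] V)} {ψ : G → (W →ₗ[k] W)}

/-- the invariants given by eigenvectors are linearly independent -/
lemma indep [DecidableEq G]
    (hreg : ∀ s : G, ∑ j, indChar (χ j) 1 * indChar (χ j) s =
      if s = 1 then (Fintype.card G : k) else 0)
    (hφ : ∀ g h ω, φ (g * h) ω = φ g (φ h ω)) {c₁ c₂ : J → ℕ}
    (u : ∀ j, Fin (c₁ j) → V) (v : ∀ j, Fin (c₂ j) → W)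
    (hu : ∀ j, LinearIndependent k (u j)) (hv : ∀ j, LinearIndependent k (v j))
    (eu : ∀ j p (s : H j), φ (s : G) (u j p) = (χ j s : k) • u j p)
    (ev : ∀ j p (s : H j), ψ (s : G) (v j p) = (((χ j s)⁻¹ : kˣ) : k) • v j p) :
    LinearIndependent k fun t : (Σ j, Fin (c₁ j) × Fin (c₂ j)) =>
      ∑ g : G, φ g (u t.1 t.2.1) ⊗ₜ[k] ψ g (v t.1 t.2.2) := by
  classical
  rw [Fintype.linearIndependent_iff]
  intro l hl
  rintro ⟨i, p₀, q₀⟩
  have hT : ∀ t : (Σ j, Fin (c₁ j) × Fin (c₂ j)),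
      TensorProduct.map (prj χ φ i) LinearMap.id (∑ g : G, φ g (u t.1 t.2.1) ⊗ₜ[k] ψ g (v t.1 t.2.2)) =
        ∑ g : G, prj χ φ i (φ g (u t.1 t.2.1)) ⊗ₜ[k] ψ g (v t.1 t.2.2) := by
    intro t
    rw [map_sum]
    apply Finset.sum_congr rfl
    intro g _
    rw [TensorProduct.map_tmul, LinearMap.id_apply]
  have h0 : ∀ j, j ≠ i → ∀ p q, ∑ g : G, prj χ φ i (φ g (u j p)) ⊗ₜ[k] ψ g (v j q) = 0 := by
    intro j hj p q
    apply Finset.sum_eq_zero
    intro g _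
    rw [prj_zero hφ (mackey χ hreg (Or.inl hj)) (eu j p), TensorProduct.zero_tmul]
  have h1 : ∀ p q, ∑ g : G, prj χ φ i (φ g (u i p)) ⊗ₜ[k] ψ g (v i q) =
      ((Nat.card (H i) : k) * (Nat.card (H i) : k)) • (u i p ⊗ₜ[k] v i q) := by
    intro p q
    have h2 : ∀ g : G, prj χ φ i (φ g (u i p)) ⊗ₜ[k] ψ g (v i q) =
        (if g ∈ H i then (Nat.card (H i) : k) else 0) • (u i p ⊗ₜ[k] v i q) := by
      intro g
      by_cases hg : g ∈ H i
      · have h3 := eu i p ⟨g, hg⟩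
        have h4 := ev i q ⟨g, hg⟩
        simp only at h3 h4
        rw [if_pos hg, h3, h4, map_smul, prj_self (eu i p), TensorProduct.smul_tmul_smul,
          Units.mul_inv, one_smul, TensorProduct.smul_tmul']
      · rw [if_neg hg, zero_smul, prj_zero hφ (mackey χ hreg (Or.inr hg)) (eu i p),
          TensorProduct.zero_tmul]
    rw [Finset.sum_congr rfl fun g _ => h2 g, ← Finset.sum_smul]
    congr 1
    rw [← Finset.sum_filter, Finset.sum_const, nsmul_eq_mul]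
    congr 2
    rw [Nat.card_eq_fintype_card, Fintype.card_subtype]
  have h2 := congrArg (TensorProduct.map (prj χ φ i) (LinearMap.id : W →ₗ[k] W)) hl
  rw [map_zero, map_sum] at h2
  simp only [map_smul, hT] at h2
  rw [Fintype.sum_sigma, Finset.sum_eq_single i] at h2
  · simp only [h1] at h2
    have h3 : ∑ r : Fin (c₁ i) × Fin (c₂ i), (l ⟨i, r⟩ * ((Nat.card (H i) : k) *
        (Nat.card (H i) : k))) • (u i r.1 ⊗ₜ[k] v i r.2) = 0 := by
      rw [← h2]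
      apply Finset.sum_congr rfl
      intro r _
      rw [smul_smul]
    have h4 := Fintype.linearIndependent_iff.1 ((hu i).tmul_of_isDomain (hv i)) _ h3 (p₀, q₀)
    have h5 : (Nat.card (H i) : k) ≠ 0 := by exact_mod_cast Nat.card_pos.ne'
    exact (mul_eq_zero.1 h4).resolve_right (mul_ne_zero h5 h5)
  · intro j _ hj
    apply Finset.sum_eq_zero
    intro r _
    rw [h0 j hj, smul_zero]
  · intro h
    exact absurd (Finset.mem_univ _) h

end indep

section genus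

variable {k : Type} [Field k] [CharZero k] [IsAlgClosed k] {K₁ K₂ : Type} [Field K₁] [Algebra k K₁]
  [IsFF k K₁] [Field K₂] [Algebra k K₂] [IsFF k K₂] {G : Type} [Group G] [Fintype G]
  {a₁ : G →* (K₁ ≃ₐ[k] K₁)} {a₂ : G →* (K₂ ≃ₐ[k] K₂)} {J : Type} [Fintype J]
  {H : J → Subgroup G} {χ : ∀ j, H j →* kˣ}

lemma mem_invForms {w : Ω[K₁⁄k] ⊗[k] Ω[K₂⁄k]} (h1 : w ∈ LinearMap.range
      (TensorProduct.map (regForms k K₁).subtype (regForms k K₂).subtype))
    (h2 : ∀ (g : G) (φ₁ : Ω[K₁⁄k] →ₗ[k] Ω[K₁⁄k]) (φ₂ : Ω[K₂⁄k] →ₗ[k] Ω[K₂⁄k]), IsPull (a₁ g) φ₁ →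
      IsPull (a₂ g) φ₂ → TensorProduct.map φ₁ φ₂ w = w) : w ∈ invForms a₁ a₂ := ⟨h1, h2⟩

lemma sum_mulLeft {M : Type} [AddCommMonoid M] (g : G) (F : G → M) :
    ∑ h : G, F (g * h) = ∑ h : G, F h :=
  Fintype.sum_equiv (Equiv.mulLeft g) _ _ fun _ => rfl

theorem genus_bound [DecidableEq G]
    (hreg : ∀ s : G, ∑ j, indChar (χ j) 1 * indChar (χ j) s =
      if s = 1 then (Fintype.card G : k) else 0) {c₁ c₂ : J → ℕ}
    (h₁ : ∀ j, (c₁ j : Cardinal) ≤ Module.rank k (Eigenforms (a₁.comp (H j).subtype) (χ j)))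
    (h₂ : ∀ j, (c₂ j : Cardinal) ≤ Module.rank k (Eigenforms (a₂.comp (H j).subtype) (χ j)⁻¹)) :
    ((∑ j, c₁ j * c₂ j : ℕ) : Cardinal) ≤ Module.rank k (invForms a₁ a₂) := by
  classical
  obtain ⟨φ, hφ1, hφ2⟩ := exists_action a₁
  obtain ⟨ψ, hψ1, hψ2⟩ := exists_action a₂
  have e₁ := fun j => Module.le_rank_iff.1 (h₁ j)
  have e₂ := fun j => Module.le_rank_iff.1 (h₂ j)
  choose u hu using e₁
  choose v hv using e₂
  have hu' : ∀ j, LinearIndependent k (fun p => (u j p : Ω[K₁⁄k])) := fun j =>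
    (hu j).map' (Submodule.subtype _) (Submodule.ker_subtype _)
  have hv' : ∀ j, LinearIndependent k (fun p => (v j p : Ω[K₂⁄k])) := fun j =>
    (hv j).map' (Submodule.subtype _) (Submodule.ker_subtype _)
  have eu : ∀ j (p : Fin (c₁ j)) (s : H j),
      φ (s : G) (u j p : Ω[K₁⁄k]) = (χ j s : k) • (u j p : Ω[K₁⁄k]) := fun j p s =>
    pull_eigen (a := a₁.comp (H j).subtype) (s := s) (hφ1 s) (u j p).2
  have ev : ∀ j (p : Fin (c₂ j)) (s : H j),
      ψ (s : G) (v j p : Ω[K₂⁄k]) = (((χ j s)⁻¹ : kˣ) : k) • (v j p : Ω[K₂⁄k]) := fun j p s => by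
    have h3 := pull_eigen (a := a₂.comp (H j).subtype) (s := s) (hψ1 s) (v j p).2
    rw [MonoidHom.inv_apply] at h3
    exact h3
  have hI : LinearIndependent k fun t : (Σ j, Fin (c₁ j) × Fin (c₂ j)) =>
      ∑ g : G, φ g (u t.1 t.2.1 : Ω[K₁⁄k]) ⊗ₜ[k] ψ g (v t.1 t.2.2 : Ω[K₂⁄k]) := by
    exact indep (χ := χ) (V := Ω[K₁⁄k]) (W := Ω[K₂⁄k]) (φ := φ) (ψ := ψ) hreg hφ2
      (fun j p => (u j p : Ω[K₁⁄k])) (fun j p => (v j p : Ω[K₂⁄k])) hu' hv' eu ev
  have hmem : ∀ t : (Σ j, Fin (c₁ j) × Fin (c₂ j)),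
      ∑ g : G, φ g (u t.1 t.2.1 : Ω[K₁⁄k]) ⊗ₜ[k] ψ g (v t.1 t.2.2 : Ω[K₂⁄k]) ∈
        invForms a₁ a₂ := by
    intro t
    apply mem_invForms
    · apply Submodule.sum_mem
      intro g _
      have r1 : φ g (u t.1 t.2.1 : Ω[K₁⁄k]) ∈ regForms k K₁ :=
        pull_regular (hφ1 g) (eigen_regular _ _ (u t.1 t.2.1).2)
      have r2 : ψ g (v t.1 t.2.2 : Ω[K₂⁄k]) ∈ regForms k K₂ :=
        pull_regular (hψ1 g) (eigen_regular _ _ (v t.1 t.2.2).2)
      exact ⟨(⟨_, r1⟩ : regForms k K₁) ⊗ₜ[k] (⟨_, r2⟩ : regForms k K₂), by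
        rw [TensorProduct.map_tmul]; rfl⟩
    · intro g φ₁ φ₂ hp₁ hp₂
      rw [pull_unique hp₁ (hφ1 g), pull_unique hp₂ (hψ1 g), map_sum]
      rw [← sum_mulLeft g (fun h : G => φ h (u t.1 t.2.1 : Ω[K₁⁄k]) ⊗ₜ[k]
        ψ h (v t.1 t.2.2 : Ω[K₂⁄k]))]
      apply Finset.sum_congr rfl
      intro h _
      rw [TensorProduct.map_tmul, hφ2, hψ2]
  have hI' : LinearIndependent k fun t : (Σ j, Fin (c₁ j) × Fin (c₂ j)) =>
      (⟨_, hmem t⟩ : invForms a₁ a₂) := by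
    apply LinearIndependent.of_comp (Submodule.subtype _)
    exact hI
  have h3 := hI'.cardinal_le_rank
  refine le_trans (le_of_eq ?_) h3
  rw [Cardinal.mk_fintype, Fintype.card_sigma]
  simp

end genus

end Pool.Agent.H25.VN
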