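import Pool.Agent.H25.VN.N14

/-!
# The geometric genus of a product quotient surface
-/

set_option autoImplicit false
set_option linter.overlappingInstances false
set_option linter.unusedSectionVars false

namespace Pool.Agent.H25.VN

open FF IntermediateField Module Pool.Agent.W603.LV Pool.Agent.W619.PQ Pool.Agent.Q70.CH
open KaehlerDifferential TensorProduct
open Pool.Agent.H25.VO (RegularAt)

section defs

variable (k K₁ K₂ : Type) [Field k] [Field K₁] [Algebra k K₁] [Field K₂] [Algebra k K₂]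

/-- The tensor product over `k` of the spaces of the rational differentials of the function fields
`K₁` and `K₂` of `X` and `Y`: two-forms on `X × Y`. -/
def TwoForms : Type := Ω[K₁⁄k] ⊗[k] Ω[K₂⁄k]

noncomputable instance : AddCommGroup (TwoForms k K₁ K₂) :=
  inferInstanceAs (AddCommGroup (Ω[K₁⁄k] ⊗[k] Ω[K₂⁄k]))

noncomputable instance : Module k (TwoForms k K₁ K₂) :=
  inferInstanceAs (Module k (Ω[K₁⁄k] ⊗[k] Ω[K₂⁄k]))

variable {k K₁ K₂}

/-- the two-form `ω ⊗ η` -/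
noncomputable def prodForm (ω : Ω[K₁⁄k]) (η : Ω[K₂⁄k]) : TwoForms k K₁ K₂ := ω ⊗ₜ[k] η

variable (k) in
/-- the differential `f dx` -/
noncomputable def fdx {K : Type} [Field K] [Algebra k K] (f x : K) : Ω[K⁄k] := f • D k K x

/-- The `k`-linear map `Φ` is the pull-back of two-forms by the automorphisms `σ` and `τ`:
`Φ (f dx ⊗ g dy) = σ(f) d(σ x) ⊗ τ(g) d(τ y)`. -/
def IsPull₂ (σ : K₁ ≃ₐ[k] K₁) (τ : K₂ ≃ₐ[k] K₂)
    (Φ : TwoForms k K₁ K₂ →ₗ[k] TwoForms k K₁ K₂) : Prop :=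
  ∀ f x g y, Φ (prodForm (fdx k f x) (fdx k g y)) = prodForm (fdx k (σ f) (σ x)) (fdx k (τ g) (τ y))

variable (k K₁ K₂) in
/-- The space `H⁰(X, K_X) ⊗ H⁰(Y, K_Y)` of the regular two-forms on `X × Y`. -/
noncomputable def regTwoForms : Submodule k (TwoForms k K₁ K₂) :=
  Submodule.span k {w | ∃ ω η, (∀ P : Place k K₁, RegularAt P ω) ∧
    (∀ P : Place k K₂, RegularAt P η) ∧ w = prodForm ω η}

/-- `w` is a regular two-form on `X × Y` which is invariant under `G`. -/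
def IsInvariant {G : Type} [Group G] (a₁ : G →* (K₁ ≃ₐ[k] K₁)) (a₂ : G →* (K₂ ≃ₐ[k] K₂))
    (w : TwoForms k K₁ K₂) : Prop :=
  w ∈ regTwoForms k K₁ K₂ ∧ ∀ g Φ, IsPull₂ (a₁ g) (a₂ g) Φ → Φ w = w

end defs

section genus

variable {k : Type} [Field k] [CharZero k] [IsAlgClosed k] {K₁ K₂ : Type} [Field K₁] [Algebra k K₁]
  [IsFF k K₁] [Field K₂] [Algebra k K₂] [IsFF k K₂]

lemma reg_tmul {ω : Ω[K₁⁄k]} {η : Ω[K₂⁄k]} (hω : ω ∈ regForms k K₁) (hη : η ∈ regForms k K₂) :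
    prodForm ω η ∈ regTwoForms k K₁ K₂ := by
  unfold regForms at hω hη
  induction hω using Submodule.span_induction with
  | mem ω hω =>
    induction hη using Submodule.span_induction with
    | mem η hη => exact Submodule.subset_span ⟨ω, η, hω, hη, rfl⟩
    | zero =>
      have : prodForm ω (0 : Ω[K₂⁄k]) = 0 := TensorProduct.tmul_zero _ _
      rw [this]; exact Submodule.zero_mem _
    | add x y _ _ hx hy =>
      have : prodForm ω (x + y) = prodForm ω x + prodForm ω y := TensorProduct.tmul_add _ _ _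
      rw [this]; exact Submodule.add_mem _ hx hy
    | smul c x _ hx =>
      have : prodForm ω (c • x) = c • prodForm ω x := TensorProduct.tmul_smul _ _ _
      rw [this]; exact Submodule.smul_mem _ _ hx
  | zero =>
    have : prodForm (0 : Ω[K₁⁄k]) η = 0 := TensorProduct.zero_tmul _ _
    rw [this]; exact Submodule.zero_mem _
  | add x y _ _ hx hy =>
    have : prodForm (x + y) η = prodForm x η + prodForm y η := TensorProduct.add_tmul _ _ _
    rw [this]; exact Submodule.add_mem _ hx hy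
  | smul c x _ hx =>
    have : prodForm (c • x) η = c • prodForm x η := rfl
    rw [this]; exact Submodule.smul_mem _ _ hx

lemma pull₂_apply {σ : K₁ ≃ₐ[k] K₁} {τ : K₂ ≃ₐ[k] K₂}
    {Φ : TwoForms k K₁ K₂ →ₗ[k] TwoForms k K₁ K₂} (hΦ : IsPull₂ σ τ Φ)
    {φ : Ω[K₁⁄k] →ₗ[k] Ω[K₁⁄k]} {ψ : Ω[K₂⁄k] →ₗ[k] Ω[K₂⁄k]} (hφ : IsPull σ φ) (hψ : IsPull τ ψ)
    (ω : Ω[K₁⁄k]) (η : Ω[K₂⁄k]) : Φ (prodForm ω η) = prodForm (φ ω) (ψ η) := by
  obtain ⟨x₀, hx₀⟩ := IsFF.exists_transcendental (k := k) (K := K₁)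
  obtain ⟨y₀, hy₀⟩ := IsFF.exists_transcendental (k := k) (K := K₂)
  obtain ⟨c, rfl⟩ := exists_coef hx₀ ω
  obtain ⟨c', rfl⟩ := exists_coef hy₀ η
  rw [hφ, hψ]
  exact hΦ c x₀ c' y₀

variable {G : Type} [Group G] [Fintype G] {a₁ : G →* (K₁ ≃ₐ[k] K₁)} {a₂ : G →* (K₂ ≃ₐ[k] K₂)}
  {J : Type} [Fintype J] {H : J → Subgroup G} {χ : ∀ j, H j →* kˣ}

theorem genus_bound' [DecidableEq G]
    (hreg : ∀ s : G, ∑ j, indChar (χ j) 1 * indChar (χ j) s =
      if s = 1 then (Fintype.card G : k) else 0) {c₁ c₂ : J → ℕ}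
    (h₁ : ∀ j, (c₁ j : Cardinal) ≤ Module.rank k (Eigenforms (a₁.comp (H j).subtype) (χ j)))
    (h₂ : ∀ j, (c₂ j : Cardinal) ≤ Module.rank k (Eigenforms (a₂.comp (H j).subtype) (χ j)⁻¹)) :
    ((∑ j, c₁ j * c₂ j : ℕ) : Cardinal) ≤
      Module.rank k (Submodule.span k {w | IsInvariant a₁ a₂ w}) := by
  classical
  obtain ⟨φ, hφ1, hφ2⟩ := exists_action a₁
  obtain ⟨ψ, hψ1, hψ2⟩ := exists_action a₂
  have e₁ := fun j => Module.le_rank_iff.1 (h₁ j)
  have e₂ := fun j => Module.le_rank_iff.1 (h₂ j)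
  choose u hu using e₁
  choose v hv using e₂
  have hu' : ∀ j, LinearIndependent k (fun p => (u j p : Ω[K₁⁄k])) := fun j =>
    (hu j).map' (Submodule.subtype _) (Submodule.ker_subtype _)
  have hv' : ∀ j, LinearIndependent k (fun p => (v j p : Ω[K₂⁄k])) := fun j =>
    (hv j).map' (Submodule.subtype _) (Submodule.ker_subtype _)
  have eu : ∀ j (p : Fin (c₁ j)) (s : H j),
      φ (s : G) (u j p : Ω[K₁⁄k]) = (χ j s : k) • (u j p : Ω[K₁⁄k]) := fun j p s =>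
    pull_eigen (a := a₁.comp (H j).subtype) (s := s) (hφ1 s) (u j p).2
  have ev : ∀ j (p : Fin (c₂ j)) (s : H j),
      ψ (s : G) (v j p : Ω[K₂⁄k]) = (((χ j s)⁻¹ : kˣ) : k) • (v j p : Ω[K₂⁄k]) := fun j p s => by
    have h3 := pull_eigen (a := a₂.comp (H j).subtype) (s := s) (hψ1 s) (v j p).2
    rw [MonoidHom.inv_apply] at h3
    exact h3
  have hI : LinearIndependent k fun t : (Σ j, Fin (c₁ j) × Fin (c₂ j)) =>
      ∑ g : G, φ g (u t.1 t.2.1 : Ω[K₁⁄k]) ⊗ₜ[k] ψ g (v t.1 t.2.2 : Ω[K₂⁄k]) := by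
    exact indep (χ := χ) (V := Ω[K₁⁄k]) (W := Ω[K₂⁄k]) (φ := φ) (ψ := ψ) hreg hφ2
      (fun j p => (u j p : Ω[K₁⁄k])) (fun j p => (v j p : Ω[K₂⁄k])) hu' hv' eu ev
  have hI₂ : LinearIndependent k fun t : (Σ j, Fin (c₁ j) × Fin (c₂ j)) =>
      (∑ g : G, prodForm (φ g (u t.1 t.2.1 : Ω[K₁⁄k])) (ψ g (v t.1 t.2.2 : Ω[K₂⁄k])) :
        TwoForms k K₁ K₂) := hI
  have hmem : ∀ t : (Σ j, Fin (c₁ j) × Fin (c₂ j)),
      (∑ g : G, prodForm (φ g (u t.1 t.2.1 : Ω[K₁⁄k])) (ψ g (v t.1 t.2.2 : Ω[K₂⁄k])) :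
        TwoForms k K₁ K₂) ∈ Submodule.span k {w | IsInvariant a₁ a₂ w} := by
    intro t
    apply Submodule.subset_span
    refine ⟨Submodule.sum_mem _ fun g _ => ?_, ?_⟩
    · exact reg_tmul (pull_regular (hφ1 g) (eigen_regular _ _ (u t.1 t.2.1).2))
        (pull_regular (hψ1 g) (eigen_regular _ _ (v t.1 t.2.2).2))
    · intro g Φ hΦ
      rw [map_sum, ← sum_mulLeft g (fun h : G => (prodForm (φ h (u t.1 t.2.1 : Ω[K₁⁄k]))
        (ψ h (v t.1 t.2.2 : Ω[K₂⁄k])) : TwoForms k K₁ K₂))]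
      apply Finset.sum_congr rfl
      intro h _
      rw [pull₂_apply hΦ (hφ1 g) (hψ1 g), hφ2, hψ2]
  have hI' : LinearIndependent k fun t : (Σ j, Fin (c₁ j) × Fin (c₂ j)) =>
      (⟨_, hmem t⟩ : Submodule.span k {w | IsInvariant a₁ a₂ w}) := by
    apply LinearIndependent.of_comp (Submodule.subtype _)
    exact hI₂
  have h3 := hI'.cardinal_le_rank
  refine le_trans (le_of_eq ?_) h3
  rw [Cardinal.mk_fintype, Fintype.card_sigma]
  simp

end genus

end Pool.Agent.H25.VN
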