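import Pool.Agent.H25.VN.SDefs

/-!
# Symmetric invariant cycles on the square of a curve
-/

set_option autoImplicit false
set_option linter.overlappingInstances false
set_option linter.unusedSectionVars false

namespace Pool.Agent.H25.VN

open FF Pool.Agent.Q70.CH Equiv TensorProduct
open Pool.Agent.H25.VO hiding act act_ord act_one act_mul vl_act IsQuot over_act exists_act dvd_of_trivial test_curve vanish_fixed vanish_branch vanish_aux vanish_ramified vanish_trivial Eigenforms exists_pr rank_eigenforms Van Paired paired_number trivial_number one_var block Eig tw tw_tw tw_isMap act_mor sum_coord cf cf_mul_left cf_mul_right PhiK phiK_eig sum_cf sum_phiK prod_mulSingle rep rep_isMap voisin_core voisin_quotient act₂ orb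

section core

variable {k : Type} [Field k] [CharZero k] {K : Type} [Field K] [Algebra k K] {G : Type} [Group G]
  [Fintype G] {n : ℕ} {a : G →* (K ≃ₐ[k] K)}

/-- exchange of the two coordinates in the factors with index in `T` -/
def sw (T : Finset (Fin n)) (v : Fin n → Place k K × Place k K) :
    Fin n → Place k K × Place k K :=
  fun i => if i ∈ T then (v i).swap else v i

lemma sw_isMap (T : Finset (Fin n)) : IsMap (PP k K K n) (PP k K K n) (sw T) := by
  intro B _ _ _ s hs i
  by_cases hi : i ∈ T
  · simp only [sw, if_pos hi]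
    exact ⟨(hs i).2, (hs i).1⟩
  · simp only [sw, if_neg hi]
    exact hs i

lemma sw_update_mem {T : Finset (Fin n)} {i : Fin n} (hi : i ∈ T)
    (v : Fin n → Place k K × Place k K) (x : Place k K × Place k K) :
    sw T (Function.update v i x) = Function.update (sw T v) i x.swap := by
  ext1 j
  by_cases hj : j = i
  · subst hj
    rw [Function.update_self]
    simp only [sw, if_pos hi, Function.update_self]
  · rw [Function.update_of_ne hj]
    simp only [sw, Function.update_of_ne hj]

lemma sw_update_notMem {T : Finset (Fin n)} {i : Fin n} (hi : i ∉ T)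
    (v : Fin n → Place k K × Place k K) (x : Place k K × Place k K) :
    sw T (Function.update v i x) = Function.update (sw T v) i x := by
  ext1 j
  by_cases hj : j = i
  · subst hj
    rw [Function.update_self]
    simp only [sw, if_neg hi, Function.update_self]
  · rw [Function.update_of_ne hj]
    simp only [sw, Function.update_of_ne hj]

lemma sw_mem {T : Finset (Fin n)} {i : Fin n} (hi : i ∈ T) (v : Fin n → Place k K × Place k K) :
    sw T v i = (v i).swap := if_pos hi

lemma sw_notMem {T : Finset (Fin n)} {i : Fin n} (hi : i ∉ T)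
    (v : Fin n → Place k K × Place k K) : sw T v i = v i := if_neg hi

/-- the block of an index -/
def blk {R : Type} : R ⊕ R ⊕ Unit → R ⊕ Unit
  | Sum.inl r => Sum.inl r
  | Sum.inr (Sum.inl r) => Sum.inl r
  | Sum.inr (Sum.inr _) => Sum.inr ()

open Classical in
/-- the positions at which the factors are exchanged -/
noncomputable def neg {R : Type} (L : Fin n → R ⊕ R ⊕ Unit) : Finset (Fin n) :=
  Finset.univ.filter fun i => ∃ r, L i = Sum.inr (Sum.inl r)

lemma mem_neg {R : Type} {L : Fin n → R ⊕ R ⊕ Unit} {i : Fin n} :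
    i ∈ neg L ↔ ∃ r, L i = Sum.inr (Sum.inl r) := by
  simp [neg]

/-- **Main theorem** for invariant Albanese-trivial cycles on the product of two curves. -/
theorem core_sym [IsAlgClosed k] [IsFF k K] {R : Type} [Fintype R] [DecidableEq G]
    {H : R → Subgroup G} (χ : ∀ r, H r →* kˣ) (hne : ∀ r, χ r ≠ 1) (c : R ⊕ R ⊕ Unit → k) {N : k}
    (hN : N ≠ 0)
    (hc : ∀ s : G, ∑ j, ∑ γ : G, c j * wt (SymChar χ) j (γ⁻¹ * s * γ) = if s = 1 then N else 0)
    (p : Place k K) {c₁ c₂ : R → ℕ}
    (V1 : ∀ r, VanT (rules (a.comp (H r).subtype) (χ r)) (zeros a (χ r) p) (c₁ r))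
    (V2 : ∀ r, VanT (rules (a.comp (H r).subtype) (χ r)⁻¹) (zeros a (χ r)⁻¹ p) (c₂ r))
    (V0 : VanT (rules (a.comp (⊤ : Subgroup G).subtype) 1) (zeros a (1 : (⊤ : Subgroup G) →* kˣ) p) 0)
    (hn : ∑ r, c₁ r * c₂ r < n) (w : Fin n → (Place k K × Place k K) →₀ ℚ)
    (hinv : ∀ i g, (w i).mapDomain (fun p => (act a g p.1, act a g p.2)) = w i)
    (hsw : ∀ i, (w i).mapDomain Prod.swap = w i)
    (h1 : ∀ i, (w i).mapDomain Prod.fst ∈ TC k K) (h2 : ∀ i, (w i).mapDomain Prod.snd ∈ TC k K) :
    ∑ σ : Perm (Fin n), ((Perm.sign σ : ℤ) : ℚ) • cross (fun i => w (σ i)) ∈ TT k K K n := by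
  classical
  -- the universal functional
  let M := ((Fin n → Place k K × Place k K) →₀ ℚ) ⧸ TT k K K n
  let Φ₀ : (Fin n → Place k K × Place k K) → k ⊗[ℚ] M := fun v =>
    (1 : k) ⊗ₜ[ℚ] (TT k K K n).mkQ (Finsupp.single v 1)
  have hΦ₀ : KillsF (PP k K K n) Φ₀ := by
    intro B _ _ _ s hs t ht
    have h3 := killsF_mkQ (X := PP k K K n) B s hs t ht
    have h4 : ((divisor k t).sum fun Q m => m • Φ₀ (s Q)) =
        (1 : k) ⊗ₜ[ℚ] ((divisor k t).sum fun Q m => m • (TT k K K n).mkQ
          (Finsupp.single (s Q) 1)) := by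
      unfold Finsupp.sum
      rw [TensorProduct.tmul_sum]
      apply Finset.sum_congr rfl
      intro Q _
      exact (map_zsmul (TensorProduct.mk ℚ k M 1) _ _).symm
    have h5 : ((divisor k t).sum fun Q m => m • (TT k K K n).mkQ
          (Finsupp.single (s Q) 1)) = 0 := h3
    rw [h4, h5, TensorProduct.tmul_zero]
  have hlc₀ : ∀ z, Finsupp.linearCombination ℚ Φ₀ z = (1 : k) ⊗ₜ[ℚ] (TT k K K n).mkQ z := by
    intro z
    have h3 : Finsupp.linearCombination ℚ Φ₀ =
        (TensorProduct.mk ℚ k M 1) ∘ₗ (TT k K K n).mkQ := by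
      apply Finsupp.lhom_ext'
      intro v
      apply LinearMap.ext_ring
      rw [LinearMap.comp_apply, LinearMap.comp_apply, Finsupp.lsingle_apply,
        Finsupp.linearCombination_single, one_smul]
      rfl
    rw [h3]; rfl
  -- normalization
  obtain ⟨Φ, ⟨hK, hPr⟩, hnorm⟩ := exists_normal (W := k ⊗[ℚ] M) (rep (n := n) a a p p)
    (by
      rintro ⟨i, b⟩ s t v
      cases b <;> simp [rep])
    (by
      rintro ⟨i, b⟩ ⟨j, b'⟩ s t v hne
      by_cases hij : i = j
      · subst hij
        cases b <;> cases b' <;> simp [rep] at hne ⊢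
      · cases b <;> cases b' <;>
          simp [rep, Function.update_of_ne hij, Function.update_of_ne (Ne.symm hij),
            Function.update_comm hij])
    (fun Φ => KillsF (PP k K K n) Φ ∧
      ∀ b : Fin n → (Place k K × Place k K) →₀ ℚ, (∀ i, (b i).mapDomain Prod.fst ∈ TC k K) →
      (∀ i, (b i).mapDomain Prod.snd ∈ TC k K) →
      Finsupp.linearCombination ℚ Φ (cross b) = Finsupp.linearCombination ℚ Φ₀ (cross b))
    (by
      rintro Φ σ ⟨hK, hPr⟩
      refine ⟨hK.sub (KillsF.smul _ (KillsF.sum _ fun g _ => hK.comp (rep_isMap p p σ g))), ?_⟩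
      intro b ha1 ha2
      rw [lc_sub, lc_smul, lc_sum, hPr b ha1 ha2]
      have h3 : ∀ g : G, Finsupp.linearCombination ℚ
          (fun v => Φ (rep a a p p σ g v)) (cross b) = 0 := by
        intro g
        rw [lc_comp Φ (rep a a p p σ g)]
        apply hK.ev
        obtain ⟨i, b'⟩ := σ
        cases b' with
        | true => exact e1_cross (act a g p) i b (ha2 i)
        | false => exact e2_cross (act a g p) i b (ha1 i)
      rw [Finset.sum_congr rfl fun g _ => h3 g, Finset.sum_const_zero, smul_zero, sub_zero])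
    Φ₀ ⟨hΦ₀, fun _ _ _ => rfl⟩
  have hn1 : ∀ (v : Fin n → Place k K × Place k K) i,
      ∑ g : G, Φ (Function.update v i (act a g p, (v i).2)) = 0 := fun v i => hnorm (i, true) v
  have hn2 : ∀ (v : Fin n → Place k K × Place k K) i,
      ∑ g : G, Φ (Function.update v i ((v i).1, act a g p)) = 0 := fun v i => hnorm (i, false) v
  -- averaging
  let Φ' : (Fin n → Place k K × Place k K) → k ⊗[ℚ] M := fun v =>
    ∑ g : Fin n → G, Φ (tw a a g g v)
  have hK' : KillsF (PP k K K n) Φ' := KillsF.sum _ fun g _ => hK.comp (tw_isMap g g)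
  have hI' : ∀ g v, Φ' (tw a a g g v) = Φ' v := by
    intro g v
    refine Fintype.sum_equiv (Equiv.mulLeft g) _ _ fun h => ?_
    rw [Equiv.coe_mulLeft, tw_tw]
  have hn1' : ∀ (v : Fin n → Place k K × Place k K) i,
      ∑ g : G, Φ' (Function.update v i (act a g p, (v i).2)) = 0 := by
    intro v i
    change ∑ g : G, ∑ h : Fin n → G, Φ (tw a a h h (Function.update v i
      (act a g p, (v i).2))) = 0
    rw [Finset.sum_comm]
    apply Finset.sum_eq_zero
    intro h _
    have h3 : ∀ g : G, tw a a h h (Function.update v i (act a g p, (v i).2)) =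
        Function.update (tw a a h h v) i (act a (g * h i) p, (tw a a h h v i).2) := by
      intro g
      ext1 j
      by_cases hj : j = i
      · subst hj
        rw [Function.update_self]
        simp only [tw, Function.update_self, act_mul]
      · rw [Function.update_of_ne hj]
        simp only [tw, Function.update_of_ne hj]
    rw [← hn1 (tw a a h h v) i]
    refine Fintype.sum_equiv (Equiv.mulRight (h i)) _ _ fun g => ?_
    rw [Equiv.coe_mulRight, h3]
  have hn2' : ∀ (v : Fin n → Place k K × Place k K) i,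
      ∑ g : G, Φ' (Function.update v i ((v i).1, act a g p)) = 0 := by
    intro v i
    change ∑ g : G, ∑ h : Fin n → G, Φ (tw a a h h (Function.update v i
      ((v i).1, act a g p))) = 0
    rw [Finset.sum_comm]
    apply Finset.sum_eq_zero
    intro h _
    have h3 : ∀ g : G, tw a a h h (Function.update v i ((v i).1, act a g p)) =
        Function.update (tw a a h h v) i ((tw a a h h v i).1, act a (g * h i) p) := by
      intro g
      ext1 j
      by_cases hj : j = i
      · subst hj
        rw [Function.update_self]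
        simp only [tw, Function.update_self, act_mul]
      · rw [Function.update_of_ne hj]
        simp only [tw, Function.update_of_ne hj]
    rw [← hn2 (tw a a h h v) i]
    refine Fintype.sum_equiv (Equiv.mulRight (h i)) _ _ fun g => ?_
    rw [Equiv.coe_mulRight, h3]
  have hT : ∀ (Θ : (Fin n → Place k K × Place k K) → k ⊗[ℚ] M) (σ : Perm (Fin n))
      (g : Fin n → G), Finsupp.linearCombination ℚ (fun v => Θ (tw a a g g v))
        (cross fun i => w (σ i)) = Finsupp.linearCombination ℚ Θ (cross fun i => w (σ i)) := by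
    intro Θ σ g
    rw [lc_comp Θ (tw a a g g)]
    congr 1
    have h5 := cross_map (fun i => w (σ i)) (fun i p => (act a (g i) p.1, act a (g i) p.2))
    simp only [hinv] at h5
    exact h5
  have hS : ∀ (Θ : (Fin n → Place k K × Place k K) → k ⊗[ℚ] M) (σ : Perm (Fin n))
      (T : Finset (Fin n)), Finsupp.linearCombination ℚ (fun v => Θ (sw T v))
        (cross fun i => w (σ i)) = Finsupp.linearCombination ℚ Θ (cross fun i => w (σ i)) := by
    intro Θ σ T
    rw [lc_comp Θ (sw T)]
    congr 1
    have h5 := cross_map (fun i => w (σ i)) (fun i => if i ∈ T then Prod.swap else id)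
    have h6 : (fun v : Fin n → Place k K × Place k K => fun i =>
        (if i ∈ T then Prod.swap else id : Place k K × Place k K → Place k K × Place k K) (v i)) =
        sw T := by
      ext1 v
      ext1 i
      by_cases hi : i ∈ T
      · simp only [sw, if_pos hi]
      · simp only [sw, if_neg hi, id]
    have h7 : (fun i => Finsupp.mapDomain
        (if i ∈ T then Prod.swap else id : Place k K × Place k K → Place k K × Place k K)
        (w (σ i))) = fun i => w (σ i) := by
      ext1 i
      by_cases hi : i ∈ T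
      · rw [if_pos hi, hsw]
      · rw [if_neg hi, Finsupp.mapDomain_id]
    rw [h6, h7] at h5
    exact h5
  -- antisymmetrization
  let Θ : (Fin n → R ⊕ R ⊕ Unit) → (Fin n → Place k K × Place k K) → k ⊗[ℚ] M := fun L v =>
    Psi (SymChar χ) a a Φ' L (sw (neg L) v)
  have hΘK : ∀ L, KillsF (PP k K K n) (Θ L) := fun L => (psi_kills hK' L).comp (sw_isMap (neg L))
  have hneg : ∀ (L : Fin n → R ⊕ R ⊕ Unit) i r, L i = Sum.inr (Sum.inl r) → i ∈ neg L :=
    fun L i r h => mem_neg.2 ⟨r, h⟩
  have hpos : ∀ (L : Fin n → R ⊕ R ⊕ Unit) i r, L i = Sum.inl r → i ∉ neg L := by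
    intro L i r h hi
    obtain ⟨r', hr'⟩ := mem_neg.1 hi
    rw [h] at hr'
    exact absurd hr' (by simp)
  have hpos' : ∀ (L : Fin n → R ⊕ R ⊕ Unit) i, L i = Sum.inr (Sum.inr ()) → i ∉ neg L := by
    intro L i h hi
    obtain ⟨r', hr'⟩ := mem_neg.1 hi
    rw [h] at hr'
    exact absurd hr' (by simp)
  have pe1 : ∀ (L : Fin n → R ⊕ R ⊕ Unit) (i : Fin n) (u : G) (hu : u ∈ SymH H (L i)) v,
      Psi (SymChar χ) a a Φ' L (Function.update v i (act a u (v i).1, (v i).2)) =
      (((SymChar χ (L i) ⟨u, hu⟩)⁻¹ : kˣ) : k) • Psi (SymChar χ) a a Φ' L v :=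
    fun L i u hu v => psi_e1 L i ⟨u, hu⟩ v
  have pe2 : ∀ (L : Fin n → R ⊕ R ⊕ Unit) (i : Fin n) (u : G) (hu : u ∈ SymH H (L i)) v,
      Psi (SymChar χ) a a Φ' L (Function.update v i ((v i).1, act a u (v i).2)) =
      ((SymChar χ (L i) ⟨u, hu⟩ : kˣ) : k) • Psi (SymChar χ) a a Φ' L v :=
    fun L i u hu v => psi_e2 hI' L i ⟨u, hu⟩ v
  -- the transformation rules
  have key1 : ∀ (L : Fin n → R ⊕ R ⊕ Unit) (i : Fin n) (r : R), blk (L i) = Sum.inl r →
      ∀ (u : H r) v, Θ L (Function.update v i (act a (u : G) (v i).1, (v i).2)) =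
        (((χ r u)⁻¹ : kˣ) : k) • Θ L v := by
    intro L i r hr u v
    rcases hL : L i with r' | r' | x
    · rw [hL] at hr
      obtain rfl : r' = r := by simpa [blk] using hr
      have hi := hpos L i r' hL
      change Psi (SymChar χ) a a Φ' L (sw (neg L) _) = _ • Psi (SymChar χ) a a Φ' L (sw (neg L) v)
      rw [sw_update_notMem hi, ← sw_notMem hi v]
      have hu : (u : G) ∈ SymH H (L i) := by rw [hL]; exact u.2
      have h3 := pe1 L i u hu (sw (neg L) v)
      have h4 : SymChar χ (L i) ⟨u, hu⟩ = χ r' u := by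
        have : ∀ (j : R ⊕ R ⊕ Unit) (hj : j = Sum.inl r') (hu : (u : G) ∈ SymH H j),
            SymChar χ j ⟨u, hu⟩ = χ r' u := by
          rintro j rfl hu; rfl
        exact this _ hL hu
      rw [h4] at h3
      exact h3
    · rw [hL] at hr
      obtain rfl : r' = r := by simpa [blk] using hr
      have hi := hneg L i r' hL
      change Psi (SymChar χ) a a Φ' L (sw (neg L) _) = _ • Psi (SymChar χ) a a Φ' L (sw (neg L) v)
      rw [sw_update_mem hi]
      have hu : (u : G) ∈ SymH H (L i) := by rw [hL]; exact u.2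
      have h3 := pe2 L i u hu (sw (neg L) v)
      have h4 : SymChar χ (L i) ⟨u, hu⟩ = (χ r' u)⁻¹ := by
        have : ∀ (j : R ⊕ R ⊕ Unit) (hj : j = Sum.inr (Sum.inl r')) (hu : (u : G) ∈ SymH H j),
            SymChar χ j ⟨u, hu⟩ = (χ r' u)⁻¹ := by
          rintro j rfl hu; rfl
        exact this _ hL hu
      rw [h4, sw_mem hi v] at h3
      exact h3
    · rw [hL] at hr
      exact absurd hr (by simp [blk])
  have key2 : ∀ (L : Fin n → R ⊕ R ⊕ Unit) (i : Fin n) (r : R), blk (L i) = Sum.inl r →
      ∀ (u : H r) v, Θ L (Function.update v i ((v i).1, act a (u : G) (v i).2)) =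
        ((χ r u : kˣ) : k) • Θ L v := by
    intro L i r hr u v
    rcases hL : L i with r' | r' | x
    · rw [hL] at hr
      obtain rfl : r' = r := by simpa [blk] using hr
      have hi := hpos L i r' hL
      change Psi (SymChar χ) a a Φ' L (sw (neg L) _) = _ • Psi (SymChar χ) a a Φ' L (sw (neg L) v)
      rw [sw_update_notMem hi, ← sw_notMem hi v]
      have hu : (u : G) ∈ SymH H (L i) := by rw [hL]; exact u.2
      have h3 := pe2 L i u hu (sw (neg L) v)
      have h4 : SymChar χ (L i) ⟨u, hu⟩ = χ r' u := by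
        have : ∀ (j : R ⊕ R ⊕ Unit) (hj : j = Sum.inl r') (hu : (u : G) ∈ SymH H j),
            SymChar χ j ⟨u, hu⟩ = χ r' u := by
          rintro j rfl hu; rfl
        exact this _ hL hu
      rw [h4] at h3
      exact h3
    · rw [hL] at hr
      obtain rfl : r' = r := by simpa [blk] using hr
      have hi := hneg L i r' hL
      change Psi (SymChar χ) a a Φ' L (sw (neg L) _) = _ • Psi (SymChar χ) a a Φ' L (sw (neg L) v)
      rw [sw_update_mem hi]
      have hu : (u : G) ∈ SymH H (L i) := by rw [hL]; exact u.2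
      have h3 := pe1 L i u hu (sw (neg L) v)
      have h4 : SymChar χ (L i) ⟨u, hu⟩ = (χ r' u)⁻¹ := by
        have : ∀ (j : R ⊕ R ⊕ Unit) (hj : j = Sum.inr (Sum.inl r')) (hu : (u : G) ∈ SymH H j),
            SymChar χ j ⟨u, hu⟩ = (χ r' u)⁻¹ := by
          rintro j rfl hu; rfl
        exact this _ hL hu
      rw [h4, sw_mem hi v, _root_.inv_inv] at h3
      exact h3
    · rw [hL] at hr
      exact absurd hr (by simp [blk])
  have hanti : ∀ (L : Fin n → R ⊕ R ⊕ Unit) (v : Fin n → Place k K × Place k K),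
      ∑ σ : Perm (Fin n), ((Perm.sign σ : ℤ) : ℚ) • Θ L (fun i => v (σ i)) = 0 := by
    intro L v
    let d₁ : R ⊕ Unit → ℕ := Sum.elim c₁ fun _ => 0
    let d₂ : R ⊕ Unit → ℕ := Sum.elim c₂ fun _ => 0
    have hd : ∑ j, d₁ j * d₂ j < n := by
      rw [Fintype.sum_sum_type]
      simpa [d₁, d₂] using hn
    obtain ⟨j, hj⟩ : ∃ j, d₁ j * d₂ j < (Finset.univ.filter fun i => blk (L i) = j).card := by
      by_contra hc
      push Not at hc
      have h3 : (Finset.univ : Finset (Fin n)).card =
          ∑ j, (Finset.univ.filter fun i => blk (L i) = j).card :=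
        Finset.card_eq_sum_card_fiberwise fun i _ => Finset.mem_univ _
      have h4 := Finset.sum_le_sum fun j (_ : j ∈ Finset.univ) => hc j
      rw [← h3, Finset.card_univ, Fintype.card_fin] at h4
      omega
    rcases j with r | x
    · refine antisym_block (Θ L) (Finset.univ.filter fun i => blk (L i) = Sum.inl r)
        (blockT (hΘK L) (V1 r) (V2 r) ?_ ?_ ?_ ?_ hj) v
      · rintro t ⟨u, rfl⟩ i hi v
        exact key1 L i r (Finset.mem_filter.1 hi).2 u v
      · rintro t ⟨u, rfl⟩ i hi v
        rw [MonoidHom.inv_apply, _root_.inv_inv]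
        exact key2 L i r (Finset.mem_filter.1 hi).2 u v
      · rintro i hi v ⟨hχ, -⟩
        exact absurd hχ (hne r)
      · rintro i hi v ⟨hχ, -⟩
        exfalso
        apply hne r
        refine MonoidHom.ext fun s => ?_
        have h := DFunLike.congr_fun hχ s
        rw [MonoidHom.inv_apply, MonoidHom.one_apply] at h
        rw [MonoidHom.one_apply]
        exact inv_eq_one.1 h
    · have hL : ∀ i ∈ Finset.univ.filter (fun i => blk (L i) = Sum.inr x),
          L i = Sum.inr (Sum.inr ()) := by
        intro i hi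
        have h3 := (Finset.mem_filter.1 hi).2
        rcases hL : L i with r' | r' | y
        · rw [hL] at h3; exact absurd h3 (by simp [blk])
        · rw [hL] at h3; exact absurd h3 (by simp [blk])
        · rfl
      refine antisym_block (Θ L) (Finset.univ.filter fun i => blk (L i) = Sum.inr x)
        (blockT (hΘK L) V0 V0 ?_ ?_ ?_ ?_ hj) v
      · rintro t ⟨u, rfl⟩ i hi v
        have hi' := hpos' L i (hL i hi)
        change Psi (SymChar χ) a a Φ' L (sw (neg L) _) =
          _ • Psi (SymChar χ) a a Φ' L (sw (neg L) v)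
        rw [sw_update_notMem hi', ← sw_notMem hi' v]
        have hu : (u : G) ∈ SymH H (L i) := by rw [hL i hi]; trivial
        have h3 := pe1 L i u hu (sw (neg L) v)
        have h4 : SymChar χ (L i) ⟨u, hu⟩ = 1 := by
          have : ∀ (j : R ⊕ R ⊕ Unit) (hj : j = Sum.inr (Sum.inr ())) (hu : (u : G) ∈ SymH H j),
              SymChar χ j ⟨u, hu⟩ = 1 := by
            rintro j rfl hu; rfl
          exact this _ (hL i hi) hu
        rw [h4] at h3
        exact h3
      · rintro t ⟨u, rfl⟩ i hi v
        have hi' := hpos' L i (hL i hi)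
        change Psi (SymChar χ) a a Φ' L (sw (neg L) _) =
          _ • Psi (SymChar χ) a a Φ' L (sw (neg L) v)
        rw [sw_update_notMem hi', ← sw_notMem hi' v]
        have hu : (u : G) ∈ SymH H (L i) := by rw [hL i hi]; trivial
        have h3 := pe2 L i u hu (sw (neg L) v)
        have h4 : SymChar χ (L i) ⟨u, hu⟩ = 1 := by
          have : ∀ (j : R ⊕ R ⊕ Unit) (hj : j = Sum.inr (Sum.inr ())) (hu : (u : G) ∈ SymH H j),
              SymChar χ j ⟨u, hu⟩ = 1 := by
            rintro j rfl hu; rfl
          exact this _ (hL i hi) hu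
        rw [h4] at h3
        rw [MonoidHom.one_apply, inv_one]
        exact h3
      · rintro i hi v ⟨-, u, hu⟩
        have hi' := hpos' L i (hL i hi)
        have h3 : SymChar χ (L i) = 1 := by rw [hL i hi]; rfl
        have h4 : SymH H (L i) = ⊤ := by rw [hL i hi]; rfl
        refine psi_z1 hn1' L i h3 h4 _ (u₀ := u) ?_
        rw [sw_notMem hi']
        exact hu
      · rintro i hi v ⟨-, u, hu⟩
        have hi' := hpos' L i (hL i hi)
        have h3 : SymChar χ (L i) = 1 := by rw [hL i hi]; rfl
        have h4 : SymH H (L i) = ⊤ := by rw [hL i hi]; rfl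
        refine psi_z2 hI' hn2' L i h3 h4 _ (u₀ := u) ?_
        rw [sw_notMem hi']
        exact hu
  -- evaluation
  have hev : ∀ σ : Perm (Fin n), N ^ n •
      Finsupp.linearCombination ℚ Φ' (cross fun i => w (σ i)) =
      ∑ L : Fin n → R ⊕ R ⊕ Unit, (∏ l, c (L l)) • (Fintype.card (Fin n → G) •
        Finsupp.linearCombination ℚ (fun v => Θ L (fun i => v (σ i))) (cross w)) := by
    intro σ
    rw [← lc_ksmul]
    simp only [← sum_psi hI' c N hc]
    rw [lc_sum]
    apply Finset.sum_congr rfl
    intro L _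
    rw [lc_sum]
    have h4 : ∀ g : Fin n → G, Finsupp.linearCombination ℚ (fun v =>
        (∏ l, c (L l)) • Psi (SymChar χ) a a Φ' L (tw a a g g v)) (cross fun i => w (σ i)) =
        (∏ l, c (L l)) • Finsupp.linearCombination ℚ (Psi (SymChar χ) a a Φ' L)
          (cross fun i => w (σ i)) := by
      intro g
      rw [lc_ksmul, hT (Psi (SymChar χ) a a Φ' L) σ g]
    rw [Finset.sum_congr rfl fun g _ => h4 g, Finset.sum_const, Finset.card_univ, ← smul_comm]
    congr 2
    rw [← hS (Psi (SymChar χ) a a Φ' L) σ (neg L)]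
    change Finsupp.linearCombination ℚ (Θ L) _ = _
    rw [cross_perm, lc_comp (Θ L) (fun v i => v (σ i))]
  have hlc' : ∀ σ : Perm (Fin n), Finsupp.linearCombination ℚ Φ' (cross fun i => w (σ i)) =
      Fintype.card (Fin n → G) • Finsupp.linearCombination ℚ Φ₀ (cross fun i => w (σ i)) := by
    intro σ
    change Finsupp.linearCombination ℚ (fun v => ∑ g : Fin n → G, Φ (tw a a g g v)) _ = _
    rw [lc_sum, Finset.sum_congr rfl fun g _ => hT Φ σ g, Finset.sum_const, Finset.card_univ,
      hPr (fun i => w (σ i)) (fun i => h1 _) (fun i => h2 _)]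
  -- conclusion
  have hfin : Finsupp.linearCombination ℚ Φ₀
      (∑ σ : Perm (Fin n), ((Perm.sign σ : ℤ) : ℚ) • cross (fun i => w (σ i))) = 0 := by
    have h3 : Finsupp.linearCombination ℚ Φ₀
        (∑ σ : Perm (Fin n), ((Perm.sign σ : ℤ) : ℚ) • cross (fun i => w (σ i))) =
        ∑ σ : Perm (Fin n), ((Perm.sign σ : ℤ) : ℚ) •
          Finsupp.linearCombination ℚ Φ₀ (cross fun i => w (σ i)) := by
      rw [map_sum]
      apply Finset.sum_congr rfl
      intro σ _
      rw [map_smul]
    rw [h3]
    have hC0 : (Fintype.card (Fin n → G) : ℚ) ≠ 0 := by exact_mod_cast Fintype.card_ne_zero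
    have h4 : N ^ n • ((Fintype.card (Fin n → G) : ℚ) • ∑ σ : Perm (Fin n),
        ((Perm.sign σ : ℤ) : ℚ) • Finsupp.linearCombination ℚ Φ₀ (cross fun i => w (σ i))) = 0 := by
      rw [Finset.smul_sum, Finset.smul_sum]
      have h5 : ∀ σ : Perm (Fin n), N ^ n • ((Fintype.card (Fin n → G) : ℚ) •
          (((Perm.sign σ : ℤ) : ℚ) • Finsupp.linearCombination ℚ Φ₀ (cross fun i => w (σ i)))) =
          ∑ L : Fin n → R ⊕ R ⊕ Unit, (∏ l, c (L l)) • (Fintype.card (Fin n → G) •
            Finsupp.linearCombination ℚ (fun v => ((Perm.sign σ : ℤ) : ℚ) •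
              Θ L (fun i => v (σ i))) (cross w)) := by
        intro σ
        rw [smul_comm (Fintype.card (Fin n → G) : ℚ), Nat.cast_smul_eq_nsmul, ← hlc']
        have h6 : N ^ n • (((Perm.sign σ : ℤ) : ℚ) •
            Finsupp.linearCombination ℚ Φ' (cross fun i => w (σ i))) =
            ((Perm.sign σ : ℤ) : ℚ) • (N ^ n •
            Finsupp.linearCombination ℚ Φ' (cross fun i => w (σ i))) :=
          map_rat_smul (DistribSMul.toAddMonoidHom (k ⊗[ℚ] M) (N ^ n)) _ _
        rw [h6, hev, Finset.smul_sum]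
        apply Finset.sum_congr rfl
        intro L _
        rw [lc_smul]
        have h7 : ∀ (q : ℚ) (x : k ⊗[ℚ] M), (∏ l, c (L l)) • (q • x) =
            q • ((∏ l, c (L l)) • x) := fun q x =>
          map_rat_smul (DistribSMul.toAddMonoidHom (k ⊗[ℚ] M) (∏ l, c (L l))) q x
        rw [← h7, smul_comm (((Perm.sign σ : ℤ) : ℚ))]
      rw [Finset.sum_congr rfl fun σ _ => h5 σ, Finset.sum_comm]
      apply Finset.sum_eq_zero
      intro L _
      rw [← Finset.smul_sum, ← Finset.smul_sum, ← lc_sum]
      simp only [hanti]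
      rw [Finsupp.linearCombination_apply]
      simp
    have h5 := (smul_eq_zero.1 h4).resolve_left (pow_ne_zero _ hN)
    exact (smul_eq_zero.1 h5).resolve_left hC0
  rw [hlc₀] at hfin
  have h3 := one_tmul_eq_zero hfin
  rwa [← LinearMap.mem_ker, Submodule.ker_mkQ] at h3

end core

end Pool.Agent.H25.VN
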