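import Pool.Agent.H25.VN.N16

/-!
# Quotients of the square of a curve by a group and the exchange of the factors
-/

set_option autoImplicit false
set_option linter.overlappingInstances false
set_option linter.unusedSectionVars false

namespace Pool.Agent.H25.VN

open FF IntermediateField Module Pool.Agent.W603.LV Pool.Agent.W619.PQ Pool.Agent.Q70.CH
open KaehlerDifferential TensorProduct Equiv
open Pool.Agent.H25.VO (RegularAt alt alt_map alt_smul)

section indep

variable {k : Type} [Field k] [CharZero k] {G : Type} [Group G] [Fintype G] {R : Type} [Fintype R]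
  {H : R → Subgroup G} {χ : ∀ j, H j →* kˣ} {V : Type} [AddCommGroup V] [Module k V]
  {φ : G → (V →ₗ[k] V)}

/-- the invariants given by eigenvectors are linearly independent -/
lemma indep_sym [DecidableEq G]
    (hreg : ∀ s : G, ∑ j, indChar (SymChar χ j) 1 * indChar (SymChar χ j) s =
      if s = 1 then (Fintype.card G : k) else 0)
    (hφ : ∀ g h ω, φ (g * h) ω = φ g (φ h ω)) {c₁ c₂ : R → ℕ}
    (u : ∀ j, Fin (c₁ j) → V) (v : ∀ j, Fin (c₂ j) → V)
    (hu : ∀ j, LinearIndependent k (u j)) (hv : ∀ j, LinearIndependent k (v j))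
    (eu : ∀ j p (s : H j), φ (s : G) (u j p) = (χ j s : k) • u j p)
    (ev : ∀ j p (s : H j), φ (s : G) (v j p) = (((χ j s)⁻¹ : kˣ) : k) • v j p) :
    LinearIndependent k fun t : (Σ j, Fin (c₁ j) × Fin (c₂ j)) =>
      ∑ g : G, (φ g (u t.1 t.2.1) ⊗ₜ[k] φ g (v t.1 t.2.2) -
        φ g (v t.1 t.2.2) ⊗ₜ[k] φ g (u t.1 t.2.1)) := by
  classical
  rw [Fintype.linearIndependent_iff]
  intro l hl
  rintro ⟨i, p₀, q₀⟩
  have hT : ∀ t : (Σ j, Fin (c₁ j) × Fin (c₂ j)),
      TensorProduct.map (prj (SymChar χ) φ (Sum.inl i)) LinearMap.id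
        (∑ g : G, (φ g (u t.1 t.2.1) ⊗ₜ[k] φ g (v t.1 t.2.2) -
          φ g (v t.1 t.2.2) ⊗ₜ[k] φ g (u t.1 t.2.1))) =
        ∑ g : G, prj (SymChar χ) φ (Sum.inl i) (φ g (u t.1 t.2.1)) ⊗ₜ[k] φ g (v t.1 t.2.2) := by
    intro t
    rw [map_sum]
    apply Finset.sum_congr rfl
    intro g _
    rw [map_sub, TensorProduct.map_tmul, TensorProduct.map_tmul, LinearMap.id_apply,
      LinearMap.id_apply]
    have h3 : prj (SymChar χ) φ (Sum.inl i) (φ g (v t.1 t.2.2)) = 0 :=
      prj_zero (χ := SymChar χ) (j := Sum.inr (Sum.inl t.1)) hφ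
        (mackey (SymChar χ) hreg (Or.inl (by simp))) (fun s => ev t.1 t.2.2 s)
    rw [h3, TensorProduct.zero_tmul, sub_zero]
  have h0 : ∀ j, j ≠ i → ∀ p q,
      ∑ g : G, prj (SymChar χ) φ (Sum.inl i) (φ g (u j p)) ⊗ₜ[k] φ g (v j q) = 0 := by
    intro j hj p q
    apply Finset.sum_eq_zero
    intro g _
    have h3 : prj (SymChar χ) φ (Sum.inl i) (φ g (u j p)) = 0 :=
      prj_zero (χ := SymChar χ) (j := Sum.inl j) hφ
        (mackey (SymChar χ) hreg (Or.inl (by simpa using hj))) (fun s => eu j p s)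
    rw [h3, TensorProduct.zero_tmul]
  have h1 : ∀ p q, ∑ g : G, prj (SymChar χ) φ (Sum.inl i) (φ g (u i p)) ⊗ₜ[k] φ g (v i q) =
      ((Nat.card (H i) : k) * (Nat.card (H i) : k)) • (u i p ⊗ₜ[k] v i q) := by
    intro p q
    have h2 : ∀ g : G, prj (SymChar χ) φ (Sum.inl i) (φ g (u i p)) ⊗ₜ[k] φ g (v i q) =
        (if g ∈ H i then (Nat.card (H i) : k) else 0) • (u i p ⊗ₜ[k] v i q) := by
      intro g
      by_cases hg : g ∈ H i
      · have h3 := eu i p ⟨g, hg⟩
        have h4 := ev i q ⟨g, hg⟩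
        have h5 : prj (SymChar χ) φ (Sum.inl i) (u i p) = (Nat.card (H i) : k) • u i p :=
          prj_self (χ := SymChar χ) (i := Sum.inl i) (fun s => eu i p s)
        simp only at h3 h4
        rw [if_pos hg, h3, h4, map_smul, h5, TensorProduct.smul_tmul_smul,
          Units.mul_inv, one_smul, TensorProduct.smul_tmul']
      · have h3 : prj (SymChar χ) φ (Sum.inl i) (φ g (u i p)) = 0 :=
          prj_zero (χ := SymChar χ) (j := Sum.inl i) hφ
            (mackey (SymChar χ) hreg (Or.inr hg)) (fun s => eu i p s)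
        rw [if_neg hg, zero_smul, h3, TensorProduct.zero_tmul]
    rw [Finset.sum_congr rfl fun g _ => h2 g, ← Finset.sum_smul]
    congr 1
    rw [← Finset.sum_filter, Finset.sum_const, nsmul_eq_mul]
    congr 2
    rw [Nat.card_eq_fintype_card, Fintype.card_subtype]
  have h2 := congrArg (TensorProduct.map (prj (SymChar χ) φ (Sum.inl i))
    (LinearMap.id : V →ₗ[k] V)) hl
  rw [map_zero, map_sum] at h2
  simp only [map_smul, hT] at h2
  rw [Fintype.sum_sigma, Finset.sum_eq_single i] at h2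
  · simp only [h1] at h2
    have h3 : ∑ r : Fin (c₁ i) × Fin (c₂ i), (l ⟨i, r⟩ * ((Nat.card (H i) : k) *
        (Nat.card (H i) : k))) • (u i r.1 ⊗ₜ[k] v i r.2) = 0 := by
      rw [← h2]
      apply Finset.sum_congr rfl
      intro r _
      rw [smul_smul]
    have h4 := Fintype.linearIndependent_iff.1 ((hu i).tmul_of_isDomain (hv i)) _ h3 (p₀, q₀)
    have h5 : (Nat.card (H i) : k) ≠ 0 := by exact_mod_cast Nat.card_pos.ne'
    exact (mul_eq_zero.1 h4).resolve_right (mul_ne_zero h5 h5)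
  · intro j _ hj
    apply Finset.sum_eq_zero
    intro r _
    rw [h0 j hj, smul_zero]
  · intro h
    exact absurd (Finset.mem_univ _) h

end indep

section genus

variable {k : Type} [Field k] {K : Type} [Field K] [Algebra k K]

variable [CharZero k] [IsAlgClosed k] [IsFF k K] {G : Type} [Group G] [Fintype G]
  {a : G →* (K ≃ₐ[k] K)} {R : Type} [Fintype R] {H : R → Subgroup G} {χ : ∀ j, H j →* kˣ}

theorem genus_sym [DecidableEq G]
    (hreg : ∀ s : G, ∑ j, indChar (SymChar χ j) 1 * indChar (SymChar χ j) s =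
      if s = 1 then (Fintype.card G : k) else 0) {c₁ c₂ : R → ℕ}
    (h₁ : ∀ j, (c₁ j : Cardinal) ≤ Module.rank k (Eigenforms (a.comp (H j).subtype) (χ j)))
    (h₂ : ∀ j, (c₂ j : Cardinal) ≤ Module.rank k (Eigenforms (a.comp (H j).subtype) (χ j)⁻¹)) :
    ((∑ j, c₁ j * c₂ j : ℕ) : Cardinal) ≤
      Module.rank k (Submodule.span k {w | IsSymInvariant a w}) := by
  classical
  obtain ⟨φ, hφ1, hφ2⟩ := exists_action a
  have e₁ := fun j => Module.le_rank_iff.1 (h₁ j)
  have e₂ := fun j => Module.le_rank_iff.1 (h₂ j)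
  choose u hu using e₁
  choose v hv using e₂
  have hu' : ∀ j, LinearIndependent k (fun p => (u j p : Ω[K⁄k])) := fun j =>
    (hu j).map' (Submodule.subtype _) (Submodule.ker_subtype _)
  have hv' : ∀ j, LinearIndependent k (fun p => (v j p : Ω[K⁄k])) := fun j =>
    (hv j).map' (Submodule.subtype _) (Submodule.ker_subtype _)
  have eu : ∀ j (p : Fin (c₁ j)) (s : H j),
      φ (s : G) (u j p : Ω[K⁄k]) = (χ j s : k) • (u j p : Ω[K⁄k]) := fun j p s =>
    pull_eigen (a := a.comp (H j).subtype) (s := s) (hφ1 s) (u j p).2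
  have ev : ∀ j (p : Fin (c₂ j)) (s : H j),
      φ (s : G) (v j p : Ω[K⁄k]) = (((χ j s)⁻¹ : kˣ) : k) • (v j p : Ω[K⁄k]) := fun j p s => by
    have h3 := pull_eigen (a := a.comp (H j).subtype) (s := s) (hφ1 s) (v j p).2
    rw [MonoidHom.inv_apply] at h3
    exact h3
  have hI : LinearIndependent k fun t : (Σ j, Fin (c₁ j) × Fin (c₂ j)) =>
      ∑ g : G, (φ g (u t.1 t.2.1 : Ω[K⁄k]) ⊗ₜ[k] φ g (v t.1 t.2.2 : Ω[K⁄k]) -
        φ g (v t.1 t.2.2 : Ω[K⁄k]) ⊗ₜ[k] φ g (u t.1 t.2.1 : Ω[K⁄k])) := by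
    exact indep_sym (χ := χ) (V := Ω[K⁄k]) (φ := φ) hreg hφ2
      (fun j p => (u j p : Ω[K⁄k])) (fun j p => (v j p : Ω[K⁄k])) hu' hv' eu ev
  let F : (Σ j, Fin (c₁ j) × Fin (c₂ j)) → G → TwoForms k K K := fun t g =>
    prodForm (φ g (u t.1 t.2.1 : Ω[K⁄k])) (φ g (v t.1 t.2.2 : Ω[K⁄k])) -
      prodForm (φ g (v t.1 t.2.2 : Ω[K⁄k])) (φ g (u t.1 t.2.1 : Ω[K⁄k]))
  have hI₂ : LinearIndependent k fun t : (Σ j, Fin (c₁ j) × Fin (c₂ j)) => ∑ g : G, F t g := hI
  have hmem : ∀ t : (Σ j, Fin (c₁ j) × Fin (c₂ j)),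
      ∑ g : G, F t g ∈ Submodule.span k {w | IsSymInvariant a w} := by
    intro t
    apply Submodule.subset_span
    have r1 : ∀ g, φ g (u t.1 t.2.1 : Ω[K⁄k]) ∈ regForms k K := fun g =>
      pull_regular (hφ1 g) (eigen_regular _ _ (u t.1 t.2.1).2)
    have r2 : ∀ g, φ g (v t.1 t.2.2 : Ω[K⁄k]) ∈ regForms k K := fun g =>
      pull_regular (hφ1 g) (eigen_regular _ _ (v t.1 t.2.2).2)
    refine ⟨⟨Submodule.sum_mem _ fun g _ => ?_, ?_⟩, ?_⟩
    · exact Submodule.sub_mem _ (reg_tmul (r1 g) (r2 g)) (reg_tmul (r2 g) (r1 g))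
    · intro g Φ hΦ
      rw [map_sum, ← sum_mulLeft g (F t)]
      apply Finset.sum_congr rfl
      intro h _
      simp only [F]
      rw [map_sub, pull₂_apply hΦ (hφ1 g) (hφ1 g), pull₂_apply hΦ (hφ1 g) (hφ1 g), hφ2, hφ2]
    · intro Φ hΦ
      rw [map_sum]
      apply Finset.sum_congr rfl
      intro g _
      simp only [F]
      rw [map_sub, hΦ, hΦ]
      abel
  have hI' : LinearIndependent k fun t : (Σ j, Fin (c₁ j) × Fin (c₂ j)) =>
      (⟨_, hmem t⟩ : Submodule.span k {w | IsSymInvariant a w}) := by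
    apply LinearIndependent.of_comp (Submodule.subtype _)
    exact hI₂
  have h3 := hI'.cardinal_le_rank
  refine le_trans (le_of_eq ?_) h3
  rw [Cardinal.mk_fintype, Fintype.card_sigma]
  simp

end genus

section quotient

variable {k : Type} [Field k] [CharZero k] {K : Type} [Field K] [Algebra k K] {G : Type} [Group G]

variable {a : G →* (K ≃ₐ[k] K)} [Fintype G]

/-- the sum of the conjugates of a cycle under `G` and the exchange of the factors -/
noncomputable def symSum (a : G →* (K ≃ₐ[k] K)) (z : (Place k K × Place k K) →₀ ℚ) :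
    (Place k K × Place k K) →₀ ℚ :=
  ∑ g : G, z.mapDomain (act₂ a a g) + (∑ g : G, z.mapDomain (act₂ a a g)).mapDomain Prod.swap

lemma symSum_inv (z : (Place k K × Place k K) →₀ ℚ) (g : G) :
    (symSum a z).mapDomain (act₂ a a g) = symSum a z := by
  have h1 : (∑ g : G, z.mapDomain (act₂ a a g)).mapDomain (act₂ a a g) =
      ∑ g : G, z.mapDomain (act₂ a a g) := by
    rw [Finsupp.mapDomain_finsetSum]
    refine Fintype.sum_equiv (Equiv.mulRight g) _ _ fun h => ?_
    rw [Equiv.coe_mulRight, ← Finsupp.mapDomain_comp]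
    congr 1
    ext1 p
    simp only [Function.comp, act₂, act_mul]
  unfold symSum
  rw [Finsupp.mapDomain_add, h1]
  congr 1
  rw [← Finsupp.mapDomain_comp]
  have h2 : act₂ a a g ∘ Prod.swap = Prod.swap ∘ act₂ a a g := by
    ext1 p
    rfl
  rw [h2, Finsupp.mapDomain_comp, h1]

lemma symSum_swap (z : (Place k K × Place k K) →₀ ℚ) :
    (symSum a z).mapDomain Prod.swap = symSum a z := by
  unfold symSum
  rw [Finsupp.mapDomain_add, ← Finsupp.mapDomain_comp]
  have h2 : (Prod.swap : Place k K × Place k K → Place k K × Place k K) ∘ Prod.swap = id := by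
    ext1 p
    exact Prod.swap_swap p
  rw [h2, Finsupp.mapDomain_id, add_comm]

lemma symSum_mk (z : (Place k K × Place k K) →₀ ℚ) :
    (symSum a z).mapDomain (Quotient.mk (orbSym a)) =
      (2 * Fintype.card G : ℚ) • z.mapDomain (Quotient.mk (orbSym a)) := by
  have h4 : ∀ g : G, (z.mapDomain (act₂ a a g)).mapDomain (Quotient.mk (orbSym a)) =
      z.mapDomain (Quotient.mk (orbSym a)) := by
    intro g
    rw [← Finsupp.mapDomain_comp]
    congr 1
    ext1 p
    exact Quotient.sound ⟨g⁻¹, Or.inl (by simp [act₂, ← act_mul, act_one])⟩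
  have h5 : (Quotient.mk (orbSym a) : Place k K × Place k K → Quotient (orbSym a)) ∘ Prod.swap =
      Quotient.mk (orbSym a) := by
    ext1 p
    exact Quotient.sound ⟨1, Or.inr (by simp [act₂, act_one])⟩
  have h6 : (∑ g : G, z.mapDomain (act₂ a a g)).mapDomain (Quotient.mk (orbSym a)) =
      (Fintype.card G : ℚ) • z.mapDomain (Quotient.mk (orbSym a)) := by
    rw [Finsupp.mapDomain_finsetSum, Finset.sum_congr rfl fun g _ => h4 g, Finset.sum_const,
      Finset.card_univ, Nat.cast_smul_eq_nsmul]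
  unfold symSum
  rw [Finsupp.mapDomain_add, ← Finsupp.mapDomain_comp, h5, h6, ← add_smul]
  congr 1
  ring

theorem voisin_quotient_sym [IsAlgClosed k] [IsFF k K] {R : Type} [Fintype R]
    [DecidableEq G] {H : R → Subgroup G} (χ : ∀ r, H r →* kˣ) (hne : ∀ r, χ r ≠ 1)
    (c : R ⊕ R ⊕ Unit → k) {N : k} (hN : N ≠ 0)
    (hc : ∀ s : G, ∑ j, ∑ γ : G, c j * wt (SymChar χ) j (γ⁻¹ * s * γ) = if s = 1 then N else 0)
    (p : Place k K) {c₁ c₂ : R → ℕ}
    (V1 : ∀ r, VanT (rules (a.comp (H r).subtype) (χ r)) (zeros a (χ r) p) (c₁ r))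
    (V2 : ∀ r, VanT (rules (a.comp (H r).subtype) (χ r)⁻¹) (zeros a (χ r)⁻¹ p) (c₂ r))
    (V0 : VanT (rules (a.comp (⊤ : Subgroup G).subtype) 1) (zeros a (1 : (⊤ : Subgroup G) →* kˣ) p) 0)
    {n : ℕ} (hn : ∑ r, c₁ r * c₂ r < n) (z : Fin n → (Place k K × Place k K) →₀ ℚ)
    (h1 : ∀ i, (symSum a (z i)).mapDomain Prod.fst ∈ TC k K) :
    alt (fun i => (z i).mapDomain (Quotient.mk (orbSym a))) ∈
      (TT k K K n).map (Finsupp.lmapDomain ℚ ℚ
        (fun (v : Fin n → Place k K × Place k K) i => Quotient.mk (orbSym a) (v i))) := by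
  classical
  have h2 : ∀ i, (symSum a (z i)).mapDomain Prod.snd ∈ TC k K := by
    intro i
    rw [← symSum_swap, ← Finsupp.mapDomain_comp]
    exact h1 i
  have key := core_sym χ hne c hN hc p V1 V2 V0 hn (fun i => symSum a (z i))
    (fun i g => symSum_inv (z i) g) (fun i => symSum_swap (z i)) h1 h2
  have h5 := alt_map (Quotient.mk (orbSym a)) (fun i => symSum a (z i))
  simp only [symSum_mk] at h5
  rw [alt_smul] at h5
  have h6 : (2 * Fintype.card G : ℚ) ^ n ≠ 0 := pow_ne_zero _ (mul_ne_zero two_ne_zero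
    (by exact_mod_cast Fintype.card_ne_zero))
  have h7 : alt (fun i => (z i).mapDomain (Quotient.mk (orbSym a))) =
      ((2 * Fintype.card G : ℚ) ^ n)⁻¹ • Finsupp.lmapDomain ℚ ℚ
        (fun (v : Fin n → Place k K × Place k K) i => Quotient.mk (orbSym a) (v i))
        (alt (fun i => symSum a (z i))) := by
    rw [h5, smul_smul, inv_mul_cancel₀ h6, one_smul]
  rw [h7]
  exact Submodule.smul_mem _ _ (Submodule.mem_map_of_mem key)

end quotient

end Pool.Agent.H25.VN
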