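import Pool.Agent.H25.VN.N1

/-!
# Arbitrary finite groups acting on a curve, linear characters: the vanishing theorems
-/

set_option autoImplicit false
set_option linter.overlappingInstances false
set_option linter.unusedSectionVars false

namespace Pool.Agent.H25.VN

open FF IntermediateField Module Pool.Agent.W603.LV Pool.Agent.W619.PQ Pool.Agent.Q70.CH
open Pool.Agent.H25.VO hiding act act_ord act_one act_mul vl_act IsQuot over_act exists_act dvd_of_trivial test_curve   vanish_fixed vanish_branch vanish_aux vanish_ramified vanish_trivial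

section

variable {k : Type} [Field k] [CharZero k]

variable [IsAlgClosed k]

/-- the test curve -/
theorem test_curve {F K : Type} [Field F] [Algebra k F] [IsFF k F] [Field K] [Algebra k K]
    [IsFF k K] [Algebra F K] [IsScalarTower k F K] {G : Type} [Group G] [Fintype G]
    {a : G →* (K ≃ₐ[k] K)} (hq : IsQuot a F) {ι : Type} [Fintype ι] (x : ι → Place k K)
    (z : ι → Place k F) (hz : ∀ i, ∃ e, Over (x i) (z i) e) (h : F) (hh : Transcendental k h)
    (hpole : ∀ P : Place k F, - P.ord h ≤ cnt z P) {χ : G →* kˣ} {y : K} (hy : y ≠ 0)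
    (hya : ∀ s, a s y = algebraMap k K (χ s : k) * y) {d : ℕ} (hd : 0 < d) {b : F}
    (hb : y ^ d = algebraMap F K b) (hbz : ∀ i, (z i).ord b = 0) {W : Type} [AddCommGroup W]
    [Module k W] (Ψ : (ι → Place k K) → W) (P1 : ∀ (π : Equiv.Perm ι) x, Ψ (fun i => x (π i)) = Ψ x)
    (P2 : ∀ (u : ι → G) x, Ψ (fun i => act a (u i) (x i)) = (((∏ i, χ (u i))⁻¹ : kˣ) : k) • Ψ x) :
    ∃ (L : Type) (_ : Field L) (_ : Algebra k L) (_ : IsFF k L) (T Y : L) (κ : k)
      (s : Place k L → (ι → Place k K)) (β : k) (n : k →₀ ℤ),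
      Transcendental k T ∧ s ∈ ((curve (k := k) K).pow ι).mor L ∧ κ ≠ 0 ∧
      (∀ Q : Place k L, Q.ord T < 0 → ∃ c, c ≠ 0 ∧ Vl Q Y c ∧ Ψ (s Q) = (κ * c⁻¹) • Ψ x) ∧
      (∀ (Q : Place k L) (t : k), 0 < Q.ord (T - algebraMap k L t) →
        ∀ P : Place k F, 0 < P.ord (h - algebraMap k F t) → ∃ i e, Over (s Q i) P e) ∧
      β ≠ 0 ∧ Y ^ d = algebraMap k L β * rat T n ∧
      (∀ t, ∀ S : Finset (Place k F), (∀ P, P ∈ S ↔ 0 < P.ord (h - algebraMap k F t)) →
        n t = ∑ P ∈ S, P.ord b) ∧ (n.sum fun _ m => m) = 0 := by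
  classical
  have hFK : FiniteDimensional F K := finite_ext (k := k) F K
  -- the rational function field
  let R := k⟮h⟯
  have hfin : FiniteDimensional R F := IsFF.finite hh
  let g : R := AdjoinSimple.gen k h
  have hgF : algebraMap R F g = h := AdjoinSimple.algebraMap_gen k h
  have hg : Transcendental k g := by
    intro hc
    apply hh
    rw [← hgF]
    exact hc.algebraMap
  have htop : k⟮g⟯ = ⊤ := by
    apply IntermediateField.lift_injective R
    rw [IntermediateField.lift_adjoin_simple, IntermediateField.lift_top]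
    rfl
  have hR : IsFF k R := by
    apply IsFF.of_finite hg
    rw [htop]
    exact Module.Finite.of_surjective (Algebra.linearMap (⊤ : IntermediateField k R) R)
      (fun x => ⟨⟨x, trivial⟩, rfl⟩)
  have hg0 : g ≠ 0 := by
    intro hc
    rw [hc] at hg
    exact hg isAlgebraic_zero
  have hgi : Transcendental k g⁻¹ := by
    intro hc
    apply hg
    simpa using hc.inv
  have htopi : k⟮g⁻¹⟯ = ⊤ := by rw [adjoin_inv, htop]
  obtain ⟨L, _, _, _, _, hRL, hffL, J, _, ψ, hJ, hψ, hN⟩ := exists_lifts (k := k) R F K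
  let T : L := algebraMap R L g
  let φ : J → (F →ₐ[k] L) := fun j => (ψ j).comp (IsScalarTower.toAlgHom k F K)
  have hφψ : ∀ j f, φ j f = ψ j (algebraMap F K f) := fun j f => rfl
  have hφ : ∀ j (f : R), φ j (algebraMap R F f) = algebraMap R L f := by
    intro j f
    rw [hφψ, ← IsScalarTower.algebraMap_apply R F K, hψ]
  have hN' : ∀ z : F, algebraMap R L (Algebra.norm R z) = ∏ j, φ j z := hN
  have hT : Transcendental k T := by
    intro hc
    apply hg
    exact (isAlgebraic_algebraMap_iff (algebraMap R L).injective).1 hc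
  have hT0 : T ≠ 0 := by rintro hc; rw [hc] at hT; exact hT isAlgebraic_zero
  -- places of `F` below
  have hbelow : ∀ (j : J) (Q : Place k L), ∃ e, Over (below (ψ j) Q) (below (φ j) Q) e := by
    intro j Q
    obtain ⟨e, he, h1⟩ := below_spec (ψ j) Q
    obtain ⟨p', e', he', h2⟩ := exists_below (IsScalarTower.toAlgHom k F K) (below (ψ j) Q)
    obtain ⟨e'', he'', h3⟩ := below_spec (φ j) Q
    have h4 : ∀ f, Q.ord (φ j f) = ((e * e' : ℕ) : ℤ) * p'.ord f := by
      intro f
      rw [hφψ, h1]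
      have := h2 f
      change (below (ψ j) Q).ord (algebraMap F K f) = _ at this
      rw [this]; push_cast; ring
    have h5 := (over_unique he'' h3 h4).1
    rw [h5]
    exact ⟨e', he', h2⟩
  -- the fibre over infinity
  have hcnt : ∀ Q : Place k L, Q.ord T < 0 → ∀ P : Place k F,
      (cnt (fun j => below (φ j) Q) P : ℤ) = max (- P.ord h) 0 := by
    intro Q hQ P
    have h1 : 0 < Q.ord (algebraMap R L g⁻¹) := by
      rw [map_inv₀, Q.ord_inv]
      change 0 < - Q.ord T
      omega
    rw [cnt_below φ hJ hφ hN' g⁻¹ hgi htopi Q h1 P, map_inv₀, hgF, P.ord_inv]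
  obtain ⟨Sinf, hS1, hS2⟩ := poles hT
  have hLfin := IsFF.finite hT
  obtain ⟨Q₀, hQ₀⟩ : Sinf.Nonempty := by
    rw [Finset.nonempty_iff_ne_empty]
    rintro rfl
    rw [Finset.sum_empty] at hS2
    have : 0 < finrank k⟮T⟯ L := finrank_pos
    omega
  have hQ₀' := (hS1 Q₀).1 hQ₀
  let b₀ : J → Place k F := fun j => below (φ j) Q₀
  obtain ⟨f, hf⟩ := exists_inj b₀ z (by
    intro P
    have h1 := hcnt Q₀ hQ₀' P
    have h2 := hpole P
    have h3 : (cnt b₀ P : ℤ) ≤ cnt z P := by
      change (cnt (fun j => below (φ j) Q₀) P : ℤ) ≤ _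
      rw [h1]
      apply max_le <;> omega
    exact_mod_cast h3)
  let s : Place k L → (ι → Place k K) := fun Q => Function.extend f (fun j => below (ψ j) Q) x
  have hs1 : ∀ Q j, s Q (f j) = below (ψ j) Q := fun Q j => f.injective.extend_apply _ _ j
  have hs2 : ∀ Q i, (¬ ∃ j, f j = i) → s Q i = x i := fun Q i hi =>
    Function.extend_apply' _ _ i hi
  have hs : s ∈ ((curve (k := k) K).pow ι).mor L := by
    intro i
    by_cases hi : ∃ j, f j = i
    · obtain ⟨j, rfl⟩ := hi
      right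
      refine ⟨ψ j, fun Q => ?_⟩
      change ∃ e : ℕ, 0 < e ∧ ∀ f', Q.ord (ψ j f') = e * (s Q (f j)).ord f'
      rw [hs1]
      exact below_spec (ψ j) Q
    · left
      exact ⟨x i, fun Q => hs2 Q i hi⟩
  -- the values of `y`
  have hyx : ∀ i, ∃ c, c ≠ 0 ∧ Vl (x i) y c := by
    intro i
    obtain ⟨e, he⟩ := hz i
    have h1 : (d : ℤ) * (x i).ord y = 0 := by
      rw [← (x i).ord_pow, hb, he.2, hbz, mul_zero]
    have h2 : (x i).ord y = 0 := by
      rcases mul_eq_zero.1 h1 with h3 | h3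
      · omega
      · exact h3
    obtain ⟨c, hc⟩ := exists_vl (x i) (f := y) (Or.inr h2.ge)
    exact ⟨c, hc.ne_zero_of_ord hy h2, hc⟩
  choose yv hyv0 hyv using hyx
  let Y : L := ∏ j, ψ j y
  let κ : k := ∏ j, yv (f j)
  have hκ : κ ≠ 0 := Finset.prod_ne_zero_iff.2 fun j _ => hyv0 _
  have hinf : ∀ Q : Place k L, Q.ord T < 0 → ∃ c, c ≠ 0 ∧ Vl Q Y c ∧ Ψ (s Q) = (κ * c⁻¹) • Ψ x := by
    intro Q hQ
    obtain ⟨π, hπ⟩ := exists_perm (fun j => below (φ j) Q) b₀ (by
      intro P
      have h1 := hcnt Q hQ P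
      have h2 : (cnt b₀ P : ℤ) = _ := hcnt Q₀ hQ₀' P
      rw [← h2] at h1
      exact_mod_cast h1)
    let π' : Equiv.Perm ι := π.viaEmbedding f
    have hπ1 : ∀ j, π' (f j) = f (π j) := fun j => π.viaEmbedding_apply f j
    have hπ2 : ∀ i, (¬ ∃ j, f j = i) → π' i = i := fun i hi =>
      π.viaEmbedding_apply_of_notMem f i (by simpa using hi)
    have hu : ∀ i, ∃ u : G, s Q i = act a u (x (π' i)) ∧ ((¬ ∃ j, f j = i) → u = 1) := by
      intro i
      by_cases hi : ∃ j, f j = i
      · obtain ⟨j, rfl⟩ := hi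
        obtain ⟨e, he⟩ := hbelow j Q
        obtain ⟨e', he'⟩ := hz (π' (f j))
        have h1 : below (φ j) Q = z (π' (f j)) := by
          rw [hπ1, hf]; exact hπ j
        rw [← h1] at he'
        obtain ⟨u, hu⟩ := exists_act hq he' he
        refine ⟨u, ?_, fun hc => absurd ⟨j, rfl⟩ hc⟩
        rw [hs1, hu]
      · refine ⟨1, ?_, fun _ => rfl⟩
        rw [act_one, hπ2 i hi, hs2 Q i hi]
    choose u hu1 hu2 using hu
    have hprod : ∏ j, χ (u (f j)) = ∏ i, χ (u i) :=
      Fintype.prod_of_injective f f.injective _ _ (fun i hi => by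
        rw [hu2 i (by simpa using hi), map_one]) (fun j => rfl)
    have hval : ∀ j, Vl Q (ψ j y) (((χ (u (f j)) : kˣ) : k) * yv (f (π j))) := by
      intro j
      apply vl_below
      rw [← hs1, hu1, vl_act, hya, hπ1]
      exact (hyv _).smul _
    have hYv : Vl Q Y ((∏ i, χ (u i) : kˣ) * κ) := by
      have h1 := Vl.prod (P := Q) Finset.univ (f := fun j => ψ j y)
        (c := fun j => ((χ (u (f j)) : kˣ) : k) * yv (f (π j))) fun j _ => hval j
      have h2 : ∏ j, (((χ (u (f j)) : kˣ) : k) * yv (f (π j))) = (∏ i, χ (u i) : kˣ) * κ := by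
        rw [Finset.prod_mul_distrib, ← hprod, Units.coe_prod]
        congr 1
        exact Equiv.prod_comp π fun j => yv (f j)
      rw [h2] at h1
      exact h1
    refine ⟨_, mul_ne_zero (Units.ne_zero _) hκ, hYv, ?_⟩
    have h3 : s Q = fun i => act a (u i) (x (π' i)) := funext hu1
    rw [h3, P2 u (fun i => x (π' i)), P1 π' x]
    congr 1
    rw [Units.val_inv_eq_inv_val]
    field_simp
  -- the fibre over a point
  have hcnt' : ∀ (Q : Place k L) (t : k), 0 < Q.ord (T - algebraMap k L t) → ∀ P : Place k F,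
      (cnt (fun j => below (φ j) Q) P : ℤ) = max (P.ord (h - algebraMap k F t)) 0 := by
    intro Q t hQ P
    have h1 : Transcendental k (g - algebraMap k R t) := by
      intro hc
      apply hg
      have := hc.add (isAlgebraic_algebraMap (R := k) (A := R) t)
      simpa using this
    have h2 : k⟮g - algebraMap k R t⟯ = ⊤ := by
      rw [← htop]
      apply le_antisymm
      · rw [adjoin_simple_le_iff]
        exact sub_mem (mem_adjoin_simple_self k g) (IntermediateField.algebraMap_mem _ t)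
      · rw [adjoin_simple_le_iff]
        have := add_mem (mem_adjoin_simple_self k (g - algebraMap k R t))
          (IntermediateField.algebraMap_mem (k⟮g - algebraMap k R t⟯) t)
        simpa using this
    have h3 : algebraMap R L (g - algebraMap k R t) = T - algebraMap k L t := by
      rw [map_sub, ← IsScalarTower.algebraMap_apply k R L]
    have h4 : algebraMap R F (g - algebraMap k R t) = h - algebraMap k F t := by
      rw [map_sub, ← IsScalarTower.algebraMap_apply k R F, hgF]
    have h5 := cnt_below φ hJ hφ hN' (g - algebraMap k R t) h1 h2 Q (by rw [h3]; exact hQ) P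
    rw [h4] at h5
    exact h5
  -- the norm
  have hYd : Y ^ d = ∏ j, φ j b := by
    change (∏ j, ψ j y) ^ d = _
    rw [← Finset.prod_pow]
    apply Finset.prod_congr rfl
    intro j _
    rw [← map_pow, hb, hφψ]
  have hb0 : b ≠ 0 := by
    rintro rfl
    rw [map_zero] at hb
    exact hy (pow_eq_zero_iff hd.ne' |>.1 hb)
  have hnb : Algebra.norm R b ≠ 0 := by
    rw [Algebra.norm_ne_zero_iff]; exact hb0
  obtain ⟨β, n, hβ, hn⟩ := rat_rep hg (Algebra.norm R b) hnb (by rw [htop]; trivial)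
  have hYn : Y ^ d = algebraMap k L β * rat T n := by
    rw [hYd, ← hN', hn, map_mul, rat_map', ← IsScalarTower.algebraMap_apply k R L]
  refine ⟨L, _, _, hffL, T, Y, κ, s, β, n, hT, hs, hκ, hinf, ?_, hβ, hYn, ?_, ?_⟩
  · intro Q t hQ P hP
    have h1 := hcnt' Q t hQ P
    rw [max_eq_left hP.le] at h1
    have h2 : 0 < cnt (fun j => below (φ j) Q) P := by omega
    unfold cnt at h2
    rw [Finset.card_pos] at h2
    obtain ⟨j, hj⟩ := h2
    rw [Finset.mem_filter] at hj
    obtain ⟨e, he⟩ := hbelow j Q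
    refine ⟨f j, e, ?_⟩
    rw [hs1]
    have := hj.2
    simp only at this
    rw [this] at he
    exact he
  · intro t S hS
    have hTt : Transcendental k (T - algebraMap k L t) := by
      intro hc
      apply hT
      have := hc.add (isAlgebraic_algebraMap (R := k) (A := L) t)
      simpa using this
    obtain ⟨S', hS'1, -, hS'2⟩ := zeros hTt
    have hLfin' := IsFF.finite hTt
    obtain ⟨Q, hQ⟩ : S'.Nonempty := by
      rw [Finset.nonempty_iff_ne_empty]
      rintro rfl
      rw [Finset.sum_empty] at hS'2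
      have : 0 < finrank k⟮T - algebraMap k L t⟯ L := finrank_pos
      omega
    have hQ' := (hS'1 Q).1 hQ
    set E := Q.ord (T - algebraMap k L t) with hE
    have h1 : Q.ord (Y ^ d) = n t * E := by
      have hβ' : algebraMap k L β ≠ 0 := by simpa using hβ
      rw [hYn, Q.ord_mul hβ' (rat_ne hT n), Q.ord_const hβ, zero_add, ord_rat hT n Q t hQ']
    have h2 : Q.ord (Y ^ d) = ∑ j, Q.ord (φ j b) := by
      rw [hYd]
      exact ord_prod' _ _ _ fun j _ => by simpa using hb0
    have he : ∀ j, ∃ e : ℤ, (∀ f', Q.ord (φ j f') = e * (below (φ j) Q).ord f') ∧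
        e * (below (φ j) Q).ord (h - algebraMap k F t) = E := by
      intro j
      obtain ⟨e, he, h3⟩ := below_spec (φ j) Q
      refine ⟨e, h3, ?_⟩
      rw [← h3, hE]
      congr 1
      rw [map_sub, (φ j).commutes]
      congr 1
      rw [← hgF, hφ]
    choose e he1 he2 using he
    have hmem : ∀ j, below (φ j) Q ∈ S := by
      intro j
      rw [hS]
      have h3 := he2 j
      have h4 := hcnt' Q t hQ' (below (φ j) Q)
      have h5 : 0 < cnt (fun j => below (φ j) Q) (below (φ j) Q) := by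
        unfold cnt
        rw [Finset.card_pos]
        exact ⟨j, by simp⟩
      by_contra hc
      push Not at hc
      rw [max_eq_right hc] at h4
      omega
    have h3 : ∑ j, Q.ord (φ j b) = ∑ P ∈ S, E * P.ord b := by
      rw [← Finset.sum_fiberwise_of_maps_to (s := Finset.univ) (t := S)
        (g := fun j => below (φ j) Q) fun j _ => hmem j]
      apply Finset.sum_congr rfl
      intro P hP
      have h4 : 0 < P.ord (h - algebraMap k F t) := (hS P).1 hP
      have h5 := hcnt' Q t hQ' P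
      rw [max_eq_left h4.le] at h5
      have h6 : ∑ j ∈ Finset.univ.filter (fun j => below (φ j) Q = P), Q.ord (φ j b) =
          (∑ j ∈ Finset.univ.filter (fun j => below (φ j) Q = P), e j) * P.ord b := by
        rw [Finset.sum_mul]
        apply Finset.sum_congr rfl
        intro j hj
        rw [he1, (Finset.mem_filter.1 hj).2]
      have h7 : (∑ j ∈ Finset.univ.filter (fun j => below (φ j) Q = P), e j) = E := by
        apply mul_right_cancel₀ h4.ne'
        rw [Finset.sum_mul]
        have h8 : ∀ j ∈ Finset.univ.filter (fun j => below (φ j) Q = P),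
            e j * P.ord (h - algebraMap k F t) = E := by
          intro j hj
          have := he2 j
          rwa [(Finset.mem_filter.1 hj).2] at this
        rw [Finset.sum_congr rfl h8, Finset.sum_const, nsmul_eq_mul]
        have h9 : ((Finset.univ.filter (fun j => below (φ j) Q = P)).card : ℤ) =
            P.ord (h - algebraMap k F t) := h5
        rw [h9]; ring
      rw [h6, h7]
    rw [h2, h3, ← Finset.mul_sum] at h1
    have hE0 : E ≠ 0 := by omega
    apply mul_left_cancel₀ hE0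
    rw [h1]; ring
  · obtain ⟨c, hc0, hc, -⟩ := hinf Q₀ hQ₀'
    have h1 := (hc.ne_zero hc0).2
    have h2 : Q₀.ord (Y ^ d) = (n.sum fun _ m => m) * Q₀.ord T := by
      have hβ' : algebraMap k L β ≠ 0 := by simpa using hβ
      rw [hYn, Q₀.ord_mul hβ' (rat_ne hT n), Q₀.ord_const hβ, zero_add, ord_rat_pole hT n Q₀ hQ₀']
    rw [Q₀.ord_pow, h1, mul_zero] at h2
    rcases mul_eq_zero.1 h2.symm with h3 | h3
    · exact h3
    · omega

end

section vanish

variable {k : Type} [Field k] [CharZero k] [IsAlgClosed k] {F K : Type} [Field F] [Algebra k F]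
  [IsFF k F] [Field K] [Algebra k K] [IsFF k K] [Algebra F K] [IsScalarTower k F K] {G : Type}
  [Group G] [Fintype G] {a : G →* (K ≃ₐ[k] K)} {ι : Type} [Fintype ι] {W : Type}
  [AddCommGroup W] [Module k W] {χ : G →* kˣ} {Ψ : (ι → Place k K) → W}

/-- an eigenfunctional vanishes at the tuples with a coordinate fixed by `s`, `χ s ≠ 1` -/
lemma vanish_fixed [DecidableEq ι]
    (P2 : ∀ (u : ι → G) x, Ψ (fun i => act a (u i) (x i)) = (((∏ i, χ (u i))⁻¹ : kˣ) : k) • Ψ x)
    {x : ι → Place k K} {i : ι} {s : G} (hs : act a s (x i) = x i) (hχ : χ s ≠ 1) : Ψ x = 0 := by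
  have h1 := P2 (Pi.mulSingle i s) x
  have h2 : (fun j => act a ((Pi.mulSingle i s : ι → G) j) (x j)) = x := by
    ext1 j
    by_cases hj : j = i
    · subst hj; rw [Pi.mulSingle_eq_same, hs]
    · rw [Pi.mulSingle_eq_of_ne hj, act_one]
  have h3 : ∏ j, χ ((Pi.mulSingle i s : ι → G) j) = χ s := by
    rw [Finset.prod_eq_single i]
    · rw [Pi.mulSingle_eq_same (M := fun _ : ι => G) i s]
    · intro j _ hj; rw [Pi.mulSingle_eq_of_ne (M := fun _ : ι => G) hj s, map_one]
    · intro h; exact absurd (Finset.mem_univ i) h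
  rw [h2, h3] at h1
  have h4 : ((1 : k) - (((χ s)⁻¹ : kˣ) : k)) • Ψ x = 0 := by
    rw [sub_smul, one_smul, ← h1, sub_self]
  rcases smul_eq_zero.1 h4 with h5 | h5
  · exfalso
    apply hχ
    rw [sub_eq_zero] at h5
    have h6 : (1 : kˣ) = (χ s)⁻¹ := Units.ext (by simpa using h5)
    rw [← inv_inv (χ s), ← h6, inv_one]
  · exact h5

/-- the same at the tuples with a coordinate over a branch point -/
lemma vanish_branch [DecidableEq ι] (hq : IsQuot a F) {y : K} (hy : y ≠ 0)
    (hya : ∀ s, a s y = algebraMap k K (χ s : k) * y) {d : ℕ} {b : F}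
    (hb : y ^ d = algebraMap F K b)
    (P2 : ∀ (u : ι → G) x, Ψ (fun i => act a (u i) (x i)) = (((∏ i, χ (u i))⁻¹ : kˣ) : k) • Ψ x)
    {x : ι → Place k K} {i : ι} {p : Place k F} {e : ℕ} (hp : Over (x i) p e)
    (hd : ¬ (d : ℤ) ∣ p.ord b) : Ψ x = 0 := by
  by_contra hne
  apply hd
  apply dvd_of_trivial hq hy hya hb hp
  intro s hs
  by_contra hχ
  exact hne (vanish_fixed P2 hs hχ)

lemma vanish_aux [DecidableEq ι] (hq : IsQuot a F) {g : ℕ} (hg : IsGenus k F g) {y : K}
    (hy : y ≠ 0) (hya : ∀ s, a s y = algebraMap k K (χ s : k) * y) {d : ℕ} (hd : 0 < d) {b : F}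
    (hb : y ^ d = algebraMap F K b) {ρ : Type} [Fintype ρ] [DecidableEq ρ] {r : ρ → Place k F}
    (hr : Function.Injective r) {q : ρ → ρ} (h1 : ∀ P, P ∉ Set.range r → (d : ℤ) ∣ P.ord b)
    (h2 : ∀ j, ¬ (d : ℤ) ∣ (r j).ord b)
    (h3 : ∀ i, (d : ℤ) ∣ ∑ j ∈ Finset.univ.filter (fun j => q j = i), (r j).ord b) {m : ℕ}
    (hm : (Finset.univ.filter fun j => q j ≠ j).card = m + 1) (hι : g + m < Fintype.card ι)
    (P1 : ∀ (π : Equiv.Perm ι) x, Ψ (fun i => x (π i)) = Ψ x)
    (P2 : ∀ (u : ι → G) x, Ψ (fun i => act a (u i) (x i)) = (((∏ i, χ (u i))⁻¹ : kˣ) : k) • Ψ x)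
    (P3 : KillsF ((curve (k := k) K).pow ι) Ψ) {x : ι → Place k K} {z : ι → Place k F}
    (hz : ∀ i, ∃ e, Over (x i) (z i) e) (hbz : ∀ i, (z i).ord b = 0) : Ψ x = 0 := by
  classical
  have hzr : ∀ i j, z i ≠ r j := by
    intro i j hij
    apply h2 j
    rw [← hij, hbz]; simp
  obtain ⟨j₀, hj₀⟩ : ∃ j₀, j₀ ∈ Finset.univ.filter fun j => q j ≠ j := by
    apply Finset.Nonempty.exists_mem
    rw [← Finset.card_pos, hm]; omega
  -- the function `h`
  let E := {j : ρ // j ∈ (Finset.univ.filter fun j => q j ≠ j).erase j₀}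
  have hE : Fintype.card E = m := by
    rw [Fintype.card_coe, Finset.card_erase_of_mem hj₀, hm]; rfl
  obtain ⟨h, hh, hpole, hval⟩ := exists_function hg z (fun e : E => r e.1) (fun e : E => r (q e.1))
    (fun e i => hzr i _) (fun e i => hzr i _) (by rw [hE]; exact hι)
  have hreg : ∀ j, Ge (r j) 0 h := by
    intro j
    right
    have h4 := hpole (r j)
    have h5 : cnt z (r j) = 0 := by
      unfold cnt
      rw [Finset.card_eq_zero, Finset.filter_eq_empty_iff]
      intro i _; exact hzr i j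
    rw [h5] at h4
    omega
  have hH : ∀ j, Vl (r j) h (vv (r j) h) := fun j => vv_spec (hreg j)
  have hqH : ∀ j, j ≠ j₀ → vv (r (q j)) h = vv (r j) h := by
    intro j hj
    by_cases hqj : q j = j
    · rw [hqj]
    · obtain ⟨v, hv1, hv2⟩ := hval ⟨j, by
        rw [Finset.mem_erase, Finset.mem_filter]
        exact ⟨hj, Finset.mem_univ _, hqj⟩⟩
      rw [(hH j).unique hv1, (hH (q j)).unique hv2]
  obtain ⟨L, _, _, _, T, Y, κ, s, β, n, hT, hs, hκ, hinf, hfib, hβ, hYn, hn, hn0⟩ :=
    test_curve hq x z hz h hh hpole hy hya hd hb hbz Ψ P1 P2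
  have hmod := norm_mod hr h1 h3 hh hH hqH hn
  have hβ' : algebraMap k L β ≠ 0 := by simpa using hβ
  by_cases hv : vv (r (q j₀)) h = vv (r j₀) h
  · -- the constant case
    obtain ⟨μ, hμ, hμ0⟩ := exists_div hd (fun t => by
      have h4 := hmod t
      rw [hv, sub_self, mul_zero, sub_zero] at h4
      exact h4) hn0
    have hrat := rat_ne hT μ
    have h5 : (Y / rat T μ) ^ d = algebraMap k L β := by
      rw [div_pow, hYn, hμ, rat_nsmul hT]
      field_simp
    obtain ⟨γ, hγ⟩ := const_of_pow hd h5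
    have hγ0 : γ ≠ 0 := by
      rintro rfl
      rw [← hγ, map_zero, zero_pow hd.ne'] at h5
      exact hβ' h5.symm
    refine final_const P3 hT hs hκ hinf hγ0 hμ0 (Y := Y) ?_ (vv (r j₀) h) ?_
    · rw [hγ]; field_simp
    · intro Q hQ
      obtain ⟨i, e, hie⟩ := hfib Q _ hQ (r j₀) (ord_pos_of_vl hh (hH j₀))
      exact vanish_branch hq hy hya hb P2 hie (h2 j₀)
  · -- the other case
    set v₂ := vv (r j₀) h with hv₂
    set v₁ := vv (r (q j₀)) h with hv₁
    set c := (r j₀).ord b with hc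
    have hT1 := sub_ne hT v₁
    have hT2 := sub_ne hT v₂
    have hdiv : ∀ t, (d : ℤ) ∣ (n + (Finsupp.single v₂ (-c) + Finsupp.single v₁ c)) t := by
      intro t
      have h4 := hmod t
      rw [Finsupp.add_apply, Finsupp.add_apply, Finsupp.single_apply, Finsupp.single_apply]
      have h5 : n t + ((if v₂ = t then -c else 0) + (if v₁ = t then c else 0)) =
          n t - c * ((if v₂ = t then 1 else 0) - (if v₁ = t then 1 else 0)) := by
        split_ifs <;> ring
      rw [h5]; exact h4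
    obtain ⟨μ, hμ, hμ0⟩ := exists_div hd hdiv (by
      rw [sm_add, sm_add, sm_single, sm_single, hn0]; ring)
    have hrat := rat_ne hT μ
    set w := (T - algebraMap k L v₂) * (T - algebraMap k L v₁)⁻¹ with hw
    have hw0 : w ≠ 0 := mul_ne_zero hT2 (inv_ne_zero hT1)
    have h5 : rat T n = rat T μ ^ d * w ^ c := by
      have h6 : rat T n * (rat T (Finsupp.single v₂ (-c)) * rat T (Finsupp.single v₁ c)) =
          rat T μ ^ d := by
        rw [← rat_add hT, ← rat_add hT, hμ, rat_nsmul hT]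
      rw [rat_single, rat_single] at h6
      rw [← h6, hw, mul_zpow, inv_zpow, zpow_neg]
      have h7 : (T - algebraMap k L v₂) ^ c ≠ 0 := zpow_ne_zero _ hT2
      have h8 : (T - algebraMap k L v₁) ^ c ≠ 0 := zpow_ne_zero _ hT1
      field_simp
    have h6 : (Y / rat T μ) ^ d = algebraMap k L β * w ^ c := by
      rw [div_pow, hYn, h5]
      field_simp
    obtain ⟨e, τ, γ, ν, he, hν, hγ, hτ, hV⟩ := exists_root hw0 hβ hd (h2 j₀) h6
    refine final_root P3 hT hs hκ hinf hγ hμ0 hv he hν (v₂ := v₂) (v₁ := v₁) hτ ?_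
    have h7 : Y = (Y / rat T μ) * rat T μ := by field_simp
    rw [h7, hV]; ring

/-- **The vanishing theorem**, ramified characters. -/
theorem vanish_ramified [DecidableEq ι] (hq : IsQuot a F) {g : ℕ} (hg : IsGenus k F g) {y : K}
    (hy : y ≠ 0) (hya : ∀ s, a s y = algebraMap k K (χ s : k) * y) {d : ℕ} (hd : 0 < d) {b : F}
    (hb : y ^ d = algebraMap F K b) {ρ : Type} [Fintype ρ] [DecidableEq ρ] {r : ρ → Place k F}
    (hr : Function.Injective r) {q : ρ → ρ} (h1 : ∀ P, P ∉ Set.range r → (d : ℤ) ∣ P.ord b)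
    (h2 : ∀ j, ¬ (d : ℤ) ∣ (r j).ord b)
    (h3 : ∀ i, (d : ℤ) ∣ ∑ j ∈ Finset.univ.filter (fun j => q j = i), (r j).ord b) {m : ℕ}
    (hm : (Finset.univ.filter fun j => q j ≠ j).card = m + 1) (hι : g + m < Fintype.card ι)
    (P1 : ∀ (π : Equiv.Perm ι) x, Ψ (fun i => x (π i)) = Ψ x)
    (P2 : ∀ (u : ι → G) x, Ψ (fun i => act a (u i) (x i)) = (((∏ i, χ (u i))⁻¹ : kˣ) : k) • Ψ x)
    (P3 : KillsF ((curve (k := k) K).pow ι) Ψ) (x : ι → Place k K) : Ψ x = 0 := by
  classical
  have hz : ∀ i, ∃ z : Place k F, ∃ e, Over (x i) z e := by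
    intro i
    obtain ⟨p, e, he, h⟩ := exists_below (IsScalarTower.toAlgHom k F K) (x i)
    exact ⟨p, e, he, h⟩
  choose z hz using hz
  by_cases hbr : ∃ i j, z i = r j
  · obtain ⟨i, j, hij⟩ := hbr
    obtain ⟨e, he⟩ := hz i
    rw [hij] at he
    exact vanish_branch hq hy hya hb P2 he (h2 j)
  push Not at hbr
  obtain ⟨f, hf0, hf⟩ := exists_orders (Finset.univ.image z) (fun P => -(P.ord b / d))
  have hb0 : b ≠ 0 := by
    rintro rfl
    rw [map_zero] at hb
    exact hy ((pow_eq_zero_iff hd.ne').1 hb)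
  have hfK : algebraMap F K f ≠ 0 := by simpa using hf0
  have hord : ∀ P : Place k F, P.ord (b * f ^ d) = P.ord b + d * P.ord f := by
    intro P
    rw [P.ord_mul hb0 (pow_ne_zero _ hf0), P.ord_pow]
  refine vanish_aux hq hg (y := y * algebraMap F K f) (b := b * f ^ d) (mul_ne_zero hy hfK) ?_ hd ?_
    hr (q := q) ?_ ?_ ?_ hm hι P1 P2 P3 hz ?_
  · intro s
    rw [map_mul, hya, hq.1]; ring
  · rw [mul_pow, hb, map_mul, map_pow]
  · intro P hP
    rw [hord]
    exact dvd_add (h1 P hP) (dvd_mul_right _ _)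
  · intro j hj
    rw [hord] at hj
    exact h2 j ((dvd_add_left (dvd_mul_right _ _)).1 hj)
  · intro i
    simp only [hord]
    rw [Finset.sum_add_distrib]
    refine dvd_add (h3 i) (Finset.dvd_sum fun j _ => dvd_mul_right _ _)
  · intro i
    rw [hord, hf (z i) (Finset.mem_image_of_mem _ (Finset.mem_univ i))]
    have h4 : (d : ℤ) ∣ (z i).ord b := h1 _ (by
      rintro ⟨j, hj⟩
      exact hbr i j hj.symm)
    have := Int.mul_ediv_cancel' h4
    linarith

/-- **The vanishing theorem**, trivial character. -/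
theorem vanish_trivial [DecidableEq ι] (hq : IsQuot a F) {g : ℕ} (hg : IsGenus k F g)
    (hι : g < Fintype.card ι)
    (P1 : ∀ (π : Equiv.Perm ι) x, Ψ (fun i => x (π i)) = Ψ x)
    (P2 : ∀ (u : ι → G) x, Ψ (fun i => act a (u i) (x i)) = Ψ x)
    (P3 : KillsF ((curve (k := k) K).pow ι) Ψ) {o : Place k F}
    (P4 : ∀ x i e, Over (x i) o e → Ψ x = 0) (x : ι → Place k K) : Ψ x = 0 := by
  classical
  have hz : ∀ i, ∃ z : Place k F, ∃ e, Over (x i) z e := by
    intro i
    obtain ⟨p, e, he, h⟩ := exists_below (IsScalarTower.toAlgHom k F K) (x i)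
    exact ⟨p, e, he, h⟩
  choose z hz using hz
  by_cases hbr : ∃ i, z i = o
  · obtain ⟨i, hi⟩ := hbr
    obtain ⟨e, he⟩ := hz i
    rw [hi] at he
    exact P4 x i e he
  push Not at hbr
  obtain ⟨h, hh, hpole, -⟩ := exists_function hg z (E := Empty) (fun e => o) (fun e => o)
    (fun e i => hbr i) (fun e i => hbr i) (by simpa using hι)
  have hreg : Ge o 0 h := by
    right
    have h4 := hpole o
    have h5 : cnt z o = 0 := by
      unfold cnt
      rw [Finset.card_eq_zero, Finset.filter_eq_empty_iff]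
      intro i _; exact hbr i
    rw [h5] at h4
    omega
  have hH := vv_spec hreg
  obtain ⟨L, _, _, _, T, Y, κ, s, β, n, hT, hs, hκ, hinf, hfib, hβ, hYn, hn, hn0⟩ :=
    test_curve hq x z hz h hh hpole (χ := 1) (y := 1) one_ne_zero (by simp) (d := 1) one_pos
      (b := 1) (by simp) (fun i => (z i).ord_one) Ψ P1 (fun u x => by
        rw [P2]; simp)
  refine final_const P3 hT hs hκ hinf hβ hn0 (by rw [← hYn, pow_one]) (vv o h) ?_
  intro Q hQ
  obtain ⟨i, e, hie⟩ := hfib Q _ hQ o (ord_pos_of_vl hh hH)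
  exact P4 _ i e hie

end vanish

end Pool.Agent.H25.VN
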