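import Pool.Agent.H25.VN.N3

/-!
# Arbitrary finite groups, linear characters: the number of eigenforms
-/

set_option autoImplicit false
set_option linter.overlappingInstances false
set_option linter.unusedSectionVars false

namespace Pool.Agent.H25.VN

open FF IntermediateField Module Pool.Agent.W603.LV Pool.Agent.W619.PQ Pool.Agent.Q70.CH
open KaehlerDifferential
open Pool.Agent.H25.VO hiding act act_ord act_one act_mul vl_act IsQuot over_act exists_act dvd_of_trivial test_curve vanish_fixed vanish_branch vanish_aux vanish_ramified vanish_trivial Eigenforms exists_pr rank_eigenforms Van Paired paired_number trivial_number one_var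

variable {k : Type} [Field k] [CharZero k] [IsAlgClosed k] {F K : Type} [Field F] [Algebra k F]
  [IsFF k F] [Field K] [Algebra k K] [IsFF k K] [Algebra F K] [IsScalarTower k F K] {G : Type}
  [Group G] [Fintype G] {a : G →* (K ≃ₐ[k] K)}

/-- every symmetric functional on `c + 1` points of the curve which transforms by the linear
character `χ` vanishes (for `χ = 1`: if it vanishes at the tuples with a point over `o`) -/
def Van (a : G →* (K ≃ₐ[k] K)) (χ : G →* kˣ) (c : ℕ) (o : Place k F) : Prop :=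
  ∀ (ι : Type) [Fintype ι] [DecidableEq ι] (W : Type) [AddCommGroup W] [Module k W]
    (Ψ : (ι → Place k K) → W), c < Fintype.card ι →
    (∀ (π : Equiv.Perm ι) x, Ψ (fun i => x (π i)) = Ψ x) →
    (∀ (u : ι → G) x, Ψ (fun i => act a (u i) (x i)) = (((∏ i, χ (u i))⁻¹ : kˣ) : k) • Ψ x) →
    KillsF ((curve (k := k) K).pow ι) Ψ →
    (χ = 1 → ∀ x i e, Over (x i) o e → Ψ x = 0) → ∀ x, Ψ x = 0

/-- `χ` is a *paired* character -/
def Paired (a : G →* (K ≃ₐ[k] K)) (F : Type) [Field F] [Algebra k F] [Algebra F K]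
    (χ : G →* kˣ) : Prop :=
  ∃ (y : K) (d : ℕ) (b : F) (τ : Place k F → Place k F), y ≠ 0 ∧ 0 < d ∧
    y ^ d = algebraMap F K b ∧ (∀ s, a s y = (χ s : k) • y) ∧ (∃ P : Place k F, ¬ (d : ℤ) ∣ P.ord b) ∧
    ∀ P : Place k F, ¬ (d : ℤ) ∣ P.ord b → τ P ≠ P ∧ τ (τ P) = P ∧ (d : ℤ) ∣ P.ord b + (τ P).ord b

theorem paired_number (hq : IsQuot a F) {χ : G →* kˣ} (h : Paired a F χ) :
    ∃ c : ℕ, (∀ o : Place k F, Van a χ c o) ∧ (c : Cardinal) ≤ Module.rank k (Eigenforms a χ) := by
  classical
  obtain ⟨g, hg⟩ := exists_genus k F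
  obtain ⟨y, d, b, τ, hy, hd, hb, hya, ⟨P₀, hP₀⟩, hτ⟩ := h
  have hya' : ∀ s, a s y = algebraMap k K (χ s : k) * y := by
    intro s; rw [hya, Algebra.smul_def]
  have hd' : (0 : ℤ) < d := by exact_mod_cast hd
  -- the branch points
  have hfin : {P : Place k F | ¬ (d : ℤ) ∣ P.ord b}.Finite :=
    (finite_support (k := k) b).subset fun P hP h0 => hP (by
      rw [h0]; exact dvd_zero _)
  let ρ : Type := {P : Place k F // ¬ (d : ℤ) ∣ P.ord b}
  have : Finite ρ := hfin.to_subtype
  have : Fintype ρ := Fintype.ofFinite ρ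
  let t : ρ → ρ := fun P => ⟨τ P.1, fun hc => P.2 ((dvd_add_left hc).1 (hτ P.1 P.2).2.2)⟩
  have ht1 : ∀ P, t P ≠ P := fun P hP => (hτ P.1 P.2).1 (congrArg Subtype.val hP)
  have ht2 : ∀ P, t (t P) = P := fun P => Subtype.ext (hτ P.1 P.2).2.1
  obtain ⟨q, S, hq1, hq2, hq3⟩ := exists_max t ht1 ht2
  have hS : 0 < S.card := by
    rw [Finset.card_pos, Finset.nonempty_iff_ne_empty]
    intro hS
    have := hq3 (fun _ => 1)
    rw [hS, Finset.sum_empty, Finset.sum_const, Finset.card_univ] at this
    have h0 : 0 < Fintype.card ρ := Fintype.card_pos_iff.2 ⟨⟨P₀, hP₀⟩⟩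
    simp at this
    omega
  obtain ⟨m, hm⟩ : ∃ m, S.card = m + 1 := ⟨S.card - 1, by omega⟩
  refine ⟨g + m, ?_, ?_⟩
  · intro o ι _ _ W _ _ Ψ hι P1 P2 P3 _ x
    refine vanish_ramified (ρ := ρ) hq hg hy hya' hd hb (r := Subtype.val) Subtype.val_injective
      (q := q) ?_ ?_ ?_ (m := m) (by rw [hq2, hm]) hι P1 P2 P3 x
    · intro P hP
      by_contra hc
      exact hP ⟨⟨P, hc⟩, rfl⟩
    · intro j; exact j.2
    · intro i
      rcases hq1 i with h | h
      · rw [h, Finset.sum_empty]; exact dvd_zero _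
      · rw [h, Finset.sum_pair (ht1 i).symm]
        exact (hτ i.1 i.2).2.2
  · -- the Chevalley–Weil bound
    have hb0 : b ≠ 0 := by
      rintro rfl
      rw [map_zero] at hb
      exact hy ((pow_eq_zero_iff hd.ne').1 hb)
    let E : Place k F →₀ ℤ := Finsupp.onFinset (finite_support (k := k) b).toFinset
      (fun P => (-P.ord b) / d) (by
        intro P hP
        rw [Set.Finite.mem_toFinset]
        intro h0
        apply hP
        change (-P.ord b) / (d : ℤ) = 0
        rw [h0]; simp)
    have hEdeg : ddeg E = - (m + 1 : ℕ) := by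
      let T : Finset (Place k F) := (finite_support (k := k) b).toFinset
      have hT : ∀ P : Place k F, P.ord b ≠ 0 → P ∈ T := by
        intro P hP
        rw [Set.Finite.mem_toFinset]; exact hP
      have h1 : ddeg E = ∑ P ∈ T, (-P.ord b) / (d : ℤ) := by
        rw [ddeg_eq_sum]
        exact Finsupp.onFinset_sum _ (fun _ => rfl)
      have h2 : (d : ℤ) * ∑ P ∈ T, (-P.ord b) / (d : ℤ) = - ∑ P ∈ T, (-P.ord b) % (d : ℤ) := by
        have h3 : ∑ P ∈ T, P.ord b = 0 := sum_ord_finset b T hT
        have h4 : ∑ P ∈ T, ((d : ℤ) * ((-P.ord b) / (d : ℤ)) + (-P.ord b) % (d : ℤ)) =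
            ∑ P ∈ T, -P.ord b := by
          apply Finset.sum_congr rfl
          intro P _
          exact Int.mul_ediv_add_emod _ _
        rw [Finset.sum_add_distrib, Finset.sum_neg_distrib, h3, ← Finset.mul_sum] at h4
        linarith
      have h3 : ∑ P ∈ T, (-P.ord b) % (d : ℤ) = ∑ j : ρ, (-(j.1).ord b) % (d : ℤ) := by
        rw [← Finset.sum_subtype (T.filter fun P => ¬ (d : ℤ) ∣ P.ord b)
          (p := fun P => ¬ (d : ℤ) ∣ P.ord b) ?_ (fun P => (-P.ord b) % (d : ℤ))]
        · rw [Finset.sum_filter]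
          apply Finset.sum_congr rfl
          intro P _
          split_ifs with hc
          · exact Int.emod_eq_zero_of_dvd ((Int.dvd_neg).2 hc)
          · rfl
        · intro P
          rw [Finset.mem_filter]
          constructor
          · exact fun h => h.2
          · intro h
            exact ⟨hT P (fun h0 => h (by rw [h0]; exact dvd_zero _)), h⟩
      rw [hq3] at h3
      have h4 : ∑ j ∈ S, ((-(j.1).ord b) % (d : ℤ) + (-((t j).1).ord b) % (d : ℤ)) =
          (m + 1 : ℕ) * (d : ℤ) := by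
        rw [← hm, ← nsmul_eq_mul, ← Finset.sum_const]
        apply Finset.sum_congr rfl
        intro j _
        exact emod_pair hd' j.2 (hτ j.1 j.2).2.2
      rw [h4] at h3
      rw [h3, ← h1] at h2
      have h5 : (d : ℤ) * (ddeg E + (m + 1 : ℕ)) = 0 := by rw [mul_add, h2]; ring
      have := (mul_eq_zero.1 h5).resolve_left hd'.ne'
      linarith
    have hyinv : ∀ s, a s y⁻¹ = algebraMap k K (χ⁻¹ s : k) * y⁻¹ := by
      intro s
      rw [map_inv₀, hya', mul_inv, MonoidHom.inv_apply, Units.val_inv_eq_inv_val, map_inv₀]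
    obtain ⟨r, hr1, hr2⟩ := rank_eigenforms hq hg (ψ := χ⁻¹) (inv_ne_zero hy) hyinv E (by
      intro P p e hPe f hf
      rcases eq_or_ne f 0 with rfl | hf0
      · left; rfl
      right
      have hfK : algebraMap F K f ≠ 0 := by simpa using hf0
      have h1 : 0 ≤ P.ord (algebraMap F K f * y⁻¹) := by
        rcases hf with h | h
        · exact absurd h (mul_ne_zero hfK (inv_ne_zero hy))
        · exact h
      have h2 : (d : ℤ) * P.ord (algebraMap F K f * y⁻¹) = e * (d * p.ord f - p.ord b) := by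
        rw [← P.ord_pow, mul_pow, inv_pow, hb, ← map_inv₀, ← map_pow, ← map_mul, hPe.2,
          p.ord_mul (pow_ne_zero _ hf0) (inv_ne_zero hb0), p.ord_pow, p.ord_inv]
        ring
      have h3 : 0 ≤ (e : ℤ) * (d * p.ord f - p.ord b) := by
        rw [← h2]; exact mul_nonneg hd'.le h1
      have h4 : 0 ≤ (d : ℤ) * p.ord f - p.ord b :=
        nonneg_of_mul_nonneg_right h3 (by exact_mod_cast hPe.1)
      change -((-p.ord b) / (d : ℤ)) ≤ p.ord f
      have h5 : -p.ord f ≤ (-p.ord b) / (d : ℤ) := by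
        rw [Int.le_ediv_iff_mul_le hd']
        linarith
      linarith)
    have h0 : χ⁻¹⁻¹ = χ := by
      ext s
      rw [MonoidHom.inv_apply, MonoidHom.inv_apply, _root_.inv_inv]
    rw [h0] at hr1
    refine le_trans ?_ hr1
    rw [hEdeg] at hr2
    push_cast at hr2
    have h1 := ell_nonneg E
    have : g + m ≤ r := by omega
    exact_mod_cast this

theorem trivial_number (hq : IsQuot a F) :
    ∃ c : ℕ, (∀ o : Place k F, Van a 1 c o) ∧ (c : Cardinal) ≤ Module.rank k (Eigenforms a 1) := by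
  classical
  obtain ⟨g, hg⟩ := exists_genus k F
  refine ⟨g, ?_, ?_⟩
  · intro o ι _ _ W _ _ Ψ hι P1 P2 P3 P4 x
    refine vanish_trivial hq hg hι P1 ?_ P3 (P4 rfl) x
    intro u x
    rw [P2]; simp
  · obtain ⟨r, hr1, hr2⟩ := rank_eigenforms hq hg (ψ := 1) (y := 1) one_ne_zero (by simp) 0 (by
      intro P p e hPe f hf
      rcases eq_or_ne f 0 with rfl | hf0
      · left; rfl
      right
      have hfK : algebraMap F K f ≠ 0 := by simpa using hf0
      have h1 : 0 ≤ P.ord (algebraMap F K f * 1) := by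
        rcases hf with h | h
        · exact absurd h (mul_ne_zero hfK one_ne_zero)
        · exact h
      rw [mul_one, hPe.2] at h1
      rw [Finsupp.coe_zero, Pi.zero_apply, neg_zero]
      exact nonneg_of_mul_nonneg_right h1 (by exact_mod_cast hPe.1))
    have h0 : (1 : G →* kˣ)⁻¹ = 1 := by
      ext s
      rw [MonoidHom.inv_apply, MonoidHom.one_apply, _root_.inv_one]
    rw [h0] at hr1
    refine le_trans ?_ hr1
    have h1 := one_le_ell_zero (k := k) (K := F)
    rw [ddeg_zero] at hr2
    have : g ≤ r := by omega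
    exact_mod_cast this


end Pool.Agent.H25.VN
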