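import Pool.Agent.H25.VN.N4

/-!
# The antisymmetrization over a block, for arbitrary transformation rules
-/

set_option autoImplicit false
set_option linter.overlappingInstances false
set_option linter.unusedSectionVars false

namespace Pool.Agent.H25.VN

open FF Pool.Agent.Q70.CH Equiv
open Pool.Agent.H25.VO hiding act act_ord act_one act_mul vl_act IsQuot over_act exists_act dvd_of_trivial test_curve vanish_fixed vanish_branch vanish_aux vanish_ramified vanish_trivial Eigenforms exists_pr rank_eigenforms Van Paired paired_number trivial_number one_var block Eig tw tw_tw tw_isMap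

section vanT

variable {k : Type} [Field k] [CharZero k] {K : Type} [Field K] [Algebra k K]

/-- every symmetric functional on `c + 1` points which transforms by the scalar `t.2` under the
maps `t.1`, `t ∈ T`, and vanishes at the tuples with a point in `Z`, vanishes -/
def VanT (T : Set ((Place k K → Place k K) × kˣ)) (Z : Set (Place k K)) (c : ℕ) : Prop :=
  ∀ (ι : Type) [Fintype ι] [DecidableEq ι] (W : Type) [AddCommGroup W] [Module k W]
    (Ψ : (ι → Place k K) → W), c < Fintype.card ι →
    (∀ (π : Perm ι) x, Ψ (fun i => x (π i)) = Ψ x) →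
    (∀ t ∈ T, ∀ i x, Ψ (Function.update x i (t.1 (x i))) = (t.2 : k) • Ψ x) →
    KillsF ((curve (k := k) K).pow ι) Ψ →
    (∀ x i, x i ∈ Z → Ψ x = 0) → ∀ x, Ψ x = 0

lemma multi {ι α W : Type} [Fintype ι] [DecidableEq ι] [AddCommGroup W] [Module k W]
    (f : ι → α → α) (c : ι → kˣ) (Ψ : (ι → α) → W)
    (h : ∀ i x, Ψ (Function.update x i (f i (x i))) = (c i : k) • Ψ x) (x : ι → α) :
    Ψ (fun i => f i (x i)) = ((∏ i, c i : kˣ) : k) • Ψ x := by
  classical
  suffices key : ∀ S : Finset ι, Ψ (fun i => if i ∈ S then f i (x i) else x i) =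
      ((∏ i ∈ S, c i : kˣ) : k) • Ψ x by
    have := key Finset.univ
    simpa using this
  intro S
  induction S using Finset.induction_on with
  | empty => simp
  | insert a S ha ih =>
    have h1 := h a (fun i => if i ∈ S then f i (x i) else x i)
    rw [ih] at h1
    rw [Finset.prod_insert ha, Units.val_mul, mul_smul, ← h1]
    congr 1
    ext1 j
    by_cases hj : j = a
    · subst hj
      rw [Function.update_self, if_pos (Finset.mem_insert_self _ _), if_neg ha]
    · rw [Function.update_of_ne hj]
      by_cases hjS : j ∈ S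
      · rw [if_pos hjS, if_pos (Finset.mem_insert_of_mem hjS)]
      · rw [if_neg hjS, if_neg]
        intro hc
        rcases Finset.mem_insert.1 hc with h2 | h2
        · exact hj h2
        · exact hjS h2

variable {F : Type} [Field F] [Algebra k F] [Algebra F K] [IsScalarTower k F K] {G : Type}
  [Group G]

/-- the transformation rules of a linear character -/
def rules (a : G →* (K ≃ₐ[k] K)) (χ : G →* kˣ) : Set ((Place k K → Place k K) × kˣ) :=
  {t | ∃ u : G, t = (act a u, (χ u)⁻¹)}

/-- the normalization for the trivial character -/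
def zeros' (χ : G →* kˣ) (o : Place k F) : Set (Place k K) :=
  {P | χ = 1 ∧ ∃ e, Over P o e}

lemma Van.toT {a : G →* (K ≃ₐ[k] K)} {χ : G →* kˣ} {c : ℕ} {o : Place k F} (V : Van a χ c o) :
    VanT (rules a χ) (zeros' χ o) c := by
  intro ι _ _ W _ _ Ψ hι P1 P2 P3 P4 x
  refine V ι W Ψ hι P1 ?_ P3 ?_ x
  · intro u x
    have h1 := multi (fun i => act a (u i)) (fun i => (χ (u i))⁻¹) Ψ
      (fun i x => P2 (act a (u i), (χ (u i))⁻¹) ⟨u i, rfl⟩ i x) x
    rw [Finset.prod_inv_distrib] at h1
    exact h1
  · intro hχ x i e he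
    exact P4 x i ⟨hχ, e, he⟩

/-- symmetrization in some coordinates -/
lemma one_varT {T : Set ((Place k K → Place k K) × kˣ)} {Z : Set (Place k K)} {c : ℕ}
    (V : VanT T Z c) {Zs : Sp k} {W : Type} [AddCommGroup W] [Module k W] {Θ : Zs.pts → W}
    (hΘ : KillsF Zs Θ) {ι : Type} [Fintype ι] [DecidableEq ι] (hι : c < Fintype.card ι)
    (ins : (ι → Place k K) → Zs.pts) (hins : IsMap ((curve (k := k) K).pow ι) Zs ins)
    (h2 : ∀ t ∈ T, ∀ i x, Θ (ins (Function.update x i (t.1 (x i)))) = (t.2 : k) • Θ (ins x))
    (h4 : ∀ x i, x i ∈ Z → Θ (ins x) = 0) (x : ι → Place k K) :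
    ∑ ρ : Perm ι, Θ (ins fun i => x (ρ i)) = 0 := by
  refine V ι W (fun x => ∑ ρ : Perm ι, Θ (ins fun i => x (ρ i))) hι ?_ ?_ ?_ ?_ x
  · intro π x
    exact Fintype.sum_equiv (Equiv.mulLeft π) _ _ fun ρ => rfl
  · intro t ht i x
    rw [Finset.smul_sum]
    apply Finset.sum_congr rfl
    intro ρ _
    have h3 : (fun j => Function.update x i (t.1 (x i)) (ρ j)) =
        Function.update (fun j => x (ρ j)) (ρ.symm i) (t.1 ((fun j => x (ρ j)) (ρ.symm i))) := by
      ext1 j
      by_cases hj : j = ρ.symm i
      · subst hj
        rw [Function.update_self, Equiv.apply_symm_apply, Function.update_self]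
        show t.1 (x i) = t.1 (x (ρ (ρ.symm i)))
        rw [Equiv.apply_symm_apply]
      · rw [Function.update_of_ne hj, Function.update_of_ne]
        intro hc
        apply hj
        rw [← hc, Equiv.symm_apply_apply]
    rw [h3]
    exact h2 t ht _ _
  · apply KillsF.sum
    intro ρ _
    exact (hΘ.comp hins).comp (isMap_reindex (curve K) ρ)
  · intro x i hi
    apply Finset.sum_eq_zero
    intro ρ _
    exact h4 _ (ρ.symm i) (by rw [Equiv.apply_symm_apply]; exact hi)

end vanT

section main

variable {k : Type} [Field k] [CharZero k] {K₁ K₂ : Type} [Field K₁] [Algebra k K₁] [Field K₂]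
  [Algebra k K₂] {n : ℕ} {W : Type} [AddCommGroup W] [Module k W]

/-- the antisymmetrization over a large block -/
lemma blockT [Module ℚ W] {Θ : (Fin n → Place k K₁ × Place k K₂) → W}
    (hΘ : KillsF (PP k K₁ K₂ n) Θ) {P : Finset (Fin n)}
    {T₁ : Set ((Place k K₁ → Place k K₁) × kˣ)} {Z₁ : Set (Place k K₁)} {c₁ : ℕ}
    {T₂ : Set ((Place k K₂ → Place k K₂) × kˣ)} {Z₂ : Set (Place k K₂)} {c₂ : ℕ}
    (V1 : VanT T₁ Z₁ c₁) (V2 : VanT T₂ Z₂ c₂)
    (e1 : ∀ t ∈ T₁, ∀ i ∈ P, ∀ v, Θ (Function.update v i (t.1 (v i).1, (v i).2)) =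
      (t.2 : k) • Θ v)
    (e2 : ∀ t ∈ T₂, ∀ i ∈ P, ∀ v, Θ (Function.update v i ((v i).1, t.1 (v i).2)) =
      (t.2 : k) • Θ v)
    (z1 : ∀ i ∈ P, ∀ v : Fin n → Place k K₁ × Place k K₂, (v i).1 ∈ Z₁ → Θ v = 0)
    (z2 : ∀ i ∈ P, ∀ v : Fin n → Place k K₁ × Place k K₂, (v i).2 ∈ Z₂ → Θ v = 0)
    (hcard : c₁ * c₂ < P.card) (w : Fin n → Place k K₁ × Place k K₂) :
    ∑ ρ : Perm P, ((Perm.sign ρ : ℤ) : ℚ) • Θ (fun i => w (Perm.ofSubtype ρ i)) = 0 := by
  classical
  have key := two_var_fin (ι := P) c₁ c₂ (by rw [Fintype.card_coe]; exact hcard)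
    (fun σ τ => Θ (insB P w (fun p => (w (σ p)).1) (fun p => (w (τ p)).2)))
    (by
      intro σ τ P₀ hP₀
      let ins : (P₀ → Place k K₁) → (Fin n → Place k K₁ × Place k K₂) := fun ζ =>
        insB P w (fun p => if h : p ∈ P₀ then ζ ⟨p, h⟩ else (w (σ p)).1) (fun p => (w (τ p)).2)
      have h3 : ∀ x (i : P₀) y, ins (Function.update x i y) =
          Function.update (ins x) i.1.1 (y, (ins x i.1.1).2) := by
        intro x i y
        ext1 l
        by_cases hl : l = i.1.1
        · subst hl
          rw [Function.update_self]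
          simp only [ins, insB, dif_pos i.1.2]
          rw [dif_pos i.2]
          congr 1
          exact Function.update_self _ _ _
        · rw [Function.update_of_ne hl]
          simp only [ins, insB]
          by_cases hlP : l ∈ P
          · simp only [dif_pos hlP]
            by_cases hl0 : (⟨l, hlP⟩ : P) ∈ P₀
            · simp only [dif_pos hl0]
              rw [Function.update_of_ne]
              intro hc
              apply hl
              rw [← hc]
            · simp only [dif_neg hl0]
          · simp only [dif_neg hlP]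
      have h1 := one_varT V1 hΘ (ι := P₀) (by rw [Fintype.card_coe, hP₀]; omega) ins ?_ ?_ ?_
        (fun p => (w (σ p)).1)
      · rw [← h1]
        apply Finset.sum_congr rfl
        intro ρ _
        congr 1
        simp only [ins]
        congr 1
        ext1 p
        by_cases hp : p ∈ P₀
        · rw [dif_pos hp, Perm.mul_apply, Perm.ofSubtype_apply_of_mem _ hp]
        · rw [dif_neg hp, Perm.mul_apply, Perm.ofSubtype_apply_of_not_mem _ hp]
      · intro B _ _ _ s hs i
        simp only [ins, insB]
        by_cases hi : i ∈ P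
        · simp only [dif_pos hi]
          refine ⟨?_, curve_const _ _ _⟩
          by_cases hi' : (⟨i, hi⟩ : P) ∈ P₀
          · simp only [dif_pos hi']
            exact hs ⟨⟨i, hi⟩, hi'⟩
          · simp only [dif_neg hi']
            exact curve_const _ _ _
        · simp only [dif_neg hi]
          exact ⟨curve_const _ _ _, curve_const _ _ _⟩
      · intro t ht i x
        rw [h3, ← e1 t ht i.1.1 i.1.2 (ins x)]
        congr 2
        have h5 : (ins x i.1.1).1 = x i := by
          simp only [ins, insB, dif_pos i.1.2]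
          rw [dif_pos i.2]
        rw [h5]
      · intro x i hi
        apply z1 i.1.1 i.1.2
        have h5 : (ins x i.1.1).1 = x i := by
          simp only [ins, insB, dif_pos i.1.2]
          rw [dif_pos i.2]
        rw [h5]; exact hi)
    (by
      intro σ τ P₀ hP₀
      let ins : (P₀ → Place k K₂) → (Fin n → Place k K₁ × Place k K₂) := fun ζ =>
        insB P w (fun p => (w (σ p)).1) (fun p => if h : p ∈ P₀ then ζ ⟨p, h⟩ else (w (τ p)).2)
      have h3 : ∀ x (i : P₀) y, ins (Function.update x i y) =
          Function.update (ins x) i.1.1 ((ins x i.1.1).1, y) := by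
        intro x i y
        ext1 l
        by_cases hl : l = i.1.1
        · subst hl
          rw [Function.update_self]
          simp only [ins, insB, dif_pos i.1.2]
          rw [dif_pos i.2]
          congr 1
          exact Function.update_self _ _ _
        · rw [Function.update_of_ne hl]
          simp only [ins, insB]
          by_cases hlP : l ∈ P
          · simp only [dif_pos hlP]
            by_cases hl0 : (⟨l, hlP⟩ : P) ∈ P₀
            · simp only [dif_pos hl0]
              rw [Function.update_of_ne]
              intro hc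
              apply hl
              rw [← hc]
            · simp only [dif_neg hl0]
          · simp only [dif_neg hlP]
      have h1 := one_varT V2 hΘ (ι := P₀) (by rw [Fintype.card_coe, hP₀]; omega) ins ?_ ?_ ?_
        (fun p => (w (τ p)).2)
      · rw [← h1]
        apply Finset.sum_congr rfl
        intro ρ _
        congr 1
        simp only [ins]
        congr 1
        ext1 p
        by_cases hp : p ∈ P₀
        · rw [dif_pos hp, Perm.mul_apply, Perm.ofSubtype_apply_of_mem _ hp]
        · rw [dif_neg hp, Perm.mul_apply, Perm.ofSubtype_apply_of_not_mem _ hp]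
      · intro B _ _ _ s hs i
        simp only [ins, insB]
        by_cases hi : i ∈ P
        · simp only [dif_pos hi]
          refine ⟨curve_const _ _ _, ?_⟩
          by_cases hi' : (⟨i, hi⟩ : P) ∈ P₀
          · simp only [dif_pos hi']
            exact hs ⟨⟨i, hi⟩, hi'⟩
          · simp only [dif_neg hi']
            exact curve_const _ _ _
        · simp only [dif_neg hi]
          exact ⟨curve_const _ _ _, curve_const _ _ _⟩
      · intro t ht i x
        rw [h3, ← e2 t ht i.1.1 i.1.2 (ins x)]
        congr 2
        have h5 : (ins x i.1.1).2 = x i := by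
          simp only [ins, insB, dif_pos i.1.2]
          rw [dif_pos i.2]
        rw [h5]
      · intro x i hi
        apply z2 i.1.1 i.1.2
        have h5 : (ins x i.1.1).2 = x i := by
          simp only [ins, insB, dif_pos i.1.2]
          rw [dif_pos i.2]
        rw [h5]; exact hi)
  rw [← key]
  apply Finset.sum_congr rfl
  intro ρ _
  congr 2
  ext1 i
  simp only [insB]
  by_cases hi : i ∈ P
  · rw [dif_pos hi, Perm.ofSubtype_apply_of_mem _ hi]
  · rw [dif_neg hi, Perm.ofSubtype_apply_of_not_mem _ hi]

end main

end Pool.Agent.H25.VN
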