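import Pool.Agent.H25.VN.N5
import Pool.Agent.H25.VO.V12

/-!
# The decomposition of an invariant functional along monomial characters
-/

set_option autoImplicit false
set_option linter.overlappingInstances false
set_option linter.unusedSectionVars false

namespace Pool.Agent.H25.VN

open FF Pool.Agent.Q70.CH Equiv TensorProduct
open Pool.Agent.H25.VO hiding act act_ord act_one act_mul vl_act IsQuot over_act exists_act dvd_of_trivial test_curve vanish_fixed vanish_branch vanish_aux vanish_ramified vanish_trivial Eigenforms exists_pr rank_eigenforms Van Paired paired_number trivial_number one_var block Eig tw tw_tw tw_isMap act_mor sum_coord cf cf_mul_left cf_mul_right PhiK phiK_eig sum_cf sum_phiK prod_mulSingle rep rep_isMap voisin_core voisin_quotient act₂ orb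

section tw

variable {k : Type} [Field k] [CharZero k] {K₁ K₂ : Type} [Field K₁] [Algebra k K₁] [Field K₂]
  [Algebra k K₂] {G : Type} [Group G] {n : ℕ}

lemma act_mor {K : Type} [Field K] [Algebra k K] {a : G →* (K ≃ₐ[k] K)} (u : G) {B : Type}
    [Field B] [Algebra k B] {s : Place k B → Place k K}
    (hs : s ∈ (curve (k := k) K).mor B) : (fun Q => act a u (s Q)) ∈ (curve (k := k) K).mor B := by
  rcases hs with ⟨P, hP⟩ | ⟨φ, hφ⟩
  · left
    exact ⟨act a u P, fun Q => congrArg (act a u) (hP Q)⟩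
  · right
    refine ⟨φ.comp (a u : K →ₐ[k] K), fun Q => ?_⟩
    obtain ⟨e, he, h⟩ := hφ Q
    exact ⟨e, he, fun f => h (a u f)⟩

/-- the action of `s` on the first and of `t` on the second coordinates -/
noncomputable def tw (a₁ : G →* (K₁ ≃ₐ[k] K₁)) (a₂ : G →* (K₂ ≃ₐ[k] K₂)) (s t : Fin n → G)
    (v : Fin n → Place k K₁ × Place k K₂) : Fin n → Place k K₁ × Place k K₂ :=
  fun i => (act a₁ (s i) (v i).1, act a₂ (t i) (v i).2)

variable {a₁ : G →* (K₁ ≃ₐ[k] K₁)} {a₂ : G →* (K₂ ≃ₐ[k] K₂)}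

lemma tw_tw (s t s' t' : Fin n → G) (v : Fin n → Place k K₁ × Place k K₂) :
    tw a₁ a₂ s t (tw a₁ a₂ s' t' v) = tw a₁ a₂ (s' * s) (t' * t) v := by
  ext1 i
  simp only [tw, Pi.mul_apply, act_mul]

lemma tw_one (v : Fin n → Place k K₁ × Place k K₂) : tw a₁ a₂ 1 1 v = v := by
  ext1 i
  simp only [tw, Pi.one_apply, act_one]

lemma tw_isMap (s t : Fin n → G) : IsMap (PP k K₁ K₂ n) (PP k K₁ K₂ n) (tw a₁ a₂ s t) :=
  fun _ _ _ _ _ hs i => ⟨act_mor (s i) (hs i).1, act_mor (t i) (hs i).2⟩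

lemma tw_single₁ (i : Fin n) (u : G) (v : Fin n → Place k K₁ × Place k K₂) :
    tw a₁ a₂ (Pi.mulSingle i u) 1 v = Function.update v i (act a₁ u (v i).1, (v i).2) := by
  ext1 j
  by_cases hj : j = i
  · subst hj
    rw [Function.update_self]
    simp only [tw, Pi.mulSingle_eq_same, Pi.one_apply, act_one]
  · rw [Function.update_of_ne hj]
    simp only [tw, Pi.mulSingle_eq_of_ne hj, Pi.one_apply, act_one]

lemma tw_single₂ (i : Fin n) (u : G) (v : Fin n → Place k K₁ × Place k K₂) :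
    tw a₁ a₂ 1 (Pi.mulSingle i u) v = Function.update v i ((v i).1, act a₂ u (v i).2) := by
  ext1 j
  by_cases hj : j = i
  · subst hj
    rw [Function.update_self]
    simp only [tw, Pi.mulSingle_eq_same, Pi.one_apply, act_one]
  · rw [Function.update_of_ne hj]
    simp only [tw, Pi.mulSingle_eq_of_ne hj, Pi.one_apply, act_one]

end tw

section sumcoord

/-- averaging in one coordinate -/
lemma sum_coord (k : Type) [Field k] [CharZero k] {G : Type} [Group G] [Fintype G] {n : ℕ}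
    {W : Type} [AddCommGroup W] [Module k W] (f : (Fin n → G) → W) (i : Fin n)
    (h : ∀ s : Fin n → G, ∑ g : G, f (s * Pi.mulSingle i g) = 0) : ∑ s : Fin n → G, f s = 0 := by
  classical
  have h1 : ∀ g : G, ∑ s : Fin n → G, f (s * Pi.mulSingle i g) = ∑ s : Fin n → G, f s := by
    intro g
    exact Fintype.sum_equiv (Equiv.mulRight (Pi.mulSingle i g)) _ _ fun s => rfl
  have h2 : (Fintype.card G : k) • ∑ s : Fin n → G, f s = 0 := by
    rw [Nat.cast_smul_eq_nsmul, ← Finset.card_univ, ← Finset.sum_const]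
    rw [Finset.sum_congr rfl fun g _ => (h1 g).symm, Finset.sum_comm]
    exact Finset.sum_eq_zero fun s _ => h s
  rcases smul_eq_zero.1 h2 with h3 | h3
  · exact absurd h3 (by exact_mod_cast Fintype.card_ne_zero)
  · exact h3

end sumcoord

section psi

variable {k : Type} [Field k] [CharZero k] {K₁ K₂ : Type} [Field K₁] [Algebra k K₁] [Field K₂]
  [Algebra k K₂] {G : Type} [Group G] {n : ℕ} {W : Type} [AddCommGroup W] [Module k W]
  {J : Type} {H : J → Subgroup G} (χ : ∀ j, H j →* kˣ)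

open Classical in
/-- a linear character of a subgroup, extended by zero -/
noncomputable def wt (j : J) (s : G) : k := if h : s ∈ H j then (χ j ⟨s, h⟩ : k) else 0

variable {χ}

lemma wt_mul_left {j : J} (u : H j) (s : G) : wt χ j (u * s) = (χ j u : k) * wt χ j s := by
  unfold wt
  by_cases h : s ∈ H j
  · have h' : (u : G) * s ∈ H j := (H j).mul_mem u.2 h
    rw [dif_pos h, dif_pos h', ← Units.val_mul, ← map_mul]
    rfl
  · rw [dif_neg h, dif_neg, mul_zero]
    intro h'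
    apply h
    have := (H j).mul_mem ((H j).inv_mem u.2) h'
    rwa [inv_mul_cancel_left] at this

lemma wt_mul_right {j : J} (u : H j) (s : G) : wt χ j (s * u) = wt χ j s * (χ j u : k) := by
  unfold wt
  by_cases h : s ∈ H j
  · have h' : s * (u : G) ∈ H j := (H j).mul_mem h u.2
    rw [dif_pos h, dif_pos h', ← Units.val_mul, ← map_mul]
    rfl
  · rw [dif_neg h, dif_neg, zero_mul]
    intro h'
    apply h
    have := (H j).mul_mem h' ((H j).inv_mem u.2)
    rwa [mul_inv_cancel_right] at this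

lemma wt_top {j : J} (h1 : χ j = 1) (h2 : H j = ⊤) (s : G) : wt χ j s = 1 := by
  unfold wt
  rw [dif_pos (by rw [h2]; trivial), h1, MonoidHom.one_apply, Units.val_one]

lemma wt_prod_left (L : Fin n → J) (i : Fin n) (u : H (L i)) (s : Fin n → G) :
    ∏ l, wt χ (L l) (((Pi.mulSingle i (u : G) : Fin n → G) * s) l) =
      (χ (L i) u : k) * ∏ l, wt χ (L l) (s l) := by
  classical
  rw [← Finset.mul_prod_erase _ _ (Finset.mem_univ i), ← Finset.mul_prod_erase
    (Finset.univ : Finset (Fin n)) (fun l => wt χ (L l) (s l)) (Finset.mem_univ i), Pi.mul_apply,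
    Pi.mulSingle_eq_same, wt_mul_left, mul_assoc]
  congr 2
  apply Finset.prod_congr rfl
  intro l hl
  rw [Pi.mul_apply, Pi.mulSingle_eq_of_ne (Finset.ne_of_mem_erase hl), one_mul]

lemma wt_prod_right (L : Fin n → J) (i : Fin n) (u : H (L i)) (s : Fin n → G) :
    ∏ l, wt χ (L l) ((s * (Pi.mulSingle i (u : G) : Fin n → G)) l) =
      (χ (L i) u : k) * ∏ l, wt χ (L l) (s l) := by
  classical
  rw [← Finset.mul_prod_erase _ _ (Finset.mem_univ i), ← Finset.mul_prod_erase
    (Finset.univ : Finset (Fin n)) (fun l => wt χ (L l) (s l)) (Finset.mem_univ i), Pi.mul_apply,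
    Pi.mulSingle_eq_same, wt_mul_right, mul_comm (wt χ (L i) (s i)) _, mul_assoc]
  congr 2
  apply Finset.prod_congr rfl
  intro l hl
  rw [Pi.mul_apply, Pi.mulSingle_eq_of_ne (Finset.ne_of_mem_erase hl), mul_one]

lemma wt_prod_top (L : Fin n → J) (i : Fin n) (h1 : χ (L i) = 1) (h2 : H (L i) = ⊤) (g : G)
    (s : Fin n → G) :
    ∏ l, wt χ (L l) ((s * (Pi.mulSingle i g : Fin n → G)) l) = ∏ l, wt χ (L l) (s l) := by
  classical
  apply Finset.prod_congr rfl
  intro l _
  by_cases hl : l = i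
  · subst hl
    rw [wt_top h1 h2, wt_top h1 h2]
  · rw [Pi.mul_apply, Pi.mulSingle_eq_of_ne hl, mul_one]

variable [Fintype G]

/-- the part of an invariant functional belonging to the characters `χ (L i)` -/
noncomputable def Psi (χ : ∀ j, H j →* kˣ) (a₁ : G →* (K₁ ≃ₐ[k] K₁)) (a₂ : G →* (K₂ ≃ₐ[k] K₂))
    (Φ : (Fin n → Place k K₁ × Place k K₂) → W) (L : Fin n → J)
    (v : Fin n → Place k K₁ × Place k K₂) : W := by
  classical
  exact ∑ s : Fin n → G, (∏ l, wt χ (L l) (s l)) • Φ (tw a₁ a₂ s 1 v)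

variable {a₁ : G →* (K₁ ≃ₐ[k] K₁)} {a₂ : G →* (K₂ ≃ₐ[k] K₂)}
  {Φ : (Fin n → Place k K₁ × Place k K₂) → W}

lemma psi_kills (hΦ : KillsF (PP k K₁ K₂ n) Φ) (L : Fin n → J) :
    KillsF (PP k K₁ K₂ n) (Psi χ a₁ a₂ Φ L) := by
  classical
  unfold Psi
  apply KillsF.sum
  intro s _
  exact (hΦ.comp (tw_isMap s 1)).smul _

lemma psi_e1 (L : Fin n → J) (i : Fin n) (u : H (L i)) (v : Fin n → Place k K₁ × Place k K₂) :
    Psi χ a₁ a₂ Φ L (Function.update v i (act a₁ (u : G) (v i).1, (v i).2)) =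
      (((χ (L i) u)⁻¹ : kˣ) : k) • Psi χ a₁ a₂ Φ L v := by
  classical
  rw [← tw_single₁]
  unfold Psi
  rw [Finset.smul_sum]
  refine Fintype.sum_equiv (Equiv.mulLeft (Pi.mulSingle i (u : G))) _ _ fun s => ?_
  rw [Equiv.coe_mulLeft, wt_prod_left, tw_tw, smul_smul, one_mul, ← mul_assoc, Units.inv_mul,
    one_mul]

lemma psi_e2 (hinv : ∀ g v, Φ (tw a₁ a₂ g g v) = Φ v) (L : Fin n → J) (i : Fin n) (u : H (L i))
    (v : Fin n → Place k K₁ × Place k K₂) :
    Psi χ a₁ a₂ Φ L (Function.update v i ((v i).1, act a₂ (u : G) (v i).2)) =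
      ((χ (L i) u : kˣ) : k) • Psi χ a₁ a₂ Φ L v := by
  classical
  rw [← tw_single₂]
  unfold Psi
  rw [Finset.smul_sum]
  symm
  refine Fintype.sum_equiv (Equiv.mulRight (Pi.mulSingle i (u : G))) _ _ fun s => ?_
  rw [Equiv.coe_mulRight, wt_prod_right, smul_smul]
  congr 1
  rw [tw_tw, one_mul, mul_one, ← hinv (Pi.mulSingle i (u : G)) (tw a₁ a₂ s 1 v), tw_tw, one_mul]

lemma psi_z1 {p₁ : Place k K₁}
    (n1 : ∀ (v : Fin n → Place k K₁ × Place k K₂) i,
      ∑ g : G, Φ (Function.update v i (act a₁ g p₁, (v i).2)) = 0)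
    (L : Fin n → J) (i : Fin n) (h1 : χ (L i) = 1) (h2 : H (L i) = ⊤)
    (v : Fin n → Place k K₁ × Place k K₂) {u₀ : G} (hv : (v i).1 = act a₁ u₀ p₁) :
    Psi χ a₁ a₂ Φ L v = 0 := by
  classical
  unfold Psi
  apply sum_coord k _ i
  intro s
  have h3 : ∀ g : G, (∏ l, wt χ (L l) ((s * (Pi.mulSingle i g : Fin n → G)) l)) •
      Φ (tw a₁ a₂ (s * Pi.mulSingle i g) 1 v) = (∏ l, wt χ (L l) (s l)) •
      Φ (Function.update (tw a₁ a₂ s 1 v) i (act a₁ (u₀ * s i * g) p₁, (tw a₁ a₂ s 1 v i).2)) := by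
    intro g
    rw [wt_prod_top L i h1 h2]
    congr 2
    ext1 j
    by_cases hj : j = i
    · subst hj
      rw [Function.update_self]
      simp only [tw]
      congr 1
      rw [Pi.mul_apply, Pi.mulSingle_eq_same, hv, ← act_mul, mul_assoc]
    · rw [Function.update_of_ne hj]
      simp only [tw]
      rw [Pi.mul_apply, Pi.mulSingle_eq_of_ne hj, mul_one]
  rw [Finset.sum_congr rfl fun g _ => h3 g, ← Finset.smul_sum]
  have h4 : ∑ g : G, Φ (Function.update (tw a₁ a₂ s 1 v) i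
      (act a₁ (u₀ * s i * g) p₁, (tw a₁ a₂ s 1 v i).2)) =
      ∑ g : G, Φ (Function.update (tw a₁ a₂ s 1 v) i (act a₁ g p₁, (tw a₁ a₂ s 1 v i).2)) :=
    Fintype.sum_equiv (Equiv.mulLeft (u₀ * s i)) _ _ fun g => rfl
  rw [h4, n1, smul_zero]

lemma psi_z2 (hinv : ∀ g v, Φ (tw a₁ a₂ g g v) = Φ v) {p₂ : Place k K₂}
    (n2 : ∀ (v : Fin n → Place k K₁ × Place k K₂) i,
      ∑ g : G, Φ (Function.update v i ((v i).1, act a₂ g p₂)) = 0)
    (L : Fin n → J) (i : Fin n) (h1 : χ (L i) = 1) (h2 : H (L i) = ⊤)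
    (v : Fin n → Place k K₁ × Place k K₂) {u₀ : G} (hv : (v i).2 = act a₂ u₀ p₂) :
    Psi χ a₁ a₂ Φ L v = 0 := by
  classical
  unfold Psi
  apply sum_coord k _ i
  intro s
  have h3 : ∀ g : G, (∏ l, wt χ (L l) ((s * (Pi.mulSingle i g : Fin n → G)) l)) •
      Φ (tw a₁ a₂ (s * Pi.mulSingle i g) 1 v) = (∏ l, wt χ (L l) (s l)) •
      Φ (Function.update (tw a₁ a₂ s 1 v) i ((tw a₁ a₂ s 1 v i).1, act a₂ (u₀ * g⁻¹) p₂)) := by
    intro g
    rw [wt_prod_top L i h1 h2]
    congr 1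
    have h5 := hinv (Pi.mulSingle i g) (tw a₁ a₂ s (Pi.mulSingle i g)⁻¹ v)
    rw [tw_tw, inv_mul_cancel] at h5
    rw [h5]
    congr 1
    ext1 j
    by_cases hj : j = i
    · subst hj
      rw [Function.update_self]
      simp only [tw]
      congr 1
      rw [Pi.inv_apply, Pi.mulSingle_eq_same, hv, ← act_mul]
    · rw [Function.update_of_ne hj]
      simp only [tw]
      rw [Pi.inv_apply, Pi.mulSingle_eq_of_ne hj, inv_one, Pi.one_apply]
  rw [Finset.sum_congr rfl fun g _ => h3 g, ← Finset.smul_sum]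
  have h4 : ∑ g : G, Φ (Function.update (tw a₁ a₂ s 1 v) i
      ((tw a₁ a₂ s 1 v i).1, act a₂ (u₀ * g⁻¹) p₂)) =
      ∑ g : G, Φ (Function.update (tw a₁ a₂ s 1 v) i ((tw a₁ a₂ s 1 v i).1, act a₂ g p₂)) :=
    Fintype.sum_equiv ((Equiv.inv G).trans (Equiv.mulLeft u₀)) _ _ fun g => rfl
  rw [h4, n2, smul_zero]

/-- the parts of an invariant functional add up to the functional -/
lemma sum_psi [Fintype J] (hinv : ∀ g v, Φ (tw a₁ a₂ g g v) = Φ v) (c : J → k) (N : k)
    [DecidableEq G] (hc : ∀ s : G, ∑ j, ∑ γ : G, c j * wt χ j (γ⁻¹ * s * γ) = if s = 1 then N else 0)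
    (v : Fin n → Place k K₁ × Place k K₂) :
    ∑ L : Fin n → J, ∑ g : Fin n → G, (∏ l, c (L l)) • Psi χ a₁ a₂ Φ L (tw a₁ a₂ g g v) =
      N ^ n • Φ v := by
  classical
  have h1 : ∀ (L : Fin n → J) (g : Fin n → G), Psi χ a₁ a₂ Φ L (tw a₁ a₂ g g v) =
      ∑ s : Fin n → G, (∏ l, wt χ (L l) ((g l)⁻¹ * s l * g l)) • Φ (tw a₁ a₂ s 1 v) := by
    intro L g
    unfold Psi
    refine Fintype.sum_equiv (MulAut.conj g).toEquiv _ _ fun s => ?_
    have h2 : (MulAut.conj g).toEquiv s = g * s * g⁻¹ := rfl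
    rw [h2]
    have h3 := hinv g (tw a₁ a₂ (g * s * g⁻¹) 1 v)
    rw [tw_tw, one_mul, inv_mul_cancel_right] at h3
    rw [tw_tw, mul_one, h3]
    congr 1
    apply Finset.prod_congr rfl
    intro l _
    congr 1
    simp only [Pi.mul_apply, Pi.inv_apply]
    group
  have h2 : ∀ s : Fin n → G, ∑ L : Fin n → J, ∑ g : Fin n → G,
      ((∏ l, c (L l)) * ∏ l, wt χ (L l) ((g l)⁻¹ * s l * g l)) =
      if s = 1 then N ^ n else 0 := by
    intro s
    have h3 := Finset.prod_univ_sum (fun _ : Fin n => (Finset.univ : Finset J))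
      (fun l j => ∑ γ : G, c j * wt χ j (γ⁻¹ * s l * γ))
    rw [Fintype.piFinset_univ] at h3
    have h4 : ∀ L : Fin n → J, ∏ l, ∑ γ : G, c (L l) * wt χ (L l) (γ⁻¹ * s l * γ) =
        ∑ g : Fin n → G, ((∏ l, c (L l)) * ∏ l, wt χ (L l) ((g l)⁻¹ * s l * g l)) := by
      intro L
      have h5 := Finset.prod_univ_sum (fun _ : Fin n => (Finset.univ : Finset G))
        (fun l γ => c (L l) * wt χ (L l) (γ⁻¹ * s l * γ))
      rw [Fintype.piFinset_univ] at h5
      rw [h5]
      apply Finset.sum_congr rfl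
      intro g _
      rw [Finset.prod_mul_distrib]
    rw [Finset.sum_congr rfl fun L _ => h4 L] at h3
    rw [← h3]
    simp only [hc]
    split_ifs with h
    · subst h
      simp
    · obtain ⟨i, hi⟩ : ∃ i, s i ≠ 1 := by
        by_contra hc
        push Not at hc
        exact h (funext hc)
      exact Finset.prod_eq_zero (Finset.mem_univ i) (if_neg hi)
  calc ∑ L : Fin n → J, ∑ g : Fin n → G, (∏ l, c (L l)) • Psi χ a₁ a₂ Φ L (tw a₁ a₂ g g v)
      = ∑ L : Fin n → J, ∑ g : Fin n → G, ∑ s : Fin n → G,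
        ((∏ l, c (L l)) * ∏ l, wt χ (L l) ((g l)⁻¹ * s l * g l)) • Φ (tw a₁ a₂ s 1 v) := by
        apply Finset.sum_congr rfl
        intro L _
        apply Finset.sum_congr rfl
        intro g _
        rw [h1, Finset.smul_sum]
        apply Finset.sum_congr rfl
        intro s _
        rw [smul_smul]
    _ = ∑ L : Fin n → J, ∑ s : Fin n → G, ∑ g : Fin n → G,
        ((∏ l, c (L l)) * ∏ l, wt χ (L l) ((g l)⁻¹ * s l * g l)) • Φ (tw a₁ a₂ s 1 v) := by
        apply Finset.sum_congr rfl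
        intro L _
        exact Finset.sum_comm
    _ = ∑ s : Fin n → G, ∑ L : Fin n → J, ∑ g : Fin n → G,
        ((∏ l, c (L l)) * ∏ l, wt χ (L l) ((g l)⁻¹ * s l * g l)) • Φ (tw a₁ a₂ s 1 v) :=
        Finset.sum_comm
    _ = ∑ s : Fin n → G, (if s = 1 then N ^ n else 0) • Φ (tw a₁ a₂ s 1 v) := by
        apply Finset.sum_congr rfl
        intro s _
        rw [← h2 s, Finset.sum_smul]
        apply Finset.sum_congr rfl
        intro L _
        rw [Finset.sum_smul]
    _ = N ^ n • Φ v := by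
        rw [Finset.sum_eq_single (1 : Fin n → G)]
        · rw [if_pos rfl, tw_one]
        · intro s _ hs
          rw [if_neg hs, zero_smul]
        · intro h
          exact absurd (Finset.mem_univ _) h

end psi

end Pool.Agent.H25.VN
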