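import Pool.Agent.H25.VN.N6

/-!
# Invariant cycles on the product of two curves: the main theorem for monomial characters
-/

set_option autoImplicit false
set_option linter.overlappingInstances false
set_option linter.unusedSectionVars false

namespace Pool.Agent.H25.VN

open FF Pool.Agent.Q70.CH Equiv TensorProduct
open Pool.Agent.H25.VO hiding act act_ord act_one act_mul vl_act IsQuot over_act exists_act dvd_of_trivial test_curve vanish_fixed vanish_branch vanish_aux vanish_ramified vanish_trivial Eigenforms exists_pr rank_eigenforms Van Paired paired_number trivial_number one_var block Eig tw tw_tw tw_isMap act_mor sum_coord cf cf_mul_left cf_mul_right PhiK phiK_eig sum_cf sum_phiK prod_mulSingle rep rep_isMap voisin_core voisin_quotient act₂ orb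

section core

lemma lc_ksmul {k V W : Type} [Field k] [AddCommGroup W] [Module ℚ W] [Module k W] (c : k)
    (Φ : V → W) (z : V →₀ ℚ) : Finsupp.linearCombination ℚ (fun v => c • Φ v) z =
      c • Finsupp.linearCombination ℚ Φ z := by
  simp only [Finsupp.linearCombination_apply, Finsupp.sum]
  rw [Finset.smul_sum]
  apply Finset.sum_congr rfl
  intro v _
  exact (map_rat_smul (DistribSMul.toAddMonoidHom W c) (z v) (Φ v)).symm

variable {k : Type} [Field k] [CharZero k] {K₁ K₂ : Type} [Field K₁] [Algebra k K₁] [Field K₂]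
  [Algebra k K₂] {G : Type} [Group G] [Fintype G] {n : ℕ} {a₁ : G →* (K₁ ≃ₐ[k] K₁)}
  {a₂ : G →* (K₂ ≃ₐ[k] K₂)}

/-- replacement of one coordinate by a point of an orbit -/
noncomputable def rep (a₁ : G →* (K₁ ≃ₐ[k] K₁)) (a₂ : G →* (K₂ ≃ₐ[k] K₂)) (p₁ : Place k K₁)
    (p₂ : Place k K₂) (σ : Fin n × Bool) (g : G) (v : Fin n → Place k K₁ × Place k K₂) :
    Fin n → Place k K₁ × Place k K₂ :=
  if σ.2 then Function.update v σ.1 (act a₁ g p₁, (v σ.1).2)
  else Function.update v σ.1 ((v σ.1).1, act a₂ g p₂)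

lemma rep_isMap (p₁ : Place k K₁) (p₂ : Place k K₂) (σ : Fin n × Bool) (g : G) :
    IsMap (PP k K₁ K₂ n) (PP k K₁ K₂ n) (rep a₁ a₂ p₁ p₂ σ g) := by
  obtain ⟨i, b⟩ := σ
  intro B _ _ _ s hs
  cases b with
  | true => exact update_Mn hs i (const_Mc _) ((mem_Mn.1 hs) i).2
  | false => exact update_Mn hs i ((mem_Mn.1 hs) i).1 (const_Mc _)

/-- the zero set for the trivial character -/
def zeros (a : G →* (K₁ ≃ₐ[k] K₁)) {H : Subgroup G} (χ : H →* kˣ) (p : Place k K₁) :
    Set (Place k K₁) := {P | χ = 1 ∧ ∃ g : G, P = act a g p}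

/-- **Main theorem** for invariant Albanese-trivial cycles on the product of two curves. -/
theorem core [IsAlgClosed k] [IsFF k K₁] [IsFF k K₂] {J : Type} [Fintype J] [DecidableEq G]
    {H : J → Subgroup G} (χ : ∀ j, H j →* kˣ) (htop : ∀ j, χ j = 1 → H j = ⊤) (c : J → k) {N : k}
    (hN : N ≠ 0)
    (hc : ∀ s : G, ∑ j, ∑ γ : G, c j * wt χ j (γ⁻¹ * s * γ) = if s = 1 then N else 0)
    (p₁ : Place k K₁) (p₂ : Place k K₂) {c₁ c₂ : J → ℕ}
    (V1 : ∀ j, VanT (rules (a₁.comp (H j).subtype) (χ j)) (zeros a₁ (χ j) p₁) (c₁ j))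
    (V2 : ∀ j, VanT (rules (a₂.comp (H j).subtype) (χ j)⁻¹) (zeros a₂ (χ j)⁻¹ p₂) (c₂ j))
    (hn : ∑ j, c₁ j * c₂ j < n) (a : Fin n → (Place k K₁ × Place k K₂) →₀ ℚ)
    (hinv : ∀ i g, (a i).mapDomain (fun p => (act a₁ g p.1, act a₂ g p.2)) = a i)
    (h1 : ∀ i, (a i).mapDomain Prod.fst ∈ TC k K₁) (h2 : ∀ i, (a i).mapDomain Prod.snd ∈ TC k K₂) :
    ∑ σ : Perm (Fin n), ((Perm.sign σ : ℤ) : ℚ) • cross (fun i => a (σ i)) ∈ TT k K₁ K₂ n := by
  classical
  -- the universal functional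
  let M := ((Fin n → Place k K₁ × Place k K₂) →₀ ℚ) ⧸ TT k K₁ K₂ n
  let Φ₀ : (Fin n → Place k K₁ × Place k K₂) → k ⊗[ℚ] M := fun v =>
    (1 : k) ⊗ₜ[ℚ] (TT k K₁ K₂ n).mkQ (Finsupp.single v 1)
  have hΦ₀ : KillsF (PP k K₁ K₂ n) Φ₀ := by
    intro B _ _ _ s hs t ht
    have h3 := killsF_mkQ (X := PP k K₁ K₂ n) B s hs t ht
    have h4 : ((divisor k t).sum fun Q m => m • Φ₀ (s Q)) =
        (1 : k) ⊗ₜ[ℚ] ((divisor k t).sum fun Q m => m • (TT k K₁ K₂ n).mkQ
          (Finsupp.single (s Q) 1)) := by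
      unfold Finsupp.sum
      rw [TensorProduct.tmul_sum]
      apply Finset.sum_congr rfl
      intro Q _
      exact (map_zsmul (TensorProduct.mk ℚ k M 1) _ _).symm
    have h5 : ((divisor k t).sum fun Q m => m • (TT k K₁ K₂ n).mkQ
          (Finsupp.single (s Q) 1)) = 0 := h3
    rw [h4, h5, TensorProduct.tmul_zero]
  have hlc₀ : ∀ z, Finsupp.linearCombination ℚ Φ₀ z = (1 : k) ⊗ₜ[ℚ] (TT k K₁ K₂ n).mkQ z := by
    intro z
    have h3 : Finsupp.linearCombination ℚ Φ₀ =
        (TensorProduct.mk ℚ k M 1) ∘ₗ (TT k K₁ K₂ n).mkQ := by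
      apply Finsupp.lhom_ext'
      intro v
      apply LinearMap.ext_ring
      rw [LinearMap.comp_apply, LinearMap.comp_apply, Finsupp.lsingle_apply,
        Finsupp.linearCombination_single, one_smul]
      rfl
    rw [h3]; rfl
  -- normalization
  obtain ⟨Φ, ⟨hK, hPr⟩, hnorm⟩ := exists_normal (W := k ⊗[ℚ] M) (rep (n := n) a₁ a₂ p₁ p₂)
    (by
      rintro ⟨i, b⟩ s t v
      cases b <;> simp [rep])
    (by
      rintro ⟨i, b⟩ ⟨j, b'⟩ s t v hne
      by_cases hij : i = j
      · subst hij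
        cases b <;> cases b' <;> simp [rep] at hne ⊢
      · cases b <;> cases b' <;>
          simp [rep, Function.update_of_ne hij, Function.update_of_ne (Ne.symm hij),
            Function.update_comm hij])
    (fun Φ => KillsF (PP k K₁ K₂ n) Φ ∧
      ∀ a : Fin n → (Place k K₁ × Place k K₂) →₀ ℚ, (∀ i, (a i).mapDomain Prod.fst ∈ TC k K₁) →
      (∀ i, (a i).mapDomain Prod.snd ∈ TC k K₂) →
      Finsupp.linearCombination ℚ Φ (cross a) = Finsupp.linearCombination ℚ Φ₀ (cross a))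
    (by
      rintro Φ σ ⟨hK, hPr⟩
      refine ⟨hK.sub (KillsF.smul _ (KillsF.sum _ fun g _ => hK.comp (rep_isMap p₁ p₂ σ g))), ?_⟩
      intro a ha1 ha2
      rw [lc_sub, lc_smul, lc_sum, hPr a ha1 ha2]
      have h3 : ∀ g : G, Finsupp.linearCombination ℚ
          (fun v => Φ (rep a₁ a₂ p₁ p₂ σ g v)) (cross a) = 0 := by
        intro g
        rw [lc_comp Φ (rep a₁ a₂ p₁ p₂ σ g)]
        apply hK.ev
        obtain ⟨i, b⟩ := σ
        cases b with
        | true => exact e1_cross (act a₁ g p₁) i a (ha2 i)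
        | false => exact e2_cross (act a₂ g p₂) i a (ha1 i)
      rw [Finset.sum_congr rfl fun g _ => h3 g, Finset.sum_const_zero, smul_zero, sub_zero])
    Φ₀ ⟨hΦ₀, fun _ _ _ => rfl⟩
  have hn1 : ∀ (v : Fin n → Place k K₁ × Place k K₂) i,
      ∑ g : G, Φ (Function.update v i (act a₁ g p₁, (v i).2)) = 0 := fun v i => hnorm (i, true) v
  have hn2 : ∀ (v : Fin n → Place k K₁ × Place k K₂) i,
      ∑ g : G, Φ (Function.update v i ((v i).1, act a₂ g p₂)) = 0 := fun v i => hnorm (i, false) v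
  -- averaging
  let Φ' : (Fin n → Place k K₁ × Place k K₂) → k ⊗[ℚ] M := fun v =>
    ∑ g : Fin n → G, Φ (tw a₁ a₂ g g v)
  have hK' : KillsF (PP k K₁ K₂ n) Φ' := KillsF.sum _ fun g _ => hK.comp (tw_isMap g g)
  have hI' : ∀ g v, Φ' (tw a₁ a₂ g g v) = Φ' v := by
    intro g v
    refine Fintype.sum_equiv (Equiv.mulLeft g) _ _ fun h => ?_
    rw [Equiv.coe_mulLeft, tw_tw]
  have hn1' : ∀ (v : Fin n → Place k K₁ × Place k K₂) i,
      ∑ g : G, Φ' (Function.update v i (act a₁ g p₁, (v i).2)) = 0 := by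
    intro v i
    change ∑ g : G, ∑ h : Fin n → G, Φ (tw a₁ a₂ h h (Function.update v i
      (act a₁ g p₁, (v i).2))) = 0
    rw [Finset.sum_comm]
    apply Finset.sum_eq_zero
    intro h _
    have h3 : ∀ g : G, tw a₁ a₂ h h (Function.update v i (act a₁ g p₁, (v i).2)) =
        Function.update (tw a₁ a₂ h h v) i (act a₁ (g * h i) p₁, (tw a₁ a₂ h h v i).2) := by
      intro g
      ext1 j
      by_cases hj : j = i
      · subst hj
        rw [Function.update_self]
        simp only [tw, Function.update_self, act_mul]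
      · rw [Function.update_of_ne hj]
        simp only [tw, Function.update_of_ne hj]
    rw [← hn1 (tw a₁ a₂ h h v) i]
    refine Fintype.sum_equiv (Equiv.mulRight (h i)) _ _ fun g => ?_
    rw [Equiv.coe_mulRight, h3]
  have hn2' : ∀ (v : Fin n → Place k K₁ × Place k K₂) i,
      ∑ g : G, Φ' (Function.update v i ((v i).1, act a₂ g p₂)) = 0 := by
    intro v i
    change ∑ g : G, ∑ h : Fin n → G, Φ (tw a₁ a₂ h h (Function.update v i
      ((v i).1, act a₂ g p₂))) = 0
    rw [Finset.sum_comm]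
    apply Finset.sum_eq_zero
    intro h _
    have h3 : ∀ g : G, tw a₁ a₂ h h (Function.update v i ((v i).1, act a₂ g p₂)) =
        Function.update (tw a₁ a₂ h h v) i ((tw a₁ a₂ h h v i).1, act a₂ (g * h i) p₂) := by
      intro g
      ext1 j
      by_cases hj : j = i
      · subst hj
        rw [Function.update_self]
        simp only [tw, Function.update_self, act_mul]
      · rw [Function.update_of_ne hj]
        simp only [tw, Function.update_of_ne hj]
    rw [← hn2 (tw a₁ a₂ h h v) i]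
    refine Fintype.sum_equiv (Equiv.mulRight (h i)) _ _ fun g => ?_
    rw [Equiv.coe_mulRight, h3]
  have hT : ∀ (Θ : (Fin n → Place k K₁ × Place k K₂) → k ⊗[ℚ] M) (σ : Perm (Fin n))
      (g : Fin n → G), Finsupp.linearCombination ℚ (fun v => Θ (tw a₁ a₂ g g v))
        (cross fun i => a (σ i)) = Finsupp.linearCombination ℚ Θ (cross fun i => a (σ i)) := by
    intro Θ σ g
    rw [lc_comp Θ (tw a₁ a₂ g g)]
    congr 1
    have h5 := cross_map (fun i => a (σ i)) (fun i p => (act a₁ (g i) p.1, act a₂ (g i) p.2))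
    simp only [hinv] at h5
    exact h5
  -- antisymmetrization
  have hanti : ∀ (L : Fin n → J) (v : Fin n → Place k K₁ × Place k K₂),
      ∑ σ : Perm (Fin n), ((Perm.sign σ : ℤ) : ℚ) • Psi χ a₁ a₂ Φ' L (fun i => v (σ i)) = 0 := by
    intro L v
    obtain ⟨j, hj⟩ : ∃ j, c₁ j * c₂ j < (Finset.univ.filter fun i => L i = j).card := by
      by_contra hc
      push Not at hc
      have h3 : (Finset.univ : Finset (Fin n)).card =
          ∑ j, (Finset.univ.filter fun i => L i = j).card :=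
        Finset.card_eq_sum_card_fiberwise fun i _ => Finset.mem_univ _
      have h4 := Finset.sum_le_sum fun j (_ : j ∈ Finset.univ) => hc j
      rw [← h3, Finset.card_univ, Fintype.card_fin] at h4
      omega
    refine antisym_block (Psi χ a₁ a₂ Φ' L) (Finset.univ.filter fun i => L i = j)
      (blockT (psi_kills hK' L) (V1 j) (V2 j) ?_ ?_ ?_ ?_ hj) v
    · rintro t ⟨u, rfl⟩ i hi v
      obtain rfl : L i = j := (Finset.mem_filter.1 hi).2
      exact psi_e1 L i u v
    · rintro t ⟨u, rfl⟩ i hi v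
      obtain rfl : L i = j := (Finset.mem_filter.1 hi).2
      have h3 := psi_e2 hI' (χ := χ) L i u v
      rw [MonoidHom.inv_apply, _root_.inv_inv]
      exact h3
    · rintro i hi v ⟨hχ, u, hu⟩
      obtain rfl : L i = j := (Finset.mem_filter.1 hi).2
      exact psi_z1 hn1' L i hχ (htop _ hχ) v hu
    · rintro i hi v ⟨hχ, u, hu⟩
      obtain rfl : L i = j := (Finset.mem_filter.1 hi).2
      have hχ' : χ (L i) = 1 := by
        refine MonoidHom.ext fun s => ?_
        have h := DFunLike.congr_fun hχ s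
        rw [MonoidHom.inv_apply, MonoidHom.one_apply] at h
        rw [MonoidHom.one_apply]
        exact inv_eq_one.1 h
      exact psi_z2 hI' hn2' L i hχ' (htop _ hχ') v hu
  -- evaluation
  have hev : ∀ σ : Perm (Fin n), N ^ n •
      Finsupp.linearCombination ℚ Φ' (cross fun i => a (σ i)) =
      ∑ L : Fin n → J, (∏ l, c (L l)) • (Fintype.card (Fin n → G) •
        Finsupp.linearCombination ℚ (fun v => Psi χ a₁ a₂ Φ' L (fun i => v (σ i))) (cross a)) := by
    intro σ
    rw [← lc_ksmul]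
    simp only [← sum_psi hI' c N hc]
    rw [lc_sum]
    apply Finset.sum_congr rfl
    intro L _
    rw [lc_sum]
    have h4 : ∀ g : Fin n → G, Finsupp.linearCombination ℚ (fun v =>
        (∏ l, c (L l)) • Psi χ a₁ a₂ Φ' L (tw a₁ a₂ g g v)) (cross fun i => a (σ i)) =
        (∏ l, c (L l)) • Finsupp.linearCombination ℚ (Psi χ a₁ a₂ Φ' L)
          (cross fun i => a (σ i)) := by
      intro g
      rw [lc_ksmul, hT (Psi χ a₁ a₂ Φ' L) σ g]
    rw [Finset.sum_congr rfl fun g _ => h4 g, Finset.sum_const, Finset.card_univ, ← smul_comm]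
    congr 2
    rw [cross_perm, lc_comp (Psi χ a₁ a₂ Φ' L) (fun v i => v (σ i))]
  have hlc' : ∀ σ : Perm (Fin n), Finsupp.linearCombination ℚ Φ' (cross fun i => a (σ i)) =
      Fintype.card (Fin n → G) • Finsupp.linearCombination ℚ Φ₀ (cross fun i => a (σ i)) := by
    intro σ
    change Finsupp.linearCombination ℚ (fun v => ∑ g : Fin n → G, Φ (tw a₁ a₂ g g v)) _ = _
    rw [lc_sum, Finset.sum_congr rfl fun g _ => hT Φ σ g, Finset.sum_const, Finset.card_univ,
      hPr (fun i => a (σ i)) (fun i => h1 _) (fun i => h2 _)]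
  -- conclusion
  have hfin : Finsupp.linearCombination ℚ Φ₀
      (∑ σ : Perm (Fin n), ((Perm.sign σ : ℤ) : ℚ) • cross (fun i => a (σ i))) = 0 := by
    have h3 : Finsupp.linearCombination ℚ Φ₀
        (∑ σ : Perm (Fin n), ((Perm.sign σ : ℤ) : ℚ) • cross (fun i => a (σ i))) =
        ∑ σ : Perm (Fin n), ((Perm.sign σ : ℤ) : ℚ) •
          Finsupp.linearCombination ℚ Φ₀ (cross fun i => a (σ i)) := by
      rw [map_sum]
      apply Finset.sum_congr rfl
      intro σ _
      rw [map_smul]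
    rw [h3]
    have hC0 : (Fintype.card (Fin n → G) : ℚ) ≠ 0 := by exact_mod_cast Fintype.card_ne_zero
    have h4 : N ^ n • ((Fintype.card (Fin n → G) : ℚ) • ∑ σ : Perm (Fin n),
        ((Perm.sign σ : ℤ) : ℚ) • Finsupp.linearCombination ℚ Φ₀ (cross fun i => a (σ i))) = 0 := by
      rw [Finset.smul_sum, Finset.smul_sum]
      have h5 : ∀ σ : Perm (Fin n), N ^ n • ((Fintype.card (Fin n → G) : ℚ) •
          (((Perm.sign σ : ℤ) : ℚ) • Finsupp.linearCombination ℚ Φ₀ (cross fun i => a (σ i)))) =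
          ∑ L : Fin n → J, (∏ l, c (L l)) • (Fintype.card (Fin n → G) •
            Finsupp.linearCombination ℚ (fun v => ((Perm.sign σ : ℤ) : ℚ) •
              Psi χ a₁ a₂ Φ' L (fun i => v (σ i))) (cross a)) := by
        intro σ
        rw [smul_comm (Fintype.card (Fin n → G) : ℚ), Nat.cast_smul_eq_nsmul, ← hlc']
        have h6 : N ^ n • (((Perm.sign σ : ℤ) : ℚ) •
            Finsupp.linearCombination ℚ Φ' (cross fun i => a (σ i))) =
            ((Perm.sign σ : ℤ) : ℚ) • (N ^ n •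
            Finsupp.linearCombination ℚ Φ' (cross fun i => a (σ i))) :=
          map_rat_smul (DistribSMul.toAddMonoidHom (k ⊗[ℚ] M) (N ^ n)) _ _
        rw [h6, hev, Finset.smul_sum]
        apply Finset.sum_congr rfl
        intro L _
        rw [lc_smul]
        have h7 : ∀ (q : ℚ) (x : k ⊗[ℚ] M), (∏ l, c (L l)) • (q • x) =
            q • ((∏ l, c (L l)) • x) := fun q x =>
          map_rat_smul (DistribSMul.toAddMonoidHom (k ⊗[ℚ] M) (∏ l, c (L l))) q x
        rw [← h7, smul_comm (((Perm.sign σ : ℤ) : ℚ))]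
      rw [Finset.sum_congr rfl fun σ _ => h5 σ, Finset.sum_comm]
      apply Finset.sum_eq_zero
      intro L _
      rw [← Finset.smul_sum, ← Finset.smul_sum, ← lc_sum]
      simp only [hanti]
      rw [Finsupp.linearCombination_apply]
      simp
    have h5 := (smul_eq_zero.1 h4).resolve_left (pow_ne_zero _ hN)
    exact (smul_eq_zero.1 h5).resolve_left hC0
  rw [hlc₀] at hfin
  have h3 := one_tmul_eq_zero hfin
  rwa [← LinearMap.mem_ker, Submodule.ker_mkQ] at h3

end core

section quotient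

variable {k : Type} [Field k] [CharZero k] {K₁ K₂ : Type} [Field K₁] [Algebra k K₁] [Field K₂]
  [Algebra k K₂] {G : Type} [Group G]

/-- the diagonal action on the points of the product -/
noncomputable def act₂ (a₁ : G →* (K₁ ≃ₐ[k] K₁)) (a₂ : G →* (K₂ ≃ₐ[k] K₂)) (g : G)
    (p : Place k K₁ × Place k K₂) : Place k K₁ × Place k K₂ := (act a₁ g p.1, act a₂ g p.2)

/-- the orbits -/
def orb (a₁ : G →* (K₁ ≃ₐ[k] K₁)) (a₂ : G →* (K₂ ≃ₐ[k] K₂)) :
    Setoid (Place k K₁ × Place k K₂) where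
  r p q := ∃ g : G, q = act₂ a₁ a₂ g p
  iseqv :=
    { refl := fun p => ⟨1, by simp [act₂, act_one]⟩
      symm := by
        rintro p q ⟨g, rfl⟩
        exact ⟨g⁻¹, by simp [act₂, ← act_mul, act_one]⟩
      trans := by
        rintro p q r ⟨g, rfl⟩ ⟨h, rfl⟩
        exact ⟨g * h, by simp [act₂, act_mul]⟩ }

variable {a₁ : G →* (K₁ ≃ₐ[k] K₁)} {a₂ : G →* (K₂ ≃ₐ[k] K₂)} [Fintype G]

theorem voisin_quotient [IsAlgClosed k] [IsFF k K₁] [IsFF k K₂] {J : Type} [Fintype J]
    [DecidableEq G] {H : J → Subgroup G} (χ : ∀ j, H j →* kˣ) (htop : ∀ j, χ j = 1 → H j = ⊤)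
    (c : J → k) {N : k} (hN : N ≠ 0)
    (hc : ∀ s : G, ∑ j, ∑ γ : G, c j * wt χ j (γ⁻¹ * s * γ) = if s = 1 then N else 0)
    (p₁ : Place k K₁) (p₂ : Place k K₂) {c₁ c₂ : J → ℕ}
    (V1 : ∀ j, VanT (rules (a₁.comp (H j).subtype) (χ j)) (zeros a₁ (χ j) p₁) (c₁ j))
    (V2 : ∀ j, VanT (rules (a₂.comp (H j).subtype) (χ j)⁻¹) (zeros a₂ (χ j)⁻¹ p₂) (c₂ j))
    {n : ℕ} (hn : ∑ j, c₁ j * c₂ j < n) (z : Fin n → (Place k K₁ × Place k K₂) →₀ ℚ)
    (h1 : ∀ i, (∑ g : G, (z i).mapDomain (act₂ a₁ a₂ g)).mapDomain Prod.fst ∈ TC k K₁)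
    (h2 : ∀ i, (∑ g : G, (z i).mapDomain (act₂ a₁ a₂ g)).mapDomain Prod.snd ∈ TC k K₂) :
    alt (fun i => (z i).mapDomain (Quotient.mk (orb a₁ a₂))) ∈
      (TT k K₁ K₂ n).map (Finsupp.lmapDomain ℚ ℚ
        (fun (v : Fin n → Place k K₁ × Place k K₂) i => Quotient.mk (orb a₁ a₂) (v i))) := by
  classical
  have key := core χ htop c hN hc p₁ p₂ V1 V2 hn (fun i => ∑ g : G, (z i).mapDomain (act₂ a₁ a₂ g))
    (by
      intro i g
      change Finsupp.mapDomain (act₂ a₁ a₂ g) _ = _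
      rw [Finsupp.mapDomain_finsetSum]
      refine Fintype.sum_equiv (Equiv.mulRight g) _ _ fun h => ?_
      rw [Equiv.coe_mulRight, ← Finsupp.mapDomain_comp]
      congr 1
      ext1 p
      simp only [Function.comp, act₂, act_mul]) h1 h2
  have h3 : ∀ i, (∑ g : G, (z i).mapDomain (act₂ a₁ a₂ g)).mapDomain (Quotient.mk (orb a₁ a₂)) =
      (Fintype.card G : ℚ) • (z i).mapDomain (Quotient.mk (orb a₁ a₂)) := by
    intro i
    rw [Finsupp.mapDomain_finsetSum]
    have h4 : ∀ g : G, ((z i).mapDomain (act₂ a₁ a₂ g)).mapDomain (Quotient.mk (orb a₁ a₂)) =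
        (z i).mapDomain (Quotient.mk (orb a₁ a₂)) := by
      intro g
      rw [← Finsupp.mapDomain_comp]
      congr 1
      ext1 p
      exact Quotient.sound ⟨g⁻¹, by simp [act₂, ← act_mul, act_one]⟩
    rw [Finset.sum_congr rfl fun g _ => h4 g, Finset.sum_const, Finset.card_univ,
      Nat.cast_smul_eq_nsmul]
  have h5 := alt_map (Quotient.mk (orb a₁ a₂)) (fun i => ∑ g : G, (z i).mapDomain (act₂ a₁ a₂ g))
  simp only [h3] at h5
  rw [alt_smul] at h5
  have h6 : (Fintype.card G : ℚ) ^ n ≠ 0 := pow_ne_zero _ (by exact_mod_cast Fintype.card_ne_zero)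
  have h7 : alt (fun i => (z i).mapDomain (Quotient.mk (orb a₁ a₂))) =
      ((Fintype.card G : ℚ) ^ n)⁻¹ • Finsupp.lmapDomain ℚ ℚ
        (fun (v : Fin n → Place k K₁ × Place k K₂) i => Quotient.mk (orb a₁ a₂) (v i))
        (alt (fun i => ∑ g : G, (z i).mapDomain (act₂ a₁ a₂ g))) := by
    rw [h5, smul_smul, inv_mul_cancel₀ h6, one_smul]
  rw [h7]
  exact Submodule.smul_mem _ _ (Submodule.mem_map_of_mem key)

end quotient

end Pool.Agent.H25.VN
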