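import Pool.Agent.H25.VN.N7

/-!
# Quotient fields and symmetric branch data
-/

set_option autoImplicit false
set_option linter.overlappingInstances false
set_option linter.unusedSectionVars false

namespace Pool.Agent.H25.VN

open FF IntermediateField Module Pool.Agent.W603.LV Pool.Agent.W619.PQ Pool.Agent.Q70.CH
open Pool.Agent.H25.VO hiding act act_ord act_one act_mul vl_act IsQuot over_act exists_act dvd_of_trivial test_curve vanish_fixed vanish_branch vanish_aux vanish_ramified vanish_trivial Eigenforms exists_pr rank_eigenforms Van Paired paired_number trivial_number one_var block Eig tw tw_tw tw_isMap act_mor sum_coord cf cf_mul_left cf_mul_right PhiK phiK_eig sum_cf sum_phiK prod_mulSingle rep rep_isMap voisin_core voisin_quotient act₂ orb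

section field

variable {k : Type} [Field k]

/-- the function field of the quotient curve -/
theorem exists_field {K : Type} [Field K] [Algebra k K] [IsFF k K] {G : Type} [Group G] [Finite G]
    (a : G →* (K ≃ₐ[k] K)) :
    ∃ (F : Type) (_ : Field F) (_ : Algebra k F) (_ : IsFF k F) (_ : Algebra F K)
      (_ : IsScalarTower k F K), IsQuot a F := by
  classical
  have hfin : Finite a.range := Finite.of_surjective a.rangeRestrict a.rangeRestrict_surjective
  let F₀ : IntermediateField k K := IntermediateField.fixedField a.range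
  have hF₀ : ∀ x : K, x ∈ F₀ ↔ ∀ s, a s x = x := by
    intro x
    rw [IntermediateField.mem_fixedField_iff]
    constructor
    · intro h s
      exact h (a s) ⟨s, rfl⟩
    · rintro h _ ⟨s, rfl⟩
      exact h s
  have hfd : FiniteDimensional F₀ K :=
    inferInstanceAs (FiniteDimensional (FixedPoints.subfield a.range K) K)
  have h1 := trdeg_add_eq k F₀ (A := K)
  have h0 : Algebra.trdeg F₀ K = 0 := trdeg_eq_zero
  rw [h0, add_zero, IsFF.trdeg (k := k) (K := K)] at h1
  obtain ⟨f, hf⟩ : ∃ f : F₀, Transcendental k f := by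
    by_contra hc
    push Not at hc
    have h2 : Algebra.IsAlgebraic k F₀ := ⟨fun x => by
      have := hc x
      simpa [Transcendental] using this⟩
    rw [_root_.trdeg_eq_zero_iff.2 h2] at h1
    exact zero_ne_one h1
  have hf' : Transcendental k (f : K) := by
    intro h
    exact hf ((isAlgebraic_algHom_iff F₀.val F₀.val.injective).1 h)
  let E : IntermediateField k K := k⟮(f : K)⟯
  have hE : E ≤ F₀ := by
    rw [adjoin_simple_le_iff]
    exact f.2
  have hfdE : FiniteDimensional E K := IsFF.finite hf'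
  let g : E := ⟨(f : K), mem_adjoin_simple_self k (f : K)⟩
  have hg : Transcendental k g := by
    intro h
    exact hf' ((isAlgebraic_algHom_iff E.val E.val.injective).2 h)
  have htop : k⟮g⟯ = ⊤ := by
    apply IntermediateField.lift_injective E
    rw [IntermediateField.lift_adjoin_simple, IntermediateField.lift_top]
  have hEff : IsFF k E := by
    apply IsFF.of_finite hg
    rw [htop]
    exact Module.Finite.of_surjective (Algebra.linearMap (⊤ : IntermediateField k E) E)
      (fun x => ⟨⟨x, trivial⟩, rfl⟩)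
  let F' : IntermediateField E K := extendScalars hE
  have hfd' : FiniteDimensional E F' := inferInstance
  have hff : IsFF k F' := isFF_ext (k := k) E F'
  have htow : IsScalarTower k F' K := IsScalarTower.of_algebraMap_eq fun c => rfl
  refine ⟨F', inferInstance, inferInstance, hff, inferInstance, htow, ?_, ?_⟩
  · intro s x
    have hx : (x : K) ∈ F₀ := x.2
    exact (hF₀ _).1 hx s
  · intro x hx
    exact ⟨⟨x, (hF₀ x).2 hx⟩, rfl⟩

end field

section matching

/-- a finite set with an even number of elements has an involution without fixed points -/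
lemma exists_invol {α : Type} [DecidableEq α] (m : ℕ) : ∀ S : Finset α, S.card = 2 * m →
    ∃ τ : α → α, ∀ x ∈ S, τ x ≠ x ∧ τ x ∈ S ∧ τ (τ x) = x := by
  induction m with
  | zero =>
    intro S hS
    rw [mul_zero, Finset.card_eq_zero] at hS
    subst hS
    exact ⟨id, by simp⟩
  | succ m ih =>
    intro S hS
    obtain ⟨x, hx⟩ : S.Nonempty := by
      rw [← Finset.card_pos]; omega
    obtain ⟨y, hy⟩ : (S.erase x).Nonempty := by
      rw [← Finset.card_pos, Finset.card_erase_of_mem hx]; omega
    have hyx : y ≠ x := Finset.ne_of_mem_erase hy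
    have hyS : y ∈ S := Finset.mem_of_mem_erase hy
    obtain ⟨τ, hτ⟩ := ih ((S.erase x).erase y) (by
      rw [Finset.card_erase_of_mem hy, Finset.card_erase_of_mem hx]; omega)
    refine ⟨fun z => if z = x then y else if z = y then x else τ z, ?_⟩
    intro z hz
    by_cases h1 : z = x
    · subst h1
      refine ⟨?_, ?_, ?_⟩
      · simpa using hyx
      · simpa using hyS
      · simp [hyx]
    · by_cases h2 : z = y
      · subst h2
        refine ⟨?_, ?_, ?_⟩
        · simp only [if_neg h1, if_true]; exact fun h => h1 h.symm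
        · simp only [if_neg h1, if_true]; exact hx
        · simp [h1]
      · obtain ⟨h3, h4, h5⟩ := hτ z (by simp [h1, h2, hz])
        have h6 : τ z ≠ y := Finset.ne_of_mem_erase h4
        have h7 : τ z ≠ x := Finset.ne_of_mem_erase (Finset.mem_of_mem_erase h4)
        simp only [if_neg h1, if_neg h2, if_neg h6, if_neg h7]
        exact ⟨h3, Finset.mem_of_mem_erase (Finset.mem_of_mem_erase h4), h5⟩

lemma half {d o : ℤ} (h : d ∣ o + o) (h' : ¬ d ∣ o) : ∃ e, d = 2 * e ∧ d ∣ o - e := by
  obtain ⟨m, hm⟩ := h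
  rcases Int.even_or_odd' m with ⟨m', hm' | hm'⟩
  · exfalso
    apply h'
    refine ⟨m', ?_⟩
    rw [hm'] at hm
    linarith
  · refine ⟨o - d * m', ?_, ?_⟩
    · rw [hm'] at hm
      linarith
    · exact ⟨m', by ring⟩

variable {k : Type} [Field k] [CharZero k] [IsAlgClosed k] {F : Type} [Field F] [Algebra k F]
  [IsFF k F]

/-- if the branch data are symmetric, then the branch points can be grouped into pairs -/
lemma exists_match {b : F} {d : ℕ} (hd : 0 < d) {σ : Place k F → Place k F}
    (h1 : ∀ P, σ (σ P) = P) (h2 : ∀ P, (d : ℤ) ∣ P.ord b + (σ P).ord b) :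
    ∃ τ : Place k F → Place k F, ∀ P : Place k F, ¬ (d : ℤ) ∣ P.ord b →
      τ P ≠ P ∧ τ (τ P) = P ∧ (d : ℤ) ∣ P.ord b + (τ P).ord b := by
  classical
  have hd' : (0 : ℤ) < d := by exact_mod_cast hd
  let T : Finset (Place k F) := (finite_support (k := k) b).toFinset
  have hT : ∀ P : Place k F, P.ord b ≠ 0 → P ∈ T := by
    intro P hP
    rw [Set.Finite.mem_toFinset]; exact hP
  have h3 : ∑ P ∈ T, P.ord b = 0 := sum_ord_finset b T hT
  let S : Finset (Place k F) := T.filter fun P => ¬ (d : ℤ) ∣ P.ord b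
  have hS : ∀ P : Place k F, P ∈ S ↔ ¬ (d : ℤ) ∣ P.ord b := by
    intro P
    rw [Finset.mem_filter]
    constructor
    · exact fun h => h.2
    · intro h
      exact ⟨hT P (fun h0 => h (by rw [h0]; exact dvd_zero _)), h⟩
  let S₀ : Finset (Place k F) := S.filter fun P => σ P = P
  let S₁ : Finset (Place k F) := S.filter fun P => ¬ σ P = P
  have h4 : ∑ P ∈ S, ((P.ord b : ℤ) : ZMod d) = 0 := by
    have h5 : ∑ P ∈ T, ((P.ord b : ℤ) : ZMod d) = 0 := by
      rw [← Int.cast_sum, h3, Int.cast_zero]
    rw [← h5]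
    apply Finset.sum_subset (Finset.filter_subset _ _)
    intro P _ hP
    rw [hS, not_not] at hP
    exact (ZMod.intCast_zmod_eq_zero_iff_dvd _ d).2 hP
  have h5 : ∑ P ∈ S₁, ((P.ord b : ℤ) : ZMod d) = 0 := by
    refine Finset.sum_involution (fun P _ => σ P) ?_ ?_ ?_ ?_
    · intro P _
      rw [← Int.cast_add]
      exact (ZMod.intCast_zmod_eq_zero_iff_dvd _ d).2 (h2 P)
    · intro P hP _
      exact (Finset.mem_filter.1 hP).2
    · intro P hP
      obtain ⟨h6, h7⟩ := Finset.mem_filter.1 hP
      rw [hS] at h6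
      rw [Finset.mem_filter, hS, h1]
      refine ⟨fun hc => h6 ((dvd_add_left hc).1 (h2 P)), fun hc => h7 hc.symm⟩
    · intro P _
      exact h1 P
  have h6 : ∑ P ∈ S₀, ((P.ord b : ℤ) : ZMod d) = 0 := by
    have h7 := Finset.sum_filter_add_sum_filter_not S (fun P => σ P = P)
      (fun P => ((P.ord b : ℤ) : ZMod d))
    rw [h4] at h7
    have h8 : ∑ P ∈ S with ¬ σ P = P, ((P.ord b : ℤ) : ZMod d) = 0 := h5
    rw [h8, add_zero] at h7
    exact h7
  have h7 : ∀ P ∈ S₀, ∃ e : ℤ, (d : ℤ) = 2 * e ∧ (d : ℤ) ∣ P.ord b - e := by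
    intro P hP
    obtain ⟨h8, h9⟩ := Finset.mem_filter.1 hP
    rw [hS] at h8
    have h10 := h2 P
    rw [h9] at h10
    exact half h10 h8
  have h8 : ∃ m, S₀.card = 2 * m := by
    by_cases hne : S₀.Nonempty
    · obtain ⟨Q, hQ⟩ := hne
      obtain ⟨e, he, -⟩ := h7 Q hQ
      have h9 : ∀ P ∈ S₀, ((P.ord b : ℤ) : ZMod d) = ((e : ℤ) : ZMod d) := by
        intro P hP
        obtain ⟨e', he', h10⟩ := h7 P hP
        have h11 : e' = e := by omega
        subst h11
        rw [← sub_eq_zero, ← Int.cast_sub]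
        exact (ZMod.intCast_zmod_eq_zero_iff_dvd _ d).2 h10
      rw [Finset.sum_congr rfl h9, Finset.sum_const, nsmul_eq_mul, ← Int.cast_natCast,
        ← Int.cast_mul] at h6
      have h10 := (ZMod.intCast_zmod_eq_zero_iff_dvd _ d).1 h6
      rw [he] at h10
      have he0 : e ≠ 0 := by omega
      have h11 : (2 : ℤ) ∣ (S₀.card : ℤ) := Int.dvd_of_mul_dvd_mul_right he0 h10
      obtain ⟨m, hm⟩ : 2 ∣ S₀.card := by exact_mod_cast h11
      exact ⟨m, hm⟩
    · rw [Finset.not_nonempty_iff_eq_empty] at hne
      exact ⟨0, by rw [hne]; simp⟩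
  obtain ⟨m, hm⟩ := h8
  obtain ⟨τ, hτ⟩ := exists_invol m S₀ hm
  refine ⟨fun P => if P ∈ S₀ then τ P else σ P, ?_⟩
  intro P hP
  by_cases h9 : P ∈ S₀
  · obtain ⟨h10, h11, h12⟩ := hτ P h9
    simp only [if_pos h9, if_pos h11]
    refine ⟨h10, h12, ?_⟩
    obtain ⟨e, he, h13⟩ := h7 P h9
    obtain ⟨e', he', h14⟩ := h7 (τ P) h11
    have h15 : e' = e := by omega
    subst h15
    have h16 := dvd_add h13 h14
    have h17 : P.ord b - e' + ((τ P).ord b - e') = P.ord b + (τ P).ord b - d := by
      rw [he]; ring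
    rw [h17] at h16
    exact (dvd_sub_self_right).1 h16
  · have h10 : σ P ≠ P := by
      intro h
      exact h9 (Finset.mem_filter.2 ⟨(hS P).2 hP, h⟩)
    have h11 : σ P ∉ S₀ := by
      intro h
      have := (Finset.mem_filter.1 h).2
      rw [h1] at this
      exact h10 this.symm
    simp only [if_neg h9, if_neg h11]
    exact ⟨h10, h1 P, h2 P⟩

end matching

end Pool.Agent.H25.VN
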