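import Pool.Agent.H25.VN.N8

/-!
# Characters inverted by an element of the normalizer
-/

set_option autoImplicit false
set_option linter.overlappingInstances false
set_option linter.unusedSectionVars false

namespace Pool.Agent.H25.VN

open FF IntermediateField Module Pool.Agent.W603.LV Pool.Agent.W619.PQ Pool.Agent.Q70.CH
open Pool.Agent.H25.VO hiding act act_ord act_one act_mul vl_act IsQuot over_act exists_act dvd_of_trivial test_curve vanish_fixed vanish_branch vanish_aux vanish_ramified vanish_trivial Eigenforms exists_pr rank_eigenforms Van Paired paired_number trivial_number one_var block Eig tw tw_tw tw_isMap act_mor sum_coord cf cf_mul_left cf_mul_right PhiK phiK_eig sum_cf sum_phiK prod_mulSingle rep rep_isMap voisin_core voisin_quotient act₂ orb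

section eigen

variable {k : Type} [Field k] [CharZero k] [IsAlgClosed k] {F K : Type} [Field F] [Algebra k F]
  [IsFF k F] [Field K] [Algebra k K] [IsFF k K] [Algebra F K] [IsScalarTower k F K] {H : Type}
  [Group H] [Fintype H] {a : H →* (K ≃ₐ[k] K)}

/-- a character which is trivial on the kernel of the action has an eigenfunction -/
lemma exists_eigenfunction {χ : H →* kˣ} (h : ∀ u, a u = 1 → χ u = 1) :
    ∃ y : K, y ≠ 0 ∧ ∀ s, a s y = algebraMap k K (χ s : k) * y := by
  classical
  let T : K → K := fun z => ∑ s : H, algebraMap k K ((χ s)⁻¹ : kˣ) * a s z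
  have hT1 : ∀ s z, a s (T z) = algebraMap k K (χ s : k) * T z := by
    intro u z
    change a u (∑ s : H, _) = _ * ∑ s : H, _
    rw [map_sum, Finset.mul_sum]
    refine Fintype.sum_equiv (Equiv.mulLeft u) _ _ fun s => ?_
    rw [Equiv.coe_mulLeft, map_mul, (a u).commutes, ← mul_assoc, ← map_mul, map_mul χ, mul_inv]
    have : ((χ u : kˣ) : k) * (((χ u)⁻¹ * (χ s)⁻¹ : kˣ) : k) = ((χ s)⁻¹ : kˣ) := by
      rw [← Units.val_mul, mul_inv_cancel_left]
    rw [this, map_mul]; rfl
  by_contra hc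
  push Not at hc
  have hT0 : ∀ z, T z = 0 := by
    intro z
    by_contra hz
    obtain ⟨s, hs⟩ := hc (T z) hz
    exact hs (hT1 s z)
  -- independence of the characters
  let Φ : H → (K →* K) := fun s => ((a s : K ≃ₐ[k] K) : K →* K)
  have hli := linearIndependent_monoidHom K K
  let S : Finset (K →* K) := Finset.univ.image Φ
  let c : (K →* K) → K := fun φ =>
    ∑ s ∈ Finset.univ.filter (fun s => Φ s = φ), algebraMap k K ((χ s)⁻¹ : kˣ)
  have h1 : ∑ φ ∈ S, c φ • (φ : K → K) = 0 := by
    funext z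
    have h2 := hT0 z
    change ∑ s : H, algebraMap k K ((χ s)⁻¹ : kˣ) * a s z = 0 at h2
    rw [← Finset.sum_fiberwise_of_maps_to (s := Finset.univ) (t := S) (g := Φ)
      (fun s _ => Finset.mem_image_of_mem _ (Finset.mem_univ s))] at h2
    rw [Finset.sum_apply, Pi.zero_apply, ← h2]
    apply Finset.sum_congr rfl
    intro φ _
    rw [Pi.smul_apply, smul_eq_mul, Finset.sum_mul]
    apply Finset.sum_congr rfl
    intro s hs
    rw [← (Finset.mem_filter.1 hs).2]
    rfl
  have h3 := linearIndependent_iff'.1 hli S c h1 (Φ 1) (Finset.mem_image_of_mem _ (Finset.mem_univ 1))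
  have h4 : c (Φ 1) = ((Finset.univ.filter (fun s => Φ s = Φ 1)).card : K) := by
    change ∑ s ∈ Finset.univ.filter (fun s => Φ s = Φ 1), algebraMap k K ((χ s)⁻¹ : kˣ) = _
    rw [Finset.card_eq_sum_ones, Nat.cast_sum]
    apply Finset.sum_congr rfl
    intro s hs
    have h5 := (Finset.mem_filter.1 hs).2
    have h6 : a s = 1 := by
      apply AlgEquiv.ext
      intro z
      have := DFunLike.congr_fun h5 z
      change a s z = a 1 z at this
      rw [this, map_one]
    rw [h s h6]; simp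
  have h7 : 0 < (Finset.univ.filter (fun s => Φ s = Φ 1)).card := by
    rw [Finset.card_pos]
    exact ⟨1, by simp⟩
  have hK : CharZero K := charZero_of_injective_algebraMap (algebraMap k K).injective
  rw [h4] at h3
  exact h7.ne' (by exact_mod_cast h3)

/-- a fixed point of an element on which the character is not trivial is a branch point -/
lemma exists_branch (hq : IsQuot a F) {χ : H →* kˣ} {y : K} (hy : y ≠ 0)
    (hya : ∀ s, a s y = algebraMap k K (χ s : k) * y) {d : ℕ} (hd : 0 < d) {b : F}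
    (hb : y ^ d = algebraMap F K b) (hr : ∃ (P : Place k K) (u : H), act a u P = P ∧ χ u ≠ 1) :
    ∃ P : Place k F, ¬ (d : ℤ) ∣ P.ord b := by
  have hd' : (0 : ℤ) < d := by exact_mod_cast hd
  obtain ⟨P, u, hu, hχu⟩ := hr
  obtain ⟨p, e, he, hpe⟩ := exists_below (IsScalarTower.toAlgHom k F K) P
  have hO : Over P p e := ⟨he, hpe⟩
  refine ⟨p, ?_⟩
  rintro ⟨n, hn⟩
  obtain ⟨t, ht0, ht⟩ := p.surj
  have ht0' : algebraMap F K t ≠ 0 := by simpa using ht0
  have h6 : (d : ℤ) * P.ord y = e * p.ord b := by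
    rw [← P.ord_pow, hb, hO.2]
  have h7 : P.ord y = e * n := by
    rw [hn] at h6
    apply mul_left_cancel₀ hd'.ne'
    rw [h6]; ring
  let f : K := y * (algebraMap F K t) ^ (-n)
  have hf0 : f ≠ 0 := mul_ne_zero hy (zpow_ne_zero _ ht0')
  have hford : P.ord f = 0 := by
    change P.ord (y * (algebraMap F K t) ^ (-n)) = 0
    rw [P.ord_mul hy (zpow_ne_zero _ ht0'), P.ord_zpow, hO.2, ht, h7]
    ring
  obtain ⟨c, hcf⟩ := exists_vl P (f := f) (Or.inr hford.ge)
  have hc0 : c ≠ 0 := hcf.ne_zero_of_ord hf0 hford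
  have hfa : a u f = algebraMap k K (χ u : k) * f := by
    change a u (y * (algebraMap F K t) ^ (-n)) = _
    rw [map_mul, map_zpow₀, hq.1, hya]
    change _ = _ * (y * (algebraMap F K t) ^ (-n))
    ring
  have h8 : Vl P (a u f) c := by
    rw [← vl_act, hu]; exact hcf
  have h9 : Vl P (a u f) ((χ u : k) * c) := by
    rw [hfa]; exact hcf.smul _
  have h10 := h8.unique h9
  apply hχu
  apply Units.ext
  rw [Units.val_one]
  apply mul_right_cancel₀ hc0
  rw [one_mul]; exact h10.symm

theorem paired_of (hq : IsQuot a F) {χ : H →* kˣ} {d : ℕ} (hd : 0 < d) (hχ : ∀ u, χ u ^ d = 1)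
    (hker : ∀ u, a u = 1 → χ u = 1) (hr : ∃ (P : Place k K) (u : H), act a u P = P ∧ χ u ≠ 1)
    (hσ : ∀ (y : K) (b : F), y ≠ 0 → (∀ s, a s y = algebraMap k K (χ s : k) * y) →
      y ^ d = algebraMap F K b → ∃ σ : Place k F → Place k F, (∀ P, σ (σ P) = P) ∧
        ∀ P, (d : ℤ) ∣ P.ord b + (σ P).ord b) : Paired a F χ := by
  obtain ⟨y, hy, hya⟩ := exists_eigenfunction hker
  obtain ⟨b, hb⟩ := hq.2 (y ^ d) (by
    intro s
    rw [map_pow, hya, mul_pow, ← map_pow, ← Units.val_pow_eq_pow_val, hχ s]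
    simp)
  obtain ⟨σ, h1, h2⟩ := hσ y b hy hya hb.symm
  obtain ⟨τ, hτ⟩ := exists_match hd h1 h2
  refine ⟨y, d, b, τ, hy, hd, hb.symm, ?_, exists_branch hq hy hya hd hb.symm hr, hτ⟩
  intro s
  rw [hya, Algebra.smul_def]

end eigen

section inverted

variable {k : Type} [Field k] {G : Type} [Group G]

/-- The linear character `χ` of the subgroup `H` is *inverted* in `G`: there is `t` in `G`, with
`t²` in `H`, which normalizes `H` and such that `χ (t⁻¹ s t) = χ(s)⁻¹` for all `s` in `H`. (If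
`χ² = 1` then `t = 1` has this property.) -/
def Inverted (H : Subgroup G) (χ : H →* kˣ) : Prop :=
  ∃ t : G, t * t ∈ H ∧ ∀ s (h : s ∈ H), ∃ h' : t⁻¹ * s * t ∈ H,
    χ ⟨t⁻¹ * s * t, h'⟩ = (χ ⟨s, h⟩)⁻¹

variable [CharZero k] [IsAlgClosed k] {F K : Type} [Field F] [Algebra k F]
  [IsFF k F] [Field K] [Algebra k K] [IsFF k K] [Algebra F K] [IsScalarTower k F K] [Fintype G]
  {a : G →* (K ≃ₐ[k] K)} {H : Subgroup G} {χ : H →* kˣ}

theorem paired_inverted (hi : Inverted H χ) (hq : IsQuot (a.comp H.subtype) F)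
    (hker : ∀ u : H, a (u : G) = 1 → χ u = 1)
    (hr : ∃ (P : Place k K) (u : H), act a (u : G) P = P ∧ χ u ≠ 1) :
    Paired (a.comp H.subtype) F χ := by
  classical
  have : Fintype H := Fintype.ofFinite _
  obtain ⟨t, ht2, ht⟩ := hi
  have hmove : ∀ (s : H) (x : K), a (s : G) (a t x) = a t (a (t⁻¹ * s * t) x) := by
    intro s x
    have h1 : (s : G) * t = t * (t⁻¹ * s * t) := by group
    have h2 : a ((s : G) * t) x = a (s : G) (a t x) := by rw [map_mul]; rfl
    have h3 : a (t * (t⁻¹ * s * t)) x = a t (a (t⁻¹ * s * t) x) := by rw [map_mul]; rfl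
    rw [← h2, ← h3, h1]
  have hfix : ∀ f : F, ∃ g : F, algebraMap F K g = a t (algebraMap F K f) := by
    intro f
    apply hq.2
    intro s
    obtain ⟨h', -⟩ := ht s s.2
    have h4 : a (t⁻¹ * s * t) (algebraMap F K f) = algebraMap F K f := hq.1 ⟨t⁻¹ * s * t, h'⟩ f
    change a (s : G) (a t _) = a t _
    rw [hmove, h4]
  choose τ hτ using hfix
  have hinj : Function.Injective (algebraMap F K) := (algebraMap F K).injective
  have hττ : ∀ f, τ (τ f) = f := by
    intro f
    apply hinj
    have h4 : a (t * t) (algebraMap F K f) = algebraMap F K f := hq.1 ⟨t * t, ht2⟩ f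
    have h5 : a (t * t) (algebraMap F K f) = a t (a t (algebraMap F K f)) := by rw [map_mul]; rfl
    rw [hτ, hτ, ← h5, h4]
  let τh : F →ₐ[k] F :=
    { toFun := τ
      map_one' := hinj (by rw [hτ, map_one, map_one])
      map_mul' := fun x y => hinj (by rw [hτ, map_mul, map_mul, map_mul, hτ, hτ])
      map_zero' := hinj (by rw [hτ, map_zero, map_zero])
      map_add' := fun x y => hinj (by rw [hτ, map_add, map_add, map_add, hτ, hτ])
      commutes' := fun c => hinj (by
        rw [hτ, ← IsScalarTower.algebraMap_apply k F K, AlgEquiv.commutes]) }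
  let τe : F ≃ₐ[k] F := AlgEquiv.ofAlgHom τh τh (AlgHom.ext hττ) (AlgHom.ext hττ)
  have hχ : ∀ u : H, χ u ^ Fintype.card H = 1 := by
    intro u
    rw [← map_pow, pow_card_eq_one, map_one]
  refine paired_of hq Fintype.card_pos hχ hker hr ?_
  intro y b hy hya hb
  refine ⟨fun P => P.comp τe, ?_, ?_⟩
  · intro P
    apply Place.ext
    ext f
    change P.ord (τ (τ f)) = P.ord f
    rw [hττ]
  · intro P
    obtain ⟨n₀, hn₀⟩ := hq.2 (y * a t y) (by
      intro s
      obtain ⟨h', h6⟩ := ht s s.2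
      have h7 : a (t⁻¹ * s * t) y = algebraMap k K (χ ⟨t⁻¹ * s * t, h'⟩ : k) * y :=
        hya ⟨t⁻¹ * s * t, h'⟩
      have h8 : a (s : G) y = algebraMap k K (χ s : k) * y := hya s
      change a (s : G) (y * a t y) = y * a t y
      rw [map_mul, hmove, h8, h7, h6, map_mul, AlgEquiv.commutes]
      have h9 : algebraMap k K (χ s : k) * algebraMap k K (((χ ⟨s, s.2⟩)⁻¹ : kˣ) : k) = 1 := by
        rw [← map_mul, ← Units.val_mul]
        have : χ s * (χ ⟨s, s.2⟩)⁻¹ = 1 := mul_inv_cancel _
        rw [this, Units.val_one, map_one]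
      calc algebraMap k K (χ s : k) * y *
            (algebraMap k K (((χ ⟨s, s.2⟩)⁻¹ : kˣ) : k) * a t y)
          = algebraMap k K (χ s : k) * algebraMap k K (((χ ⟨s, s.2⟩)⁻¹ : kˣ) : k) *
            (y * a t y) := by ring
        _ = y * a t y := by rw [h9, one_mul])
    have h5 : n₀ ^ Fintype.card H = b * τ b := by
      apply hinj
      rw [map_pow, hn₀, mul_pow, ← map_pow (a t), hb, map_mul, hτ]
    have hb0 : b ≠ 0 := by
      rintro rfl
      rw [map_zero] at hb
      exact hy ((pow_eq_zero_iff Fintype.card_ne_zero).1 hb)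
    have hτb0 : τ b ≠ 0 := by
      intro h
      apply hb0
      rw [← hττ b, h]
      exact map_zero τh
    refine ⟨P.ord n₀, ?_⟩
    rw [← P.ord_pow, h5, P.ord_mul hb0 hτb0]
    rfl

lemma VanT.mono {T : Set ((Place k K → Place k K) × kˣ)} {Z Z' : Set (Place k K)} {c : ℕ}
    (h : VanT T Z c) (hZ : Z ⊆ Z') : VanT T Z' c := by
  intro ι _ _ W _ _ Ψ hι P1 P2 P3 P4 x
  exact h ι W Ψ hι P1 P2 P3 (fun x i hi => P4 x i (hZ hi)) x

/-- the vanishing and the number of forms for a character which is trivial, or inverted and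
ramified -/
theorem number (hr : χ ≠ 1 → Inverted H χ ∧
      ∃ (u : H) (P : Place k K), χ u ≠ 1 ∧ act a (u : G) P = P) (p : Place k K) :
    ∃ c : ℕ, VanT (rules (a.comp H.subtype) χ) (zeros a χ p) c ∧
      (c : Cardinal) ≤ Module.rank k (Eigenforms (a.comp H.subtype) χ) := by
  classical
  have : Fintype H := Fintype.ofFinite _
  obtain ⟨F, _, _, _, _, _, hq⟩ := exists_field (a.comp H.subtype)
  by_cases h1 : χ = 1
  · subst h1
    obtain ⟨c, h2, h3⟩ := trivial_number hq
    obtain ⟨o, e, he, ho⟩ := exists_below (IsScalarTower.toAlgHom k F K) p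
    have hO : Over p o e := ⟨he, ho⟩
    refine ⟨c, ((h2 o).toT).mono ?_, h3⟩
    rintro P ⟨-, e', hP⟩
    obtain ⟨s, hs⟩ := exists_act hq hO hP
    exact ⟨rfl, s, hs⟩
  · obtain ⟨hi, u, P, hu, hP⟩ := hr h1
    by_cases h2 : ∃ u : H, χ u ≠ 1 ∧ a (u : G) = 1
    · obtain ⟨v, hv, hv1⟩ := h2
      refine ⟨0, ?_, by simp⟩
      intro ι _ _ W _ _ Ψ hι P1 P2 P3 P4 x
      obtain ⟨i⟩ := Fintype.card_pos_iff.1 hι
      have h3 : Ψ (Function.update x i (act (a.comp H.subtype) v (x i))) =
          (((χ v)⁻¹ : kˣ) : k) • Ψ x := P2 (act (a.comp H.subtype) v, (χ v)⁻¹) ⟨v, rfl⟩ i x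
      have h4 : act (a.comp H.subtype) v (x i) = x i := by
        apply Place.ext
        ext f
        change (x i).ord (a (v : G) f) = (x i).ord f
        rw [hv1]; rfl
      rw [h4, Function.update_eq_self] at h3
      have h5 : (1 - (((χ v)⁻¹ : kˣ) : k)) • Ψ x = 0 := by
        rw [sub_smul, one_smul, ← h3, sub_self]
      refine (smul_eq_zero.1 h5).resolve_left ?_
      intro h6
      apply hv
      have h7 : (χ v)⁻¹ = 1 := by
        apply Units.ext
        rw [Units.val_one]
        exact (sub_eq_zero.1 h6).symm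
      exact inv_eq_one.1 h7
    · push Not at h2
      have hp : Paired (a.comp H.subtype) F χ := paired_inverted hi hq
        (fun v hv => by
          by_contra hc
          exact h2 v hc hv) ⟨P, u, hP, hu⟩
      obtain ⟨c, h3, h4⟩ := paired_number hq hp
      obtain ⟨o, e, he, ho⟩ := exists_below (IsScalarTower.toAlgHom k F K) p
      refine ⟨c, ((h3 o).toT).mono ?_, h4⟩
      rintro Q ⟨hc, -⟩
      exact absurd hc h1

end inverted

end Pool.Agent.H25.VN
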