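import Pool.Agent.H25.VN.N15

/-!
# Definitions for the quotients of the square of a curve
-/

set_option autoImplicit false
set_option linter.overlappingInstances false
set_option linter.unusedSectionVars false

namespace Pool.Agent.H25.VN

open FF KaehlerDifferential

section table

variable {k : Type} [Field k] {G : Type} [Group G] {R : Type}

/-- the subgroups for the characters `χ r`, their inverses, and the trivial character -/
def SymH (H : R → Subgroup G) : R ⊕ R ⊕ Unit → Subgroup G :=
  Sum.elim H (Sum.elim H fun _ => ⊤)

/-- the characters `χ r`, their inverses, and the trivial character of `G` -/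
def SymChar {H : R → Subgroup G} (χ : ∀ r, H r →* kˣ) : ∀ j, SymH H j →* kˣ
  | Sum.inl r => χ r
  | Sum.inr (Sum.inl r) => (χ r)⁻¹
  | Sum.inr (Sum.inr _) => 1

end table

section forms

variable {k : Type} [Field k] {K : Type} [Field K] [Algebra k K]

/-- The `k`-linear map `Φ` is the pull-back of two-forms on `X × X` by the exchange of the factors:
`Φ (ω ⊗ η) = - η ⊗ ω`. -/
def IsSwap (Φ : TwoForms k K K →ₗ[k] TwoForms k K K) : Prop :=
  ∀ ω η, Φ (prodForm ω η) = - prodForm η ω

/-- `w` is a regular two-form on `X × X` which is invariant under `G` and under the exchange of the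
factors. -/
def IsSymInvariant {G : Type} [Group G] (a : G →* (K ≃ₐ[k] K)) (w : TwoForms k K K) : Prop :=
  IsInvariant a a w ∧ ∀ Φ, IsSwap Φ → Φ w = w

end forms

section orbits

variable {k : Type} [Field k] {K : Type} [Field K] [Algebra k K] {G : Type} [Group G]

/-- The points of `X × X` which are equivalent under `G` and the exchange of the factors. -/
def orbSym (a : G →* (K ≃ₐ[k] K)) : Setoid (Place k K × Place k K) where
  r p q := ∃ g : G, q = act₂ a a g p ∨ q = (act₂ a a g p).swap
  iseqv :=
    { refl := fun p => ⟨1, Or.inl (by simp [act₂, act_one])⟩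
      symm := by
        rintro p q ⟨g, rfl | rfl⟩
        · exact ⟨g⁻¹, Or.inl (by simp [act₂, ← act_mul, act_one])⟩
        · exact ⟨g⁻¹, Or.inr (by simp [act₂, ← act_mul, act_one])⟩
      trans := by
        rintro p q r ⟨g, rfl | rfl⟩ ⟨h, rfl | rfl⟩
        · exact ⟨g * h, Or.inl (by simp [act₂, act_mul])⟩
        · exact ⟨g * h, Or.inr (by simp [act₂, act_mul])⟩
        · exact ⟨g * h, Or.inr (by simp [act₂, act_mul])⟩
        · exact ⟨g * h, Or.inl (by simp [act₂, act_mul])⟩ }

end orbits

end Pool.Agent.H25.VN
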